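import Mathlib

/-!
# Quantifier-free formulas over a field, symmetric designs
-/

set_option autoImplicit false

namespace Pool.Agent.T2h48.DW

/-- quantifier-free formulas in the language of rings with `n` free variables and parameters in `F` -/
inductive QF (F : Type) [CommRing F] (n : ℕ) : Type
  /-- the equation `f = 0` -/
  | eq : MvPolynomial (Fin n) F → QF F n
  /-- negation -/
  | neg : QF F n → QF F n
  /-- conjunction -/
  | and : QF F n → QF F n → QF F n

/-- truth of a formula at a point with coordinates in an `F`-algebra `K` -/
def QF.Holds {F : Type} [CommRing F] {n : ℕ} {K : Type} [CommRing K] [Algebra F K] :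
    QF F n → (Fin n → K) → Prop
  | QF.eq f, x => MvPolynomial.aeval x f = 0
  | QF.neg φ, x => ¬ φ.Holds x
  | QF.and φ ψ, x => φ.Holds x ∧ ψ.Holds x

/-- The incidence relation `I` between the set `P` of points and the set `B` of blocks is a
**symmetric `(v, k, l)` design**: there are `v` points and `v` blocks, every block is incident with `k`
points, and any two points are incident with exactly `l` common blocks. -/
structure IsSymmetricDesign {P B : Type} (I : P → B → Prop) (v k l : ℕ) : Prop where
  cardP : Nat.card P = v
  cardB : Nat.card B = v
  block : ∀ b : B, Nat.card {x : P // I x b} = k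
  pair : ∀ x y : P, x ≠ y → Nat.card {b : B // I x b ∧ I y b} = l

end Pool.Agent.T2h48.DW
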