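import Pool.Agent.T2h48.DW.T_ARITH
import Pool.Agent.T2h69.DW.T_SML

/-!
# Arithmetic of exponential sums on an arithmetic progression
-/

set_option autoImplicit false

namespace Pool.Agent.T2h48.DW

open Filter Topology

section sml

open Pool.Agent.H612.LR Polynomial Pool.Agent.T2h69.DW

/-- Skolem–Mahler–Lech inside an arithmetic progression -/
theorem sml2 (W : ℕ → ℤ) (hWe : IsExpSum W) (r T₀ : ℕ) (hr : 1 ≤ r)
    (hzero : ∀ N : ℕ, ∃ t, N ≤ t ∧ W (r + T₀ * t) = 0) :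
    ∃ t₀ T : ℕ, 1 ≤ T ∧ ∀ t : ℕ, W (r + T₀ * (t₀ + T * t)) = 0 := by
  classical
  obtain ⟨S, n, h0, halg, hW⟩ := hWe
  obtain ⟨D, hD, hint⟩ := common_den S halg
  set M : ℤ[X] := ∏ β ∈ S, minpoly ℤ (((D : ℂ) * β) ^ T₀) with hM
  have hMm : M.Monic := monic_prod_of_monic _ _ fun β hβ => minpoly.monic ((hint β hβ).pow T₀)
  have hM0 : ∀ β ∈ S, aeval (((D : ℂ) * β) ^ T₀) M = 0 := by
    intro β hβ
    rw [hM, map_prod]
    exact Finset.prod_eq_zero hβ (minpoly.aeval _ _)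
  set f : ℕ → ℤ := fun m => D ^ (r + T₀ * m) * W (r + T₀ * m) with hf
  have hfc : ∀ m, (f m : ℂ) = ∑ β ∈ S, (n β : ℂ) * ((D : ℂ) * β) ^ (r + T₀ * m) := by
    intro m
    rw [hf]
    push_cast
    rw [hW (r + T₀ * m) (by omega), Finset.mul_sum]
    exact Finset.sum_congr rfl fun β _ => by rw [mul_pow]; ring
  have hrec : ∀ m, f (m + M.natDegree) = ∑ i ∈ Finset.range M.natDegree,
      (fun i => - M.coeff (M.natDegree - 1 - i)) i * f (m + M.natDegree - 1 - i) := by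
    intro m
    have h1 : ∑ j ∈ Finset.range (M.natDegree + 1), M.coeff j * f (m + j) = 0 := by
      have h2 : ((∑ j ∈ Finset.range (M.natDegree + 1), M.coeff j * f (m + j) : ℤ) : ℂ) = 0 := by
        push_cast
        simp only [hfc, Finset.mul_sum]
        rw [Finset.sum_comm]
        refine Finset.sum_eq_zero fun β hβ => ?_
        have h3 := hM0 β hβ
        rw [aeval_eq_sum_range] at h3
        have h4 : ∑ j ∈ Finset.range (M.natDegree + 1),
            (M.coeff j : ℂ) * ((n β : ℂ) * ((D : ℂ) * β) ^ (r + T₀ * (m + j))) =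
            (n β : ℂ) * ((D : ℂ) * β) ^ (r + T₀ * m) *
              ∑ j ∈ Finset.range (M.natDegree + 1), M.coeff j • (((D : ℂ) * β) ^ T₀) ^ j := by
          rw [Finset.mul_sum]
          refine Finset.sum_congr rfl fun j _ => ?_
          rw [zsmul_eq_mul, show r + T₀ * (m + j) = (r + T₀ * m) + T₀ * j by ring, pow_add,
            pow_mul ((D : ℂ) * β) T₀ j]
          ring
        rw [h4, h3, mul_zero]
      exact_mod_cast h2
    rw [Finset.sum_range_succ, hMm.coeff_natDegree, one_mul] at h1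
    have h5 : ∑ i ∈ Finset.range M.natDegree,
        (fun i => - M.coeff (M.natDegree - 1 - i)) i * f (m + M.natDegree - 1 - i) =
        ∑ j ∈ Finset.range M.natDegree, - (M.coeff j * f (m + j)) := by
      rw [← Finset.sum_range_reflect (fun j => - (M.coeff j * f (m + j)))]
      refine Finset.sum_congr rfl fun i hi => ?_
      have hi' := Finset.mem_range.1 hi
      rw [show m + M.natDegree - 1 - i = m + (M.natDegree - 1 - i) by omega]
      ring
    rw [h5, Finset.sum_neg_distrib]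
    linarith
  obtain ⟨d, K, G, hBd⟩ := SML_bd f _ M.natDegree hrec
  obtain ⟨n0, T, -, hT, hz⟩ := SML_zeros f d K G 0 hBd (by
    intro N
    obtain ⟨m, hm, hm0⟩ := hzero N
    refine ⟨m, hm, ?_⟩
    show D ^ (r + T₀ * m) * W (r + T₀ * m) = 0
    rw [hm0, mul_zero])
  refine ⟨n0, T, hT, fun t => ?_⟩
  have h1 := hz t
  rw [hf] at h1
  rcases mul_eq_zero.1 h1 with h2 | h2
  · exact absurd h2 (pow_ne_zero _ hD)
  · exact h2

end sml

/-- **The main arithmetic theorem**, on the progression `r + T₀ t`. -/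
theorem arith2 (hR : S_RING) (hA : S_ASYM) (hSp : S_SPLIT) (hD : S_DIR)
    (hG : S_GAUSS) (hV : S_VAL) (V I : ℕ → ℤ) (l h : ℤ) (Q : ℝ) (r T₀ : ℕ) (hVe : IsExpSum V)
    (hIe : IsExpSum I) (hl : l ≠ 0) (hh : h ≠ 0) (hQ : 1 < Q) (hr : 1 ≤ r) (hT₀ : 1 ≤ T₀)
    (hlim : Tendsto (fun t : ℕ => (V (r + T₀ * t) : ℝ) / Q ^ (r + T₀ * t)) atTop (𝓝 (h : ℝ)))
    (hinf : ∀ N : ℕ, ∃ t, N ≤ t ∧ ∃ κ : ℤ, κ * (κ - 1) = l * (V (r + T₀ * t) - 1) ∧
      V (r + T₀ * t) * κ = I (r + T₀ * t)) : l ∣ h := by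
  classical
  have hQ0 : (0 : ℝ) < Q := by linarith
  have hQc : (Q : ℂ) ≠ 0 := by exact_mod_cast hQ0.ne'
  -- the zeros
  have hg : IsExpSum (fun m => I m * (I m - V m) - l * (V m - 1) * (V m) ^ 2) := by
    have e1 : IsExpSum (fun m => I m - V m) := by
      simpa [sub_eq_add_neg] using hR.2.1 _ _ hIe (isExpSum_neg hR hVe)
    have e2 := hR.2.2 _ _ hIe e1
    have e3 : IsExpSum (fun m => V m - 1) := by
      simpa [sub_eq_add_neg] using hR.2.1 _ _ hVe (hR.1 (-1))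
    have e4 := hR.2.2 _ _ (hR.2.2 _ _ (hR.1 l) e3) (hR.2.2 _ _ hVe hVe)
    have e5 := hR.2.1 _ _ e2 (isExpSum_neg hR e4)
    have e6 : (fun m => I m * (I m - V m) - l * (V m - 1) * (V m) ^ 2) =
        fun m => I m * (I m - V m) + -(l * (V m - 1) * (V m * V m)) := by
      funext m
      ring
    rw [e6]
    exact e5
  obtain ⟨t₀, T₁, hT₁, hz'⟩ := sml2 _ hg r T₀ hr (fun N => by
    obtain ⟨t, hm, κ, hκ, hκ'⟩ := hinf N
    refine ⟨t, hm, ?_⟩
    obtain ⟨m, hm'⟩ : ∃ m, m = r + T₀ * t := ⟨_, rfl⟩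
    rw [← hm'] at hκ hκ' ⊢
    rw [← hκ']
    have : V m * κ * (V m * κ - V m) - l * (V m - 1) * V m ^ 2 =
        V m ^ 2 * (κ * (κ - 1) - l * (V m - 1)) := by ring
    rw [this, hκ, sub_self, mul_zero])
  obtain ⟨a, haa⟩ : ∃ a, a = r + T₀ * t₀ := ⟨_, rfl⟩
  obtain ⟨T, hTT⟩ : ∃ T, T = T₀ * T₁ := ⟨_, rfl⟩
  have ha : 1 ≤ a := by omega
  have hT : 1 ≤ T := by
    rw [hTT]
    exact Nat.mul_pos hT₀ hT₁
  have hz : ∀ t, I (a + T * t) * (I (a + T * t) - V (a + T * t)) -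
      l * (V (a + T * t) - 1) * V (a + T * t) ^ 2 = 0 := by
    intro t
    have h1 := hz' t
    rw [show r + T₀ * (t₀ + T₁ * t) = a + T * t by rw [haa, hTT]; ring] at h1
    exact h1
  obtain ⟨S1, n1, h01, halg1, hV1⟩ := hVe
  obtain ⟨S2, n2, h02, halg2, hI1⟩ := hIe
  -- the group
  obtain ⟨u, hu⟩ : ∃ u : ℂ → ℂˣ, ∀ z, z ≠ 0 → ((u z : ℂˣ) : ℂ) = z :=
    ⟨fun z => if hz : z ≠ 0 then Units.mk0 z hz else 1, fun z hz => by
      beta_reduce
      rw [dif_pos hz]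
      rfl⟩
  obtain ⟨S, hSdef⟩ : ∃ S : Finset ℂˣ, S = (S1 ∪ S2).image u := ⟨_, rfl⟩
  have hSp' := hSp S
  have hD' := hD S
  have hmemS : ∀ z ∈ S1 ∪ S2, u z ∈ Subgroup.closure (S : Set ℂˣ) := fun z hz =>
    Subgroup.subset_closure (by
      rw [hSdef, Finset.mem_coe]
      exact Finset.mem_image_of_mem _ hz)
  generalize Subgroup.closure (S : Set ℂˣ) = Γ at hSp' hD' hmemS
  obtain ⟨N, τ, hN, hτ1, hτ2⟩ := hSp'
  obtain ⟨g, hg⟩ : ∃ g : ℂ → Γ, ∀ z ∈ S1 ∪ S2, ((g z : Γ) : ℂˣ) = u z := by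
    refine ⟨fun z => if hz : u z ∈ Γ then ⟨u z, hz⟩ else 1, fun z hz => ?_⟩
    beta_reduce
    rw [dif_pos (hmemS z hz)]
  have hgc : ∀ z ∈ S1 ∪ S2, (((g z : Γ) : ℂˣ) : ℂ) = z := by
    intro z hz
    rw [hg z hz]
    refine hu z ?_
    rintro rfl
    rcases Finset.mem_union.1 hz with h1 | h1
    · exact h01 h1
    · exact h02 h1
  have hS1 : ∀ z ∈ S1, z ∈ S1 ∪ S2 := fun z hz => Finset.mem_union_left _ hz
  have hS2 : ∀ z ∈ S2, z ∈ S1 ∪ S2 := fun z hz => Finset.mem_union_right _ hz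
  have hTN : 1 ≤ T * N := Nat.mul_pos hT hN
  -- asymptotics on the progression `a + T N t`
  have hlimC : Tendsto (fun t : ℕ => (∑ w ∈ S1.image (fun β => β ^ (T * N)),
      (∑ β ∈ S1.filter (fun β => β ^ (T * N) = w), (n1 β : ℂ) * (β / Q) ^ a) * w ^ t) /
        (((Q ^ (T * N) : ℝ)) : ℂ) ^ t) atTop (𝓝 (h : ℂ)) := by
    have h1 : Tendsto (fun t : ℕ => (V (a + T * N * t) : ℝ) / Q ^ (a + T * N * t)) atTop
        (𝓝 (h : ℝ)) := by
      have h2 : Tendsto (fun t : ℕ => t₀ + T₁ * N * t) atTop atTop := by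
        refine tendsto_atTop_mono (f := fun t : ℕ => t) (fun t => ?_) tendsto_id
        have : 1 * t ≤ T₁ * N * t := Nat.mul_le_mul_right t (Nat.mul_pos hT₁ hN)
        omega
      refine (hlim.comp h2).congr fun t => ?_
      simp only [Function.comp_apply]
      rw [show r + T₀ * (t₀ + T₁ * N * t) = a + T * N * t by rw [haa, hTT]; ring]
    have h3 : Tendsto (fun t : ℕ => (((V (a + T * N * t) : ℝ) / Q ^ (a + T * N * t) : ℝ) : ℂ)) atTop
        (𝓝 (((h : ℝ)) : ℂ)) := (Complex.continuous_ofReal.tendsto _).comp h1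
    have h4 : (((h : ℝ)) : ℂ) = (h : ℂ) := by push_cast; rfl
    rw [h4] at h3
    refine h3.congr fun t => ?_
    have h5 : ∑ w ∈ S1.image (fun β => β ^ (T * N)),
        (∑ β ∈ S1.filter (fun β => β ^ (T * N) = w), (n1 β : ℂ) * (β / Q) ^ a) * w ^ t =
        ∑ β ∈ S1, ((n1 β : ℂ) * (β / Q) ^ a) * (β ^ (T * N)) ^ t := by
      rw [← Finset.sum_fiberwise_of_maps_to (s := S1) (t := S1.image (fun β => β ^ (T * N)))
        (g := fun β => β ^ (T * N)) (fun β hβ => Finset.mem_image_of_mem _ hβ)]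
      refine Finset.sum_congr rfl fun w _ => ?_
      rw [Finset.sum_mul]
      refine Finset.sum_congr rfl fun β hβ => ?_
      rw [(Finset.mem_filter.1 hβ).2]
    rw [h5]
    push_cast
    rw [hV1 _ (by omega), Finset.sum_div, Finset.sum_div]
    refine Finset.sum_congr rfl fun β _ => ?_
    rw [div_pow, ← pow_mul, ← pow_mul, pow_add, pow_add]
    field_simp
  have hQM0 : (0 : ℝ) < Q ^ (T * N) := by positivity
  obtain ⟨hA1, hA2, hA3⟩ := hA (S1.image (fun β => β ^ (T * N)))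
    (fun w => ∑ β ∈ S1.filter (fun β => β ^ (T * N) = w), (n1 β : ℂ) * (β / Q) ^ a)
    (Q ^ (T * N)) h (by
      intro h0
      obtain ⟨β, hβ, hβ0⟩ := Finset.mem_image.1 h0
      rw [pow_eq_zero_iff (by omega)] at hβ0
      rw [hβ0] at hβ
      exact h01 hβ) hQM0 hlimC
  have hQS : ((Q ^ (T * N) : ℝ) : ℂ) ∈ S1.image (fun β => β ^ (T * N)) := by
    by_contra hc
    have := hA3 hc
    exact hh (by exact_mod_cast this)
  have hcQ := hA2 hQS
  obtain ⟨β1, hβ1, hβ1Q⟩ := Finset.mem_image.1 hQS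
  have hβ1n : ‖β1‖ = Q := by
    have h1 : ‖β1‖ ^ (T * N) = Q ^ (T * N) := by
      rw [← norm_pow, hβ1Q, Complex.norm_real, Real.norm_of_nonneg hQM0.le]
    exact (pow_left_inj₀ (norm_nonneg _) hQ0.le (show T * N ≠ 0 by omega)).1 h1
  -- the direction
  obtain ⟨e, he⟩ := hD' (insert (g β1)⁻¹ ((S1.filter fun β => ‖β‖ < Q).image fun β => g β * (g β1)⁻¹)) (by
    intro γ hγ
    have hgQ : (((g β1 : Γ) : ℂˣ) : ℂ) = β1 := hgc _ (hS1 _ hβ1)
    rw [Finset.mem_insert] at hγ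
    rcases hγ with rfl | hγ
    · rw [Subgroup.coe_inv, Units.val_inv_eq_inv_val, hgQ, norm_inv, hβ1n]
      exact inv_lt_one_of_one_lt₀ hQ
    · obtain ⟨β, hβ, rfl⟩ := Finset.mem_image.1 hγ
      rw [Finset.mem_filter] at hβ
      rw [Subgroup.coe_mul, Subgroup.coe_inv, Units.val_mul, Units.val_inv_eq_inv_val, hgQ,
        hgc _ (hS1 _ hβ.1), norm_mul, norm_inv, hβ1n,
        ← div_eq_mul_inv, div_lt_one hQ0]
      exact hβ.2)
  set ee : Γ → ℤ := fun γ => Multiplicative.toAdd (e γ) with hee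
  have hee_mul : ∀ x y, ee (x * y) = ee x + ee y := fun x y => by
    simp only [hee, map_mul, toAdd_mul]
  have hee_inv : ∀ x, ee x⁻¹ = - ee x := fun x => by
    simp only [hee, map_inv, toAdd_inv]
  have heQ : 0 < ee (g β1) := by
    have h1 := he _ (Finset.mem_insert_self _ _)
    have h2 : ee (g β1)⁻¹ < 0 := h1
    rw [hee_inv] at h2
    omega
  have heβ : ∀ β ∈ S1, ‖β‖ < Q → ee (g β) < ee (g β1) := by
    intro β hβ hβQ
    have h1 := he (g β * (g β1)⁻¹) (Finset.mem_insert_of_mem (Finset.mem_image.2 ⟨β,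
      Finset.mem_filter.2 ⟨hβ, hβQ⟩, rfl⟩))
    have h2 : ee (g β * (g β1)⁻¹) < 0 := h1
    rw [hee_mul, hee_inv] at h2
    omega
  -- torsion has degree zero
  have hetor : ∀ ζ : Γ, IsOfFinOrder ζ → ee ζ = 0 := by
    intro ζ hζ
    obtain ⟨k, hk, hk1⟩ := isOfFinOrder_iff_pow_eq_one.1 hζ
    have h1 : e ζ ^ k = 1 := by rw [← map_pow, hk1, map_one]
    have h2 := congrArg Multiplicative.toAdd h1
    rw [toAdd_pow, toAdd_one, smul_eq_zero] at h2
    rcases h2 with h2 | h2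
    · omega
    · exact h2
  -- the group ring
  obtain ⟨Vh, hVh⟩ : ∃ Vh : MonoidAlgebra ℤ Γ, Vh = ∑ β ∈ S1, MonoidAlgebra.single (g β) (n1 β) :=
    ⟨_, rfl⟩
  obtain ⟨Ih, hIh⟩ : ∃ Ih : MonoidAlgebra ℤ Γ, Ih = ∑ β ∈ S2, MonoidAlgebra.single (g β) (n2 β) :=
    ⟨_, rfl⟩
  obtain ⟨G, hGdef⟩ : ∃ G : MonoidAlgebra ℤ Γ, G = Ih * (Ih - Vh) - (l : MonoidAlgebra ℤ Γ) * (Vh - 1) * Vh ^ 2 :=
    ⟨_, rfl⟩
  set ι : Γ →* ℂˣ := Γ.subtype with hι
  obtain ⟨evm, hevm⟩ : ∃ evm : ℕ → (Γ →* ℂ), ∀ m γ, evm m γ = (((ι γ : ℂˣ)) : ℂ) ^ m :=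
    ⟨fun m => ((powMonoidHom m : ℂ →* ℂ).comp (Units.coeHom ℂ)).comp ι, fun m γ => rfl⟩
  have hevV : ∀ m, 1 ≤ m → MonoidAlgebra.lift ℤ ℂ Γ (evm m) Vh = (V m : ℂ) := by
    intro m hm
    rw [hVh, map_sum, hV1 m hm]
    refine Finset.sum_congr rfl fun β hβ => ?_
    rw [MonoidAlgebra.lift_single, hevm, zsmul_eq_mul]
    have h1 : (((ι (g β) : ℂˣ)) : ℂ) = β := hgc β (hS1 β hβ)
    rw [h1]
  have hevI : ∀ m, 1 ≤ m → MonoidAlgebra.lift ℤ ℂ Γ (evm m) Ih = (I m : ℂ) := by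
    intro m hm
    rw [hIh, map_sum, hI1 m hm]
    refine Finset.sum_congr rfl fun β hβ => ?_
    rw [MonoidAlgebra.lift_single, hevm, zsmul_eq_mul]
    have h1 : (((ι (g β) : ℂˣ)) : ℂ) = β := hgc β (hS2 β hβ)
    rw [h1]
  have hG0 : ∀ t : ℕ, MonoidAlgebra.lift ℤ ℂ Γ (evm (a + T * N * t)) G = 0 := by
    intro t
    have hm : 1 ≤ a + T * N * t := by omega
    have h1 := hz (N * t)
    rw [← mul_assoc] at h1
    rw [hGdef]
    simp only [map_sub, map_mul, map_pow, map_intCast, map_one, hevV _ hm, hevI _ hm]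
    have h2 : ((I (a + T * N * t) * (I (a + T * N * t) - V (a + T * N * t)) -
      l * (V (a + T * N * t) - 1) * V (a + T * N * t) ^ 2 : ℤ) : ℂ) = 0 := by
      rw [h1, Int.cast_zero]
    push_cast at h2
    exact h2
  -- primes
  refine int_dvd_of_val hl hh fun ℓ hℓ => ?_
  obtain ⟨O, hO⟩ := hV ℓ hℓ
  have hτO : ∀ γ, ((τ γ : ℂˣ) : ℂ) ∈ O := by
    intro γ
    refine mem_of_root hN ?_
    rw [← Units.val_pow_eq_pow_val, hτ1, Units.val_one]
  obtain ⟨τ', hτ'⟩ : ∃ τ' : Γ →* O, ∀ γ, ((τ' γ : O) : ℂ) = ((τ γ : ℂˣ) : ℂ) :=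
    ⟨{ toFun := fun γ => ⟨((τ γ : ℂˣ) : ℂ), hτO γ⟩
       map_one' := by
        apply Subtype.ext
        simp
       map_mul' := fun x y => by
        apply Subtype.ext
        simp }, fun γ => rfl⟩
  obtain ⟨ψ, hψ⟩ : ∃ ψ : Γ →* LaurentPolynomial O, ∀ γ, ψ γ =
      LaurentPolynomial.C (τ' γ ^ a) * LaurentPolynomial.T (ee γ) :=
    ⟨{ toFun := fun γ => LaurentPolynomial.C (τ' γ ^ a) * LaurentPolynomial.T (ee γ)
       map_one' := by
        have h1 : ee 1 = 0 := by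
          have := hee_mul 1 1
          rw [mul_one] at this
          omega
        rw [map_one, one_pow, map_one, h1, LaurentPolynomial.T_zero, one_mul]
       map_mul' := fun x y => by
        rw [map_mul, mul_pow, map_mul, hee_mul, LaurentPolynomial.T_add]
        ring }, fun γ => rfl⟩
  have hΘG : MonoidAlgebra.lift ℤ (LaurentPolynomial O) Γ ψ G = 0 := by
    rw [MonoidAlgebra.lift_apply', Finsupp.sum]
    have h1 := transfer ι (a := a) (M := T * N) (A := LaurentPolynomial O) ψ ?_ G ?_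
    · rw [← h1]
      refine Finset.sum_congr rfl fun γ _ => ?_
      congr 1
    · intro s c hs hc
      have h2 : ∀ ζ ∈ s, ψ ζ = LaurentPolynomial.C (τ' ζ ^ a) ∧
          ((τ' ζ : O) : ℂ) = ((ι ζ : ℂˣ) : ℂ) := by
        intro ζ hζ
        have hfin : IsOfFinOrder ζ := by
          rw [isOfFinOrder_iff_pow_eq_one]
          refine ⟨T * N, hTN, ?_⟩
          apply Subtype.ext
          exact hs ζ hζ
        have h3 := hτ2 ζ hfin
        refine ⟨?_, ?_⟩
        · rw [hψ, hetor ζ hfin, LaurentPolynomial.T_zero, mul_one]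
        · rw [hτ', h3.2]
          rfl
      have h4 : ∑ ζ ∈ s, (c ζ : O) * τ' ζ ^ a = 0 := by
        apply Subtype.ext
        push_cast
        rw [← hc]
        refine Finset.sum_congr rfl fun ζ hζ => ?_
        rw [(h2 ζ hζ).2]
      have h5 := congrArg (LaurentPolynomial.C (R := O)) h4
      rw [map_sum, map_zero] at h5
      rw [← h5]
      refine Finset.sum_congr rfl fun ζ hζ => ?_
      rw [(h2 ζ hζ).1, map_mul, map_intCast]
    · intro t
      have h2 := hG0 t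
      rw [MonoidAlgebra.lift_apply', Finsupp.sum] at h2
      rw [← h2]
      refine Finset.sum_congr rfl fun γ _ => ?_
      rw [hevm]
      congr 1
  -- the shift
  obtain ⟨n, hn⟩ : ∃ n : ℕ, ∀ z ∈ S1 ∪ S2, 0 ≤ (n : ℤ) + ee (g z) := by
    refine ⟨∑ z ∈ S1 ∪ S2, (ee (g z)).natAbs, fun z hz => ?_⟩
    have h1 : (ee (g z)).natAbs ≤ ∑ z ∈ S1 ∪ S2, (ee (g z)).natAbs :=
      Finset.single_le_sum (f := fun z => (ee (g z)).natAbs) (fun _ _ => Nat.zero_le _) hz
    omega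
  have hlaur : ∀ (S' : Finset ℂ) (nn : ℂ → ℤ), (∀ z ∈ S', z ∈ S1 ∪ S2) →
      Polynomial.toLaurent (∑ β ∈ S', Polynomial.monomial ((n : ℤ) + ee (g β)).toNat
        ((nn β : O) * τ' (g β) ^ a)) = LaurentPolynomial.T n *
        MonoidAlgebra.lift ℤ (LaurentPolynomial O) Γ ψ (∑ β ∈ S', MonoidAlgebra.single (g β) (nn β)) := by
    intro S' nn hS'
    rw [map_sum, map_sum, Finset.mul_sum]
    refine Finset.sum_congr rfl fun β hβ => ?_
    rw [MonoidAlgebra.lift_single, hψ, ← Polynomial.C_mul_X_pow_eq_monomial,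
      Polynomial.toLaurent_C_mul_X_pow, Int.toNat_of_nonneg (hn β (hS' β hβ)),
      LaurentPolynomial.T_add, map_mul, map_intCast, zsmul_eq_mul]
    ring
  obtain ⟨V0, hV0⟩ : ∃ V0 : Polynomial O, V0 = ∑ β ∈ S1, Polynomial.monomial ((n : ℤ) + ee (g β)).toNat
        ((n1 β : O) * τ' (g β) ^ a) := ⟨_, rfl⟩
  obtain ⟨I0, hI0⟩ : ∃ I0 : Polynomial O, I0 = ∑ β ∈ S2, Polynomial.monomial ((n : ℤ) + ee (g β)).toNat
        ((n2 β : O) * τ' (g β) ^ a) := ⟨_, rfl⟩
  have hVl := hlaur S1 n1 hS1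
  have hIl := hlaur S2 n2 hS2
  rw [← hV0, ← hVh] at hVl
  rw [← hI0, ← hIh] at hIl
  have hid : Polynomial.X ^ n * I0 * (I0 - V0) =
      Polynomial.C ((l : O)) * (V0 - Polynomial.X ^ n) * V0 ^ 2 := by
    apply Polynomial.toLaurent_injective
    simp only [map_mul, map_sub, map_pow, Polynomial.toLaurent_X, hVl, hIl, map_intCast]
    have h1 : (LaurentPolynomial.T 1 : LaurentPolynomial O) ^ n = LaurentPolynomial.T n := by
      rw [LaurentPolynomial.T_pow, mul_one]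
    rw [h1]
    have h2 := hΘG
    rw [hGdef] at h2
    simp only [map_sub, map_mul, map_pow, map_intCast, map_one] at h2
    linear_combination (LaurentPolynomial.T n : LaurentPolynomial O) ^ 3 * h2
  -- elements of a class
  have hclass : ∀ β ∈ S1, ∀ β' ∈ S1, β ^ (T * N) = β' ^ (T * N) →
      ee (g β) = ee (g β') ∧ ((τ' (g β) : O) : ℂ) * β' = ((τ' (g β') : O) : ℂ) * β := by
    intro β hβ β' hβ' hpow
    have hζ : IsOfFinOrder (g β * (g β')⁻¹) := by
      rw [isOfFinOrder_iff_pow_eq_one]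
      refine ⟨T * N, hTN, ?_⟩
      apply Subtype.ext
      apply Units.ext
      rw [mul_pow, inv_pow, Subgroup.coe_mul, Subgroup.coe_inv, Subgroup.coe_pow, Subgroup.coe_pow,
        Units.val_mul, Units.val_inv_eq_inv_val, Units.val_pow_eq_pow_val, Units.val_pow_eq_pow_val,
        hgc _ (hS1 _ hβ), hgc _ (hS1 _ hβ'), hpow, Subgroup.coe_one, Units.val_one]
      refine mul_inv_cancel₀ (pow_ne_zero _ ?_)
      rintro rfl
      exact h01 hβ'
    constructor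
    · have h1 := hetor _ hζ
      rw [hee_mul, hee_inv] at h1
      omega
    · have h1 := (hτ2 _ hζ).2
      have h2 : τ (g β) = τ (g β') * (g β * (g β')⁻¹ : Γ) := by
        rw [← h1, ← map_mul, mul_comm (g β'), inv_mul_cancel_right]
      rw [hτ', hτ', h2, Units.val_mul, Subgroup.coe_mul, Subgroup.coe_inv, Units.val_mul,
        Units.val_inv_eq_inv_val, hgc _ (hS1 _ hβ), hgc _ (hS1 _ hβ')]
      have hβ'0 : β' ≠ 0 := by
        rintro rfl
        exact h01 hβ'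
      field_simp
  -- the sum over a class
  have hsumclass : ∀ β' ∈ S1, ∑ β ∈ S1.filter (fun β => β ^ (T * N) = β' ^ (T * N)),
        Polynomial.monomial ((n : ℤ) + ee (g β)).toNat ((n1 β : O) * τ' (g β) ^ a) =
      Polynomial.monomial ((n : ℤ) + ee (g β')).toNat
        (∑ β ∈ S1.filter (fun β => β ^ (T * N) = β' ^ (T * N)), (n1 β : O) * τ' (g β) ^ a) := by
    intro β' hβ'
    rw [map_sum]
    refine Finset.sum_congr rfl fun β hβ => ?_
    rw [Finset.mem_filter] at hβ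
    rw [(hclass β hβ.1 β' hβ' hβ.2).1]
  have hcoef : ∀ β' ∈ S1, (((∑ β ∈ S1.filter (fun β => β ^ (T * N) = β' ^ (T * N)),
        (n1 β : O) * τ' (g β) ^ a : O)) : ℂ) * (β' / Q) ^ a =
      ((τ' (g β') : O) : ℂ) ^ a *
        ∑ β ∈ S1.filter (fun β => β ^ (T * N) = β' ^ (T * N)), (n1 β : ℂ) * (β / Q) ^ a := by
    intro β' hβ'
    push_cast
    rw [Finset.sum_mul, Finset.mul_sum]
    refine Finset.sum_congr rfl fun β hβ => ?_
    rw [Finset.mem_filter] at hβ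
    have h1 := (hclass β hβ.1 β' hβ' hβ.2).2
    have h2 : ((τ' (g β) : O) : ℂ) ^ a * β' ^ a = ((τ' (g β') : O) : ℂ) ^ a * β ^ a := by
      rw [← mul_pow, h1, mul_pow]
    rw [div_pow, div_pow]
    linear_combination ((n1 β : ℂ) / (Q : ℂ) ^ a) * h2
  -- the leading coefficient
  obtain ⟨lc, hlcdef⟩ : ∃ lc : O, lc = ∑ β ∈ S1.filter (fun β => β ^ (T * N) = β1 ^ (T * N)),
      (n1 β : O) * τ' (g β) ^ a := ⟨_, rfl⟩
  have hlcC : (lc : ℂ) * (β1 / Q) ^ a = ((τ' (g β1) : O) : ℂ) ^ a * h := by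
    rw [hlcdef, hcoef β1 hβ1]
    congr 1
    rw [hβ1Q]
    exact hcQ
  have hsplit : V0 = Polynomial.monomial ((n : ℤ) + ee (g β1)).toNat lc +
      ∑ w ∈ (S1.image (fun β => β ^ (T * N))).erase (((Q ^ (T * N) : ℝ)) : ℂ),
        ∑ β ∈ S1.filter (fun β => β ^ (T * N) = w),
          Polynomial.monomial ((n : ℤ) + ee (g β)).toNat ((n1 β : O) * τ' (g β) ^ a) := by
    rw [hV0, ← Finset.sum_fiberwise_of_maps_to (s := S1) (t := S1.image (fun β => β ^ (T * N)))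
      (g := fun β => β ^ (T * N)) (fun β hβ => Finset.mem_image_of_mem _ hβ),
      ← Finset.add_sum_erase _ _ hQS, hlcdef, ← hsumclass β1 hβ1, hβ1Q]
  have hlow : (∑ w ∈ (S1.image (fun β => β ^ (T * N))).erase (((Q ^ (T * N) : ℝ)) : ℂ),
        ∑ β ∈ S1.filter (fun β => β ^ (T * N) = w),
          Polynomial.monomial ((n : ℤ) + ee (g β)).toNat ((n1 β : O) * τ' (g β) ^ a)).degree <
      (((n : ℤ) + ee (g β1)).toNat : WithBot ℕ) := by
    refine lt_of_le_of_lt (Polynomial.degree_sum_le _ _) ?_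
    rw [Finset.sup_lt_iff (WithBot.bot_lt_coe _)]
    intro w hw
    rw [Finset.mem_erase] at hw
    obtain ⟨β', hβ', rfl⟩ := Finset.mem_image.1 hw.2
    beta_reduce
    rw [hsumclass β' hβ']
    by_cases hlt : ‖β'‖ < Q
    · have h1 := heβ β' hβ' hlt
      have h2 := hn β' (hS1 β' hβ')
      refine lt_of_le_of_lt (Polynomial.degree_monomial_le _ _) ?_
      exact_mod_cast (by omega : ((n : ℤ) + ee (g β')).toNat < ((n : ℤ) + ee (g β1)).toNat)
    · have h1 := hA1 (β' ^ (T * N)) hw.2 (by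
        rw [norm_pow]
        exact pow_le_pow_left₀ hQ0.le (not_lt.1 hlt) _) hw.1
      have h2 := hcoef β' hβ'
      rw [h1, mul_zero] at h2
      have hβ'0 : β' ≠ 0 := by
        rintro rfl
        exact h01 hβ'
      have h3 : (((∑ β ∈ S1.filter (fun β => β ^ (T * N) = β' ^ (T * N)),
          (n1 β : O) * τ' (g β) ^ a : O)) : ℂ) = 0 :=
        (mul_eq_zero.1 h2).resolve_right (pow_ne_zero _ (div_ne_zero hβ'0 hQc))
      have h4 : (∑ β ∈ S1.filter (fun β => β ^ (T * N) = β' ^ (T * N)),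
          (n1 β : O) * τ' (g β) ^ a : O) = 0 := Subtype.ext h3
      rw [h4, Polynomial.monomial_zero_right, Polynomial.degree_zero]
      exact WithBot.bot_lt_coe _
  have hβ10 : β1 ≠ 0 := by
    rintro rfl
    exact h01 hβ1
  have hlead0 : lc ≠ 0 := by
    intro h0
    rw [h0, ZeroMemClass.coe_zero, zero_mul] at hlcC
    rcases mul_eq_zero.1 hlcC.symm with h1 | h1
    · rw [hτ'] at h1
      exact (pow_ne_zero a (Units.ne_zero _)) h1
    · exact hh (by exact_mod_cast h1)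
  have hdegmon : (Polynomial.monomial ((n : ℤ) + ee (g β1)).toNat lc).degree =
      (((n : ℤ) + ee (g β1)).toNat : WithBot ℕ) := Polynomial.degree_monomial _ hlead0
  have hdeg : V0.natDegree = ((n : ℤ) + ee (g β1)).toNat := by
    apply Polynomial.natDegree_eq_of_degree_eq_some
    rw [hsplit, Polynomial.degree_add_eq_left_of_degree_lt (by rw [hdegmon]; exact hlow), hdegmon]
  have hlc : V0.leadingCoeff = lc := by
    rw [hsplit, Polynomial.leadingCoeff_add_of_degree_lt' (by rw [hdegmon]; exact hlow),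
      Polynomial.leadingCoeff_monomial]
  have hl' : (l : O) ≠ 0 := by
    intro h0
    have h1 := congrArg (fun x : O => (x : ℂ)) h0
    simp only [ZeroMemClass.coe_zero] at h1
    apply hl
    have h2 : ((l : O) : ℂ) = (l : ℂ) := by push_cast; rfl
    rw [h2] at h1
    exact_mod_cast h1
  obtain ⟨c, hc⟩ := hG O (l : O) n V0 I0 hl' hid (by rw [hdeg]; omega)
  rw [hlc] at hc
  rw [hc, MulMemClass.coe_mul, hτ'] at hlcC
  have e2 : ((l : O) : ℂ) = (l : ℂ) := by push_cast; rfl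
  rw [e2] at hlcC
  refine hO h l hh hl ⟨(c : ℂ) * (β1 / Q) ^ a * ((((τ (g β1))⁻¹ : ℂˣ) : ℂ)) ^ a, ?_, ?_⟩
  · refine mul_mem (mul_mem c.2 (pow_mem ?_ a)) (pow_mem ?_ a)
    · refine mem_of_root hTN ?_
      rw [div_pow, hβ1Q]
      push_cast
      exact div_self (pow_ne_zero _ hQc)
    · refine mem_of_root hN ?_
      rw [← Units.val_pow_eq_pow_val, inv_pow, hτ1, inv_one, Units.val_one]
  · have h1 : ((((τ (g β1))⁻¹ : ℂˣ) : ℂ)) ^ a * (((τ (g β1) : ℂˣ) : ℂ)) ^ a = 1 := by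
      rw [← mul_pow, Units.inv_mul, one_pow]
    linear_combination (-(h : ℂ)) * h1 - ((((τ (g β1))⁻¹ : ℂˣ) : ℂ)) ^ a * hlcC

end Pool.Agent.T2h48.DW
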