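import Pool.Agent.T2h48.DW.Stm

/-!
# Task ASYM
-/

set_option autoImplicit false

namespace Pool.Agent.T2h48.DW

open Filter Topology

namespace As

/-- the means of the powers of `z ≠ 1`, `|z| ≤ 1`, tend to zero -/
theorem mean_pow {z : ℂ} (hz : z ≠ 1) (hz1 : ‖z‖ ≤ 1) :
    Tendsto (fun n : ℕ => ((n : ℝ)⁻¹ : ℝ) • ∑ i ∈ Finset.range n, z ^ i) atTop (𝓝 0) := by
  have h0 : 0 < ‖z - 1‖ := norm_pos_iff.mpr (sub_ne_zero.mpr hz)
  have h1 : Tendsto (fun n : ℕ => (n : ℝ)⁻¹ * (2 / ‖z - 1‖)) atTop (𝓝 0) := by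
    have := (tendsto_inv_atTop_nhds_zero_nat (𝕜 := ℝ)).mul_const (2 / ‖z - 1‖)
    simpa using this
  refine squeeze_zero_norm (fun n => ?_) h1
  rw [norm_smul, norm_inv, Real.norm_natCast, geom_sum_eq hz, norm_div]
  refine mul_le_mul_of_nonneg_left ?_ (by positivity)
  refine div_le_div_of_nonneg_right ?_ h0.le
  have h2 : ‖z ^ n‖ ≤ 1 := by
    rw [norm_pow]
    exact pow_le_one₀ (norm_nonneg _) hz1
  calc ‖z ^ n - 1‖ ≤ ‖z ^ n‖ + ‖(1 : ℂ)‖ := norm_sub_le _ _
    _ ≤ 2 := by rw [norm_one]; linarith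

theorem key {S : Finset ℂ} {a : ℂ → ℂ} {r : ℝ} (hr : 0 < r) (hS : ∀ β ∈ S, ‖β‖ ≤ r)
    (h : Tendsto (fun m : ℕ => ∑ β ∈ S, a β * (β / r) ^ m) atTop (𝓝 0)) :
    ∀ β ∈ S, ‖β‖ = r → a β = 0 := by
  classical
  intro θ hθ hθr
  have hr' : (r : ℂ) ≠ 0 := by exact_mod_cast hr.ne'
  set t : ℂ := θ / r with ht
  have htn : ‖t‖ = 1 := by
    rw [ht, norm_div, hθr, Complex.norm_real, Real.norm_of_nonneg hr.le, div_self hr.ne']
  have ht0 : t ≠ 0 := by
    intro h0
    rw [h0, norm_zero] at htn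
    exact zero_ne_one htn
  -- the rotated sequence
  have h1 : Tendsto (fun m : ℕ => (∑ β ∈ S, a β * (β / r) ^ m) * (t⁻¹) ^ m) atTop (𝓝 0) := by
    rw [tendsto_zero_iff_norm_tendsto_zero] at h ⊢
    refine h.congr fun m => ?_
    rw [norm_mul, norm_pow, norm_inv, htn, inv_one, one_pow, mul_one]
  have h2 := h1.cesaro_smul
  have h3 : Tendsto (fun n : ℕ => ∑ β ∈ S, a β *
      (((n : ℝ)⁻¹ : ℝ) • ∑ i ∈ Finset.range n, (β / r * t⁻¹) ^ i)) atTop
      (𝓝 (∑ β ∈ S, a β * (if β = θ then 1 else 0))) := by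
    refine tendsto_finsetSum _ fun β hβ => ?_
    refine Tendsto.const_mul _ ?_
    by_cases hb : β = θ
    · rw [if_pos hb, hb, ← ht, mul_inv_cancel₀ ht0]
      refine tendsto_const_nhds.congr' ?_
      filter_upwards [eventually_gt_atTop 0] with n hn
      have : (n : ℝ) ≠ 0 := by exact_mod_cast hn.ne'
      simp only [one_pow, Finset.sum_const, Finset.card_range, nsmul_eq_mul, mul_one]
      rw [Complex.real_smul]
      push_cast
      rw [inv_mul_cancel₀ (by exact_mod_cast this)]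
    · rw [if_neg hb]
      refine mean_pow ?_ ?_
      · intro h4
        apply hb
        rw [mul_inv_eq_one₀ ht0, ht, div_left_inj' hr'] at h4
        exact h4
      · rw [norm_mul, norm_inv, htn, inv_one, mul_one, norm_div, Complex.norm_real,
          Real.norm_of_nonneg hr.le, div_le_one hr]
        exact hS β hβ
  have h4 : (fun n : ℕ => ∑ β ∈ S, a β *
      (((n : ℝ)⁻¹ : ℝ) • ∑ i ∈ Finset.range n, (β / r * t⁻¹) ^ i)) =
      fun n : ℕ => ((n : ℝ)⁻¹ : ℝ) • ∑ i ∈ Finset.range n,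
        (∑ β ∈ S, a β * (β / r) ^ i) * (t⁻¹) ^ i := by
    funext n
    simp_rw [Finset.sum_mul]
    rw [Finset.sum_comm, Finset.smul_sum]
    refine Finset.sum_congr rfl fun β _ => ?_
    rw [mul_smul_comm, Finset.mul_sum]
    congr 1
    refine Finset.sum_congr rfl fun i _ => ?_
    rw [mul_pow]
    ring
  rw [h4] at h3
  have h5 := tendsto_nhds_unique h3 h2
  simpa [hθ] using h5

end As

open As

theorem t_ASYM : S_ASYM := by
  classical
  intro S c Q h hS0 hQ hlim
  have hQ' : (Q : ℂ) ≠ 0 := by exact_mod_cast hQ.ne'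
  set S' := S.filter fun β => c β ≠ 0 with hS'
  have hsum : ∀ m : ℕ, (∑ β ∈ S, c β * β ^ m) / (Q : ℂ) ^ m =
      ∑ β ∈ S', c β * (β / Q) ^ m := by
    intro m
    rw [Finset.sum_div, hS', Finset.sum_filter]
    refine Finset.sum_congr rfl fun β _ => ?_
    split_ifs with h1
    · rw [div_pow, mul_div_assoc]
    · rw [not_not] at h1
      rw [h1]
      simp
  simp_rw [hsum] at hlim
  -- all the norms are at most `Q`
  have hle : ∀ β ∈ S', ‖β‖ ≤ Q := by
    by_contra hc
    push Not at hc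
    obtain ⟨β0, hβ0, hβ0'⟩ := hc
    obtain ⟨β1, hβ1, hmax⟩ := S'.exists_max_image (fun β => ‖β‖) ⟨β0, hβ0⟩
    set ρ := ‖β1‖ with hρ
    have hρQ : Q < ρ := hβ0'.trans_le (hmax β0 hβ0)
    have hρ0 : 0 < ρ := hQ.trans hρQ
    have hρ' : (ρ : ℂ) ≠ 0 := by exact_mod_cast hρ0.ne'
    have h1 : Tendsto (fun m : ℕ => ((Q / ρ : ℝ) : ℂ) ^ m) atTop (𝓝 0) := by
      apply tendsto_pow_atTop_nhds_zero_of_norm_lt_one
      rw [Complex.norm_real, Real.norm_of_nonneg (by positivity), div_lt_one hρ0]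
      exact hρQ
    have h2 := hlim.mul h1
    rw [mul_zero] at h2
    have h3 := key (S := S') (a := c) hρ0 hmax (h2.congr fun m => by
      rw [Finset.sum_mul]
      refine Finset.sum_congr rfl fun β _ => ?_
      rw [mul_assoc, ← mul_pow]
      congr 2
      push_cast
      field_simp) β1 hβ1 hρ.symm
    rw [hS', Finset.mem_filter] at hβ1
    exact hβ1.2 h3
  -- the coefficients at the level `Q`
  set a : ℂ → ℂ := fun β => (if β ∈ S then c β else 0) - (if β = (Q : ℂ) then h else 0) with ha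
  have h1 : Tendsto (fun m : ℕ => ∑ β ∈ insert (Q : ℂ) S', a β * (β / Q) ^ m) atTop (𝓝 0) := by
    have h2 := hlim.sub (tendsto_const_nhds (x := h))
    rw [sub_self] at h2
    refine h2.congr fun m => ?_
    simp only [ha, sub_mul]
    rw [Finset.sum_sub_distrib]
    congr 1
    · by_cases hq : (Q : ℂ) ∈ S'
      · rw [Finset.insert_eq_of_mem hq]
        refine Finset.sum_congr rfl fun β hβ => ?_
        rw [if_pos (Finset.mem_filter.mp hβ).1]
      · rw [Finset.sum_insert hq]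
        have h3 : (if (Q : ℂ) ∈ S then c (Q : ℂ) else 0) = 0 := by
          split_ifs with h4
          · by_contra h5
            exact hq (Finset.mem_filter.mpr ⟨h4, h5⟩)
          · rfl
        rw [h3, zero_mul, zero_add]
        refine Finset.sum_congr rfl fun β hβ => ?_
        rw [if_pos (Finset.mem_filter.mp hβ).1]
    · rw [Finset.sum_eq_single (Q : ℂ)]
      · rw [if_pos rfl, div_self hQ', one_pow, mul_one]
      · intro β _ hβ
        rw [if_neg hβ, zero_mul]
      · intro hn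
        exact absurd (Finset.mem_insert_self _ _) hn
  have hQn : ‖(Q : ℂ)‖ = Q := by
    rw [Complex.norm_real, Real.norm_of_nonneg hQ.le]
  have h2 := key (S := insert (Q : ℂ) S') (a := a) hQ (fun β hβ => by
    rw [Finset.mem_insert] at hβ
    rcases hβ with rfl | hβ
    · exact hQn.le
    · exact hle β hβ) h1
  have hQa := h2 (Q : ℂ) (Finset.mem_insert_self _ _) hQn
  refine ⟨fun β hβ hβQ hne => ?_, fun hq => ?_, fun hq => ?_⟩
  · by_contra hc
    have hβ' : β ∈ S' := Finset.mem_filter.mpr ⟨hβ, hc⟩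
    have h3 := h2 β (Finset.mem_insert_of_mem hβ') (le_antisymm (hle β hβ') hβQ)
    simp only [ha, if_pos hβ, if_neg hne, sub_zero] at h3
    exact hc h3
  · simp only [ha, if_pos hq, if_true] at hQa
    exact sub_eq_zero.mp hQa
  · simp only [ha, if_neg hq, if_true, zero_sub, neg_eq_zero] at hQa
    exact hQa

end Pool.Agent.T2h48.DW
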