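import Pool.Agent.T2h48.DW.Stm
import Pool.Agent.N867.AS.Bounds

/-!
# Uniform bounds for the coefficients of the Fredholm determinants
-/

set_option autoImplicit false
set_option linter.unusedSectionVars false

namespace Pool.Agent.T2h48.DW

open Pool.Agent.N867.AS Pool.Agent.N867.AS.Res Pool.Agent.N867.AS.Tr

namespace BoundAux

/-- the size of an index -/
noncomputable def sz {σ : Type} [Fintype σ] {T : Finset σ} {B : ℕ} (x : Unit × Idx T B) : ℕ :=
  ∑ i, (x.2.1 i : ℕ)

theorem entry_le {p : ℕ} [Fact p.Prime] {σ : Type} [Fintype σ] [DecidableEq σ] {Q : ℕ} {r : ℝ}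
    (hQ : 2 ≤ Q) (hr : 0 < r) {G : MvPolynomial σ (PadicAlgCl p)}
    (hG : ∀ v : σ →₀ ℕ, ‖MvPolynomial.coeff v G‖ ≤ r ^ (∑ i, v i)) (T : Finset σ) (B : ℕ)
    (x y : Unit × Idx T B) :
    r ^ sz x * ‖Cmat Q (fun _ : Unit => G) id T B x y‖ ≤ r ^ sz y * r ^ ((Q - 1) * sz y) := by
  have h1 : r ^ sz y * r ^ ((Q - 1) * sz y) = r ^ (Q * sz y) := by
    rw [← pow_add]
    congr 1
    obtain ⟨q, rfl⟩ : ∃ q, Q = q + 1 := ⟨Q - 1, by omega⟩
    rw [Nat.add_sub_cancel]
    ring
  rw [h1]
  unfold Cmat
  rw [if_pos (Subsingleton.elim _ _)]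
  split_ifs with h
  · have h2 : sz x + ∑ i, (Q • toF y.2.1 - toF x.2.1) i = Q * sz y := by
      unfold sz
      rw [← Finset.sum_add_distrib, Finset.mul_sum]
      refine Finset.sum_congr rfl fun i _ => ?_
      have := h i
      simp only [Finsupp.smul_apply, toF_apply, smul_eq_mul, Finsupp.tsub_apply] at this ⊢
      omega
    rw [← h2, pow_add]
    exact mul_le_mul_of_nonneg_left (hG _) (by positivity)
  · rw [norm_zero, mul_zero]
    positivity

end BoundAux

open BoundAux in
theorem t_BOUND : S_BOUND := by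
  intro p _ σ _ _ Q r R hQ hr hr1 hR
  obtain ⟨M, hM⟩ : ∃ M : ℕ, R * r ^ M ≤ 1 := by
    obtain ⟨M, hM⟩ := exists_pow_lt_of_lt_one (show 0 < 1 / R by positivity) hr1
    refine ⟨M, ?_⟩
    have := mul_le_mul_of_nonneg_left hM.le hR.le
    rwa [mul_one_div_cancel hR.ne'] at this
  refine ⟨(max 1 R) ^ ((M + 1) ^ Fintype.card σ), fun G hG T B n => ?_⟩
  have hC : 0 ≤ (max 1 R) ^ ((M + 1) ^ Fintype.card σ) := by positivity
  rw [Minor.coeff_charpolyRev, norm_mul, norm_pow, norm_neg, norm_one, one_pow, one_mul]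
  rw [← le_div_iff₀ (by positivity)]
  refine IsUltrametricDist.norm_sum_le_of_forall_le_of_nonneg (by positivity) fun S hS => ?_
  rw [Finset.mem_powersetCard] at hS
  rw [le_div_iff₀ (by positivity)]
  have h1 := Minor.minor_le (Cmat Q (fun _ : Unit => G) id T B) (fun x => r ^ sz x)
    (fun x => r ^ ((Q - 1) * sz x)) (fun x => by positivity)
    (fun x y => entry_le hQ hr hG T B x y) (fun x => by positivity) S
  refine (mul_le_mul_of_nonneg_right h1 (by positivity)).trans ?_
  rw [← hS.2, ← Finset.prod_const, ← Finset.prod_mul_distrib]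
  have h2 : ∀ x ∈ S, r ^ ((Q - 1) * sz x) * R ≤ if sz x ≤ M then max 1 R else 1 := by
    intro x _
    split_ifs with h
    · calc r ^ ((Q - 1) * sz x) * R ≤ 1 * R :=
            mul_le_mul_of_nonneg_right (pow_le_one₀ hr.le hr1.le) hR.le
        _ = R := one_mul R
        _ ≤ _ := le_max_right _ _
    · refine le_trans ?_ hM
      rw [mul_comm]
      refine mul_le_mul_of_nonneg_left (pow_le_pow_of_le_one hr.le hr1.le ?_) hR.le
      push Not at h
      calc M ≤ 1 * sz x := by omega
        _ ≤ (Q - 1) * sz x := Nat.mul_le_mul_right _ (by omega)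
  refine (Finset.prod_le_prod (fun x _ => by positivity) h2).trans ?_
  rw [Finset.prod_ite, Finset.prod_const_one, mul_one, Finset.prod_const]
  refine pow_le_pow_right₀ (le_max_left _ _) ?_
  have h3 : (S.filter fun x => sz x ≤ M).card ≤
      (Fintype.piFinset fun _ : σ => Finset.range (M + 1)).card := by
    refine Finset.card_le_card_of_injOn (fun x i => (x.2.1 i : ℕ)) ?_ ?_
    · intro x hx
      rw [Finset.mem_coe, Finset.mem_filter] at hx
      rw [Finset.mem_coe, Fintype.mem_piFinset]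
      intro i
      rw [Finset.mem_range]
      have h4 : (x.2.1 i : ℕ) ≤ sz x :=
        Finset.single_le_sum (f := fun i => (x.2.1 i : ℕ)) (fun _ _ => Nat.zero_le _)
          (Finset.mem_univ i)
      exact Nat.lt_succ_of_le (h4.trans hx.2)
    · intro x _ y _ h
      refine Prod.ext (Subsingleton.elim _ _) (Subtype.ext (funext fun i => Fin.ext ?_))
      exact congrFun h i
  rw [Fintype.card_piFinset, Finset.prod_const, Finset.card_univ, Finset.card_range] at h3
  exact h3

end Pool.Agent.T2h48.DW
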