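import Pool.Agent.T2h48.DW.Stm
import Pool.Agent.N867.AS.Bounds

/-!
# The number of points of a hypersurface as a sum over Teichmueller points
-/

set_option autoImplicit false
set_option linter.unusedSectionVars false

namespace Pool.Agent.T2h48.DW

open Pool.Agent.N867.AS Pool.Agent.N867.AS.Res Pool.Agent.N867.AS.Tr

namespace CountAux

open MvPolynomial

variable {p : ℕ} [hp : Fact p.Prime] {σ : Type} [Fintype σ] [DecidableEq σ]

theorem none_eq_one {f : MvPolynomial σ (k p)} {μ : Option σ →₀ ℕ} (hμ : μ ∈ (hx f).support) :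
    μ none = 1 := by
  classical
  rw [mem_support_iff, hx, coeff_X_mul'] at hμ
  by_cases h : none ∈ μ.support
  · rw [if_pos h] at hμ
    obtain ⟨u, hu, -⟩ := coeff_rename_ne_zero _ _ _ hμ
    have h1 : (μ - Finsupp.single none 1 : Option σ →₀ ℕ) none = 0 := by
      rw [← hu]
      exact Finsupp.mapDomain_of_notMem_range _ _ (by simp)
    rw [Finsupp.tsub_apply, Finsupp.single_eq_same] at h1
    have h2 := Finsupp.mem_support_iff.1 h
    omega
  · rw [if_neg h] at hμ
    exact absurd rfl hμ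

theorem eval_hx (f : MvPolynomial σ (k p)) (x : Option σ → k p) :
    eval x (hx f) = x none * eval (fun i => x (some i)) f := by
  rw [hx, map_mul, eval_X, eval_rename]
  rfl

theorem card_FQ {L : ℕ} (hL : L ≠ 0) : (FQ p (p ^ L)).card = p ^ L := by
  have h := sum_red (σ := Unit) (p := p) hL (fun _ => (1 : ℕ))
  rw [Finset.sum_const, Finset.sum_const, smul_eq_mul, smul_eq_mul, mul_one, mul_one,
    Fintype.card_piFinset, Fintype.card_piFinset] at h
  simp only [Finset.univ_unique, Finset.prod_singleton] at h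
  rw [h, card_MU (one_lt_Q hL)]

theorem hpts_eq (f : MvPolynomial σ (k p)) {Q : ℕ} (hQ : 1 < Q) [DecidableEq (k p)] :
    hpts f Q = ((Fintype.piFinset (fun _ : σ => FQ p Q)).filter fun x => eval x f = 0).card := by
  unfold hpts
  rw [Nat.subtype_card]
  intro x
  rw [Finset.mem_filter, Fintype.mem_piFinset]
  simp only [mem_FQ hQ]

theorem fq_pow {L : ℕ} (hL : L ≠ 0) {y : k p} (hy : y ∈ FQ p (p ^ L)) (v : k p)
    (hv : v ^ p ^ L = v) : (y ^ p - y) / v ∈ FQ p (p ^ L) := by
  have hQ := one_lt_Q (p := p) hL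
  rw [mem_FQ hQ] at hy ⊢
  rw [div_pow, hv, sub_pow_char_pow, ← pow_mul, mul_comm p, pow_mul, hy]

/-- the number of `(x₀, y)` -/
theorem inner [DecidableEq (k p)] {L : ℕ} (hL : L ≠ 0) (v : k p) (hv : v ^ p ^ L = v) :
    ∑ x₀ ∈ FQ p (p ^ L), ((FQ p (p ^ L)).filter fun y => y ^ p - y = x₀ * v).card =
      p ^ L + if v = 0 then (p - 1) * p ^ L else 0 := by
  have hQ := one_lt_Q (p := p) hL
  by_cases h0 : v = 0
  · rw [if_pos h0, h0]
    simp only [mul_zero]
    rw [Finset.sum_const, card_FQ hL, smul_eq_mul]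
    have h1 : ((FQ p (p ^ L)).filter fun y => y ^ p - y = 0) = FQ p (p ^ 1) := by
      ext y
      rw [Finset.mem_filter, mem_FQ hQ, mem_FQ (one_lt_Q one_ne_zero), pow_one, sub_eq_zero]
      constructor
      · exact fun h => h.2
      · intro h
        refine ⟨?_, h⟩
        have : ∀ l, y ^ p ^ l = y := by
          intro l
          induction l with
          | zero => simp
          | succ l ih => rw [pow_succ, pow_mul, ih, h]
        exact this L
    rw [h1, card_FQ one_ne_zero, pow_one]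
    have := hp.1.one_lt
    obtain ⟨q, rfl⟩ : ∃ q, p = q + 1 := ⟨p - 1, by omega⟩
    rw [Nat.add_sub_cancel]
    ring
  · rw [if_neg h0, add_zero]
    simp only [Finset.card_filter]
    rw [Finset.sum_comm]
    have h1 : ∀ y ∈ FQ p (p ^ L), (∑ x₀ ∈ FQ p (p ^ L), if y ^ p - y = x₀ * v then 1 else 0) = 1 := by
      intro y hy
      rw [Finset.sum_eq_single ((y ^ p - y) / v)]
      · rw [if_pos (div_mul_cancel₀ _ h0).symm]
      · intro x _ hx
        rw [if_neg]
        intro h
        exact hx (eq_div_of_mul_eq h0 h.symm)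
      · intro h
        exact absurd (fq_pow hL hy v hv) h
    rw [Finset.sum_congr rfl h1, Finset.sum_const, card_FQ hL, smul_eq_mul, mul_one]

theorem sum_option {M : Type*} [AddCommMonoid M] {α : Type} (S : Finset α) (F : (Option σ → α) → M) :
    ∑ x ∈ Fintype.piFinset (fun _ : Option σ => S), F x =
      ∑ y ∈ Fintype.piFinset (fun _ : σ => S), ∑ a ∈ S, F (fun o => o.elim a y) := by
  rw [← Finset.sum_product_right' S (Fintype.piFinset (fun _ : σ => S))
    (fun a y => F (fun o => o.elim a y))]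
  refine Finset.sum_bij' (fun x _ => (x none, fun i => x (some i))) (fun z _ o => o.elim z.1 z.2)
    ?_ ?_ ?_ ?_ ?_
  · intro x hx
    rw [Fintype.mem_piFinset] at hx
    rw [Finset.mem_product, Fintype.mem_piFinset]
    exact ⟨hx none, fun i => hx (some i)⟩
  · intro z hz
    rw [Finset.mem_product, Fintype.mem_piFinset] at hz
    rw [Fintype.mem_piFinset]
    intro o
    cases o with
    | none => exact hz.1
    | some i => exact hz.2 i
  · intro x _
    funext o
    cases o <;> rfl
  · intro z _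
    rfl
  · intro x _
    congr 1
    funext o
    cases o <;> rfl

theorem eval_pow_Q {L : ℕ} (f : MvPolynomial σ (k p)) (hf : ∀ μ, f.coeff μ ^ p ^ L = f.coeff μ)
    (x : σ → k p) (hx : ∀ i, x i ^ p ^ L = x i) : eval x f ^ p ^ L = eval x f := by
  rw [eval_eq', sum_pow_char_pow]
  refine Finset.sum_congr rfl fun μ _ => ?_
  rw [mul_pow, hf, ← Finset.prod_pow]
  congr 1
  refine Finset.prod_congr rfl fun i _ => ?_
  rw [← pow_mul, mul_comm, pow_mul, hx]

theorem npts_hx {L : ℕ} (hL : L ≠ 0) (f : MvPolynomial σ (k p))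
    (hf : ∀ μ, f.coeff μ ^ p ^ L = f.coeff μ) :
    npts (hx f) (p ^ L) = (p ^ L) ^ Fintype.card (Option σ) + (p - 1) * p ^ L * hpts f (p ^ L) := by
  classical
  have hQ := one_lt_Q (p := p) hL
  rw [npts_eq _ hQ, sum_option, hpts_eq f hQ]
  have h1 : ∀ y ∈ Fintype.piFinset (fun _ : σ => FQ p (p ^ L)),
      ∑ a ∈ FQ p (p ^ L), ((FQ p (p ^ L)).filter fun z => z ^ p - z =
        eval (fun o : Option σ => o.elim a y) (hx f)).card =
      p ^ L + if eval y f = 0 then (p - 1) * p ^ L else 0 := by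
    intro y hy
    rw [Fintype.mem_piFinset] at hy
    simp only [eval_hx, Option.elim]
    refine inner hL _ (eval_pow_Q f hf y fun i => (mem_FQ hQ).1 (hy i))
  rw [Finset.sum_congr rfl h1, Finset.sum_add_distrib, Finset.sum_const, ← Finset.sum_filter,
    Finset.sum_const, Fintype.card_piFinset, Finset.prod_const, Finset.card_univ, card_FQ hL,
    Fintype.card_option, smul_eq_mul, smul_eq_mul]
  ring

end CountAux

open CountAux in
theorem t_COUNT : S_COUNT := by
  intro p hp σ _ _ f s D m N γ ζ hs hm hζ hγ0 hγ hγζ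
  classical
  obtain ⟨L, hLdef⟩ : ∃ L, L = s * m := ⟨_, rfl⟩
  have hL : L ≠ 0 := by rw [hLdef]; exact mul_ne_zero hs hm
  have hQ := one_lt_Q (p := p) hL
  have h1 := count_close D hs hm hζ hγ0 hγ hγζ
  rw [← hLdef] at h1 ⊢
  -- the coefficients
  have hcQ : ∀ c : k p, c ^ p ^ s = c → c ^ p ^ L = c := by
    intro c hc
    rw [hLdef, pow_mul p s m]
    have : ∀ r, c ^ (p ^ s) ^ r = c := by
      intro r
      induction r with
      | zero => simp
      | succ r ih => rw [pow_succ, pow_mul, ih, hc]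
    exact this m
  have hf : ∀ μ, f.coeff μ ^ p ^ L = f.coeff μ := by
    intro μ
    have h2 : f.coeff μ = (hx f).coeff (Finsupp.mapDomain some μ + Finsupp.single none 1) := by
      rw [hx, add_comm, MvPolynomial.coeff_X_mul,
        MvPolynomial.coeff_rename_mapDomain _ (Option.some_injective σ)]
    rw [h2, ← D.hred]
    refine hcQ _ ?_
    rw [← red_pow (norm_le_one_of_pow (one_lt_Q hs) (D.hc _)), D.hc]
  rw [npts_hx hL f hf] at h1
  obtain ⟨S, hS⟩ : ∃ S, S = ∑ x ∈ Fintype.piFinset (fun _ : Option σ => MU p (p ^ L)),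
      ∏ μ ∈ (hx f).support, ∏ j ∈ Finset.range L,
        (Split.Theta p N γ).eval ((D.c μ * ∏ i, x i ^ μ i) ^ p ^ j) := ⟨_, rfl⟩
  rw [← hS]
  have h2 : ∀ a : Fin (p - 1), ∑ x ∈ Fintype.piFinset (fun _ : Option σ => MU p (p ^ L)),
      ∏ μ ∈ (hx f).support, ∏ j ∈ Finset.range L,
        (Split.Theta p N γ).eval ((D.a a * D.c μ * ∏ i, x i ^ μ i) ^ p ^ j) = S := by
    intro a
    have ha0 : D.a a ≠ 0 := by
      intro h0
      have h3 := D.hared a
      rw [h0, red_zero, eq_comm, CharP.cast_eq_zero_iff (k p) p] at h3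
      have h4 := Nat.le_of_dvd (Nat.succ_pos _) h3
      have := a.2
      omega
    have haQ : D.a a ^ p ^ L = D.a a := by
      have : ∀ r, D.a a ^ p ^ r = D.a a := by
        intro r
        induction r with
        | zero => simp
        | succ r ih => rw [pow_succ, pow_mul, ih, D.ha]
      exact this L
    rw [hS, sum_option, sum_option]
    refine Finset.sum_congr rfl fun y _ => ?_
    refine Finset.sum_bij' (fun z _ => D.a a * z) (fun z _ => (D.a a)⁻¹ * z) ?_ ?_ ?_ ?_ ?_
    · intro z hz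
      rw [mem_MU hQ] at hz ⊢
      rw [mul_pow, haQ, hz]
    · intro z hz
      rw [mem_MU hQ] at hz ⊢
      rw [mul_pow, inv_pow, haQ, hz]
    · intro z _
      rw [inv_mul_cancel_left₀ ha0]
    · intro z _
      rw [mul_inv_cancel_left₀ ha0]
    · intro z _
      refine Finset.prod_congr rfl fun μ hμ => Finset.prod_congr rfl fun j _ => ?_
      congr 2
      rw [Fintype.prod_option, Fintype.prod_option, none_eq_one hμ]
      simp only [Option.elim]
      ring
  rw [Finset.sum_congr rfl fun a _ => h2 a, Finset.sum_const, Finset.card_univ, Fintype.card_fin]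
    at h1
  have hp1 : 1 ≤ p := hp.1.one_lt.le
  have h3 : (((p ^ L) ^ Fintype.card (Option σ) + (p - 1) * p ^ L * hpts f (p ^ L) : ℕ) :
      PadicAlgCl p) - ((p ^ L : ℕ) : PadicAlgCl p) ^ Fintype.card (Option σ) - (p - 1) • S =
      ((p - 1 : ℕ) : PadicAlgCl p) * (((p ^ L : ℕ) : PadicAlgCl p) *
        (hpts f (p ^ L) : PadicAlgCl p) - S) := by
    rw [nsmul_eq_mul]
    push_cast
    ring
  rw [h3, norm_mul] at h1
  have h4 : ‖((p - 1 : ℕ) : PadicAlgCl p)‖ = 1 := by
    have h5 : ((p - 1 : ℕ) : PadicAlgCl p) = p - 1 := by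
      rw [Nat.cast_sub hp1, Nat.cast_one]
    rw [h5, sub_eq_add_neg]
    have h6 : ‖(p : PadicAlgCl p)‖ < ‖(-1 : PadicAlgCl p)‖ := by
      rw [norm_neg, norm_one]
      exact norm_p_lt p
    rw [IsUltrametricDist.norm_add_eq_max_of_norm_ne_norm h6.ne, max_eq_right h6.le, norm_neg,
      norm_one]
  rwa [h4, one_mul] at h1

end Pool.Agent.T2h48.DW
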