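import Pool.Agent.T2h48.DW.T_SPLIT

/-!
# Task DIR: `t_DIR` is proved in `T_SPLIT.lean`
-/
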