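import Pool.Agent.T2h48.DW.Stm

set_option autoImplicit false

namespace Pool.Agent.T2h48.DW

/-- the indicator function of a quantifier-free formula is an integer combination of indicator
functions of hypersurfaces -/
theorem indicator_formula {F : Type} [Field F] {n : ℕ} (φ : QF F n) :
    ∃ L : List (ℤ × MvPolynomial (Fin n) F), ∀ (K : Type) [Field K] [Algebra F K] (x : Fin n → K),
      open Classical in (if φ.Holds x then (1 : ℤ) else 0) =
        (L.map fun a => a.1 * (if MvPolynomial.aeval x a.2 = 0 then (1 : ℤ) else 0)).sum := by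
  classical
  induction φ with
  | eq f =>
    refine ⟨[(1, f)], fun K _ _ x => ?_⟩
    simp only [List.map_cons, List.map_nil, List.sum_cons, List.sum_nil, one_mul, add_zero]
    rfl
  | neg φ ih =>
    obtain ⟨L, hL⟩ := ih
    refine ⟨(1, 0) :: L.map fun a => (-a.1, a.2), fun K _ _ x => ?_⟩
    have h1 := hL K x
    rw [List.map_cons, List.sum_cons, List.map_map]
    have h2 : ((fun a : ℤ × MvPolynomial (Fin n) F => a.1 * (if MvPolynomial.aeval x a.2 = 0 then (1 : ℤ) else 0)) ∘
        fun a : ℤ × MvPolynomial (Fin n) F => (-a.1, a.2)) = fun a => -(a.1 * (if MvPolynomial.aeval x a.2 = 0 then (1 : ℤ) else 0)) := by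
      funext a
      simp only [Function.comp_apply, neg_mul]
    have h3 : ∀ (g : ℤ × MvPolynomial (Fin n) F → ℤ) (M : List (ℤ × MvPolynomial (Fin n) F)),
        (M.map fun a => -(g a)).sum = -(M.map g).sum := by
      intro g M
      induction M with
      | nil => simp
      | cons a M ih =>
        rw [List.map_cons, List.sum_cons, List.map_cons, List.sum_cons, ih]
        ring
    rw [h2, h3, ← h1]
    simp only [map_zero, if_true, mul_one]
    by_cases hφ : φ.Holds x
    · rw [if_pos hφ, if_neg (show ¬ (QF.neg φ).Holds x from fun h => h hφ)]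
      ring
    · rw [if_neg hφ, if_pos (show (QF.neg φ).Holds x from hφ)]
      ring
  | and φ ψ ih1 ih2 =>
    obtain ⟨L, hL⟩ := ih1
    obtain ⟨M, hM⟩ := ih2
    refine ⟨L.flatMap fun a => M.flatMap fun b =>
      [(a.1 * b.1, a.2), (a.1 * b.1, b.2), (-(a.1 * b.1), a.2 * b.2)], fun K _ _ x => ?_⟩
    have h1 := hL K x
    have h2 := hM K x
    have h3 : (if (QF.and φ ψ).Holds x then (1 : ℤ) else 0) =
        (if φ.Holds x then (1 : ℤ) else 0) * (if ψ.Holds x then (1 : ℤ) else 0) := by
      by_cases ha : φ.Holds x
      · by_cases hb : ψ.Holds x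
        · rw [if_pos ha, if_pos hb, if_pos (show (QF.and φ ψ).Holds x from ⟨ha, hb⟩), mul_one]
        · rw [if_neg hb, if_neg (show ¬ (QF.and φ ψ).Holds x from fun h => hb h.2), mul_zero]
      · rw [if_neg ha, if_neg (show ¬ (QF.and φ ψ).Holds x from fun h => ha h.1), zero_mul]
    rw [h3, h1, h2]
    clear h1 h2 h3 hL hM
    induction L with
    | nil => simp
    | cons a L ihL =>
      rw [List.map_cons, List.sum_cons, add_mul, ihL, List.flatMap_cons, List.map_append,
        List.sum_append]
      congr 1
      clear ihL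
      induction M with
      | nil => simp
      | cons b M ihM =>
        rw [List.map_cons, List.sum_cons, mul_add, ihM, List.flatMap_cons, List.map_append,
          List.sum_append]
        congr 1
        simp only [List.map_cons, List.map_nil, List.sum_cons, List.sum_nil, map_mul, mul_eq_zero]
        by_cases ha : MvPolynomial.aeval x a.2 = 0
        · by_cases hb : MvPolynomial.aeval x b.2 = 0
          · simp [ha, hb]
          · simp [ha, hb]
        · by_cases hb : MvPolynomial.aeval x b.2 = 0
          · simp [ha, hb]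
          · simp [ha, hb]

theorem t_DWORK (hH : S_HYP) (hF : S_FIELD) (hR : S_RING) : S_DWORK := by
  classical
  intro F _ _ n φ
  -- hypersurfaces
  have hyp : ∀ f : MvPolynomial (Fin n) F, ∃ W : ℕ → ℤ, IsExpSum W ∧
      ∀ (K : Type) [Field K] [Algebra F K] (m : ℕ), 1 ≤ m → Module.finrank F K = m →
        (Nat.card {x : Fin n → K // MvPolynomial.aeval x f = 0} : ℤ) = W m := by
    intro f
    obtain ⟨p, hp, s, f', hs, hf', h⟩ := hF F n f
    exact ⟨_, hH p n f' s hs hf', fun K _ _ m hm hK => by rw [h K m hm hK]⟩
  choose W hW1 hW2 using hyp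
  obtain ⟨L, hL⟩ := indicator_formula φ
  refine ⟨fun m => (L.map fun a => a.1 * W a.2 m).sum, ?_, ?_⟩
  · clear hL
    induction L with
    | nil =>
      simp only [List.map_nil, List.sum_nil]
      exact hR.1 0
    | cons a L ih =>
      simp only [List.map_cons, List.sum_cons]
      exact hR.2.1 _ _ (hR.2.2 _ _ (hR.1 a.1) (hW1 a.2)) ih
  · intro K _ _ m hm hK
    have hfd : FiniteDimensional F K := Module.finite_of_finrank_pos (by omega)
    have hfin : Finite K := Module.finite_of_finite F
    let _ : Fintype (Fin n → K) := Fintype.ofFinite _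
    have h1 : ∀ P : (Fin n → K) → Prop, (Nat.card {x : Fin n → K // P x} : ℤ) =
        ∑ x : Fin n → K, if P x then (1 : ℤ) else 0 := by
      intro P
      rw [Nat.card_eq_fintype_card, Fintype.card_subtype, Finset.card_filter]
      push_cast
      rfl
    rw [h1]
    have h2 : ∑ x : Fin n → K, (if φ.Holds x then (1 : ℤ) else 0) =
        ∑ x : Fin n → K, (L.map fun a => a.1 * (if MvPolynomial.aeval x a.2 = 0 then (1 : ℤ) else 0)).sum :=
      Finset.sum_congr rfl fun x _ => hL K x
    rw [h2]
    clear h2 hL
    induction L with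
    | nil => simp
    | cons a L ih =>
      simp only [List.map_cons, List.sum_cons, Finset.sum_add_distrib]
      rw [ih, ← Finset.mul_sum, ← hW2 a.2 K m hm hK, h1]

end Pool.Agent.T2h48.DW
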