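import Pool.Agent.T2h48.DW.Stm

set_option autoImplicit false

namespace Pool.Agent.T2h48.DW

namespace Fct

variable {L : Type*} [NormedField L] [IsUltrametricDist L]

open Polynomial

/-- The norm of the quotient by `1 - a X`. -/
theorem quot_le (F : Polynomial L) (a : L) (ρ M : ℝ) (hρ : 0 < ρ)
    (h : ∀ n, ‖(F * (1 - C a * X)).coeff n‖ * ρ ^ n ≤ M) (n : ℕ) :
    ‖F.coeff n‖ * ρ ^ n ≤ M / max 1 (‖a‖ * ρ) := by
  have hM : 0 ≤ M := le_trans (mul_nonneg (norm_nonneg _) (pow_nonneg hρ.le 0)) (h 0)
  have hc0 : (F * (1 - C a * X)).coeff 0 = F.coeff 0 := by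
    simp [mul_sub, ← mul_assoc]
  have hc : ∀ n, (F * (1 - C a * X)).coeff (n + 1) = F.coeff (n + 1) - a * F.coeff n := by
    intro n
    rw [mul_sub, mul_one, ← mul_assoc, coeff_sub, coeff_mul_X, coeff_mul_C, mul_comm]
  rcases le_total (‖a‖ * ρ) 1 with h1 | h1
  · rw [max_eq_left h1, div_one]
    induction n with
    | zero => rw [← hc0]; exact h 0
    | succ n ih =>
      have e : F.coeff (n + 1) = (F * (1 - C a * X)).coeff (n + 1) + a * F.coeff n := by
        rw [hc n]; ring
      rw [e]
      calc ‖(F * (1 - C a * X)).coeff (n + 1) + a * F.coeff n‖ * ρ ^ (n + 1)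
          ≤ max ‖(F * (1 - C a * X)).coeff (n + 1)‖ ‖a * F.coeff n‖ * ρ ^ (n + 1) :=
            mul_le_mul_of_nonneg_right (IsUltrametricDist.norm_add_le_max _ _) (by positivity)
        _ = max (‖(F * (1 - C a * X)).coeff (n + 1)‖ * ρ ^ (n + 1)) (‖a * F.coeff n‖ * ρ ^ (n + 1)) :=
            max_mul_of_nonneg _ _ (by positivity)
        _ ≤ M := by
            refine max_le (h (n + 1)) ?_
            rw [norm_mul, pow_succ]
            calc ‖a‖ * ‖F.coeff n‖ * (ρ ^ n * ρ) = (‖a‖ * ρ) * (‖F.coeff n‖ * ρ ^ n) := by ring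
              _ ≤ 1 * M := mul_le_mul h1 ih (by positivity) zero_le_one
              _ = M := one_mul M
  · rw [max_eq_right h1]
    have ha : 0 < ‖a‖ * ρ := lt_of_lt_of_le one_pos h1
    rw [le_div_iff₀ ha]
    have key : ∀ j n, F.natDegree < n + j → ‖F.coeff n‖ * ρ ^ n * (‖a‖ * ρ) ≤ M := by
      intro j
      induction j with
      | zero =>
        intro n hn
        rw [coeff_eq_zero_of_natDegree_lt (by simpa using hn)]
        simpa using hM
      | succ j ih =>
        intro n hn
        have h2 := ih (n + 1) (by omega)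
        have e : a * F.coeff n = F.coeff (n + 1) - (F * (1 - C a * X)).coeff (n + 1) := by
          rw [hc n]; ring
        have e2 : ‖F.coeff n‖ * ρ ^ n * (‖a‖ * ρ) = ‖a * F.coeff n‖ * ρ ^ (n + 1) := by
          rw [norm_mul, pow_succ]; ring
        rw [e2, e]
        have e3 : ‖F.coeff (n + 1) - (F * (1 - C a * X)).coeff (n + 1)‖ ≤
            max ‖F.coeff (n + 1)‖ ‖(F * (1 - C a * X)).coeff (n + 1)‖ := by
          have e4 := IsUltrametricDist.norm_add_le_max (F.coeff (n + 1)) (-(F * (1 - C a * X)).coeff (n + 1))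
          rw [norm_neg, ← sub_eq_add_neg] at e4
          exact e4
        calc ‖F.coeff (n + 1) - (F * (1 - C a * X)).coeff (n + 1)‖ * ρ ^ (n + 1)
            ≤ max ‖F.coeff (n + 1)‖ ‖(F * (1 - C a * X)).coeff (n + 1)‖ * ρ ^ (n + 1) :=
              mul_le_mul_of_nonneg_right e3 (by positivity)
          _ = max (‖F.coeff (n + 1)‖ * ρ ^ (n + 1))
              (‖(F * (1 - C a * X)).coeff (n + 1)‖ * ρ ^ (n + 1)) :=
              max_mul_of_nonneg _ _ (by positivity)
          _ ≤ M := by
              refine max_le ?_ (h (n + 1))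
              calc ‖F.coeff (n + 1)‖ * ρ ^ (n + 1) = ‖F.coeff (n + 1)‖ * ρ ^ (n + 1) * 1 := by ring
                _ ≤ ‖F.coeff (n + 1)‖ * ρ ^ (n + 1) * (‖a‖ * ρ) :=
                  mul_le_mul_of_nonneg_left h1 (by positivity)
                _ ≤ M := h2
    exact key (F.natDegree + 1) n (by omega)

/-- The norm of the quotient by a product of factors `1 - a X`. -/
theorem quot_prod_le (s : Multiset L) (F : Polynomial L) (ρ M : ℝ) (hρ : 0 < ρ)
    (h : ∀ n, ‖(F * (s.map fun a => 1 - C a * X).prod).coeff n‖ * ρ ^ n ≤ M) (n : ℕ) :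
    ‖F.coeff n‖ * ρ ^ n * (s.map fun a => max 1 (‖a‖ * ρ)).prod ≤ M := by
  induction s using Multiset.induction_on generalizing M n with
  | empty => simpa using h n
  | cons a s ih =>
    simp only [Multiset.map_cons, Multiset.prod_cons] at h ⊢
    have ha : 0 < max 1 (‖a‖ * ρ) := lt_of_lt_of_le one_pos (le_max_left _ _)
    have h1 : ∀ n, ‖(F * (s.map fun a => 1 - C a * X).prod).coeff n‖ * ρ ^ n ≤
        M / max 1 (‖a‖ * ρ) := by
      refine quot_le _ a ρ M hρ fun n => ?_
      have : F * (s.map fun a => 1 - C a * X).prod * (1 - C a * X) =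
          F * ((1 - C a * X) * (s.map fun a => 1 - C a * X).prod) := by ring
      rw [this]
      exact h n
    have h2 := ih (M / max 1 (‖a‖ * ρ)) h1 n
    rw [le_div_iff₀ ha] at h2
    calc _ = ‖F.coeff n‖ * ρ ^ n * (s.map fun a => max 1 (‖a‖ * ρ)).prod * max 1 (‖a‖ * ρ) := by ring
      _ ≤ M := h2

/-- power series of norm at most one on the disc of radius `ρ` -/
def Le1 (ρ : ℝ) (U : PowerSeries L) : Prop := ∀ n, ‖PowerSeries.coeff n U‖ * ρ ^ n ≤ 1

theorem Le1.mul {ρ : ℝ} (hρ : 0 < ρ) {U V : PowerSeries L} (hU : Le1 ρ U) (hV : Le1 ρ V) :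
    Le1 ρ (U * V) := by
  intro n
  rw [PowerSeries.coeff_mul, ← le_div_iff₀ (by positivity)]
  refine IsUltrametricDist.norm_sum_le_of_forall_le_of_nonneg (by positivity) fun x hx => ?_
  rw [le_div_iff₀ (by positivity), norm_mul]
  have hx' : x.1 + x.2 = n := Finset.HasAntidiagonal.mem_antidiagonal.1 hx
  rw [← hx', pow_add]
  calc ‖PowerSeries.coeff x.1 U‖ * ‖PowerSeries.coeff x.2 V‖ * (ρ ^ x.1 * ρ ^ x.2) =
      (‖PowerSeries.coeff x.1 U‖ * ρ ^ x.1) * (‖PowerSeries.coeff x.2 V‖ * ρ ^ x.2) := by ring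
    _ ≤ 1 * 1 := mul_le_mul (hU _) (hV _) (by positivity) zero_le_one
    _ = 1 := one_mul 1

theorem exists_inv (s : Multiset L) (ρ : ℝ) (hρ : 0 < ρ) (h : ∀ a ∈ s, ‖a‖ * ρ ≤ 1) :
    ∃ U : PowerSeries L, Le1 ρ U ∧
      (((s.map fun a => 1 - C a * X).prod : Polynomial L) : PowerSeries L) * U = 1 := by
  induction s using Multiset.induction_on with
  | empty =>
    refine ⟨1, fun n => ?_, by simp⟩
    rw [PowerSeries.coeff_one]
    split_ifs with hn
    · simp [hn]
    · simp
  | cons a s ih =>
    obtain ⟨U, hU, hU1⟩ := ih fun b hb => h b (Multiset.mem_cons_of_mem hb)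
    refine ⟨PowerSeries.mk (fun n => a ^ n) * U, Le1.mul hρ (fun n => ?_) hU, ?_⟩
    · rw [PowerSeries.coeff_mk, norm_pow, ← mul_pow]
      exact pow_le_one₀ (by positivity) (h a (Multiset.mem_cons_self a s))
    · have h3 : ((1 - C a * X : Polynomial L) : PowerSeries L) * PowerSeries.mk (fun n => a ^ n) = 1 := by
        ext n
        simp only [coe_sub, coe_one, coe_mul, coe_C, coe_X, sub_mul, one_mul, map_sub,
          PowerSeries.coeff_mk, mul_assoc, PowerSeries.coeff_C_mul]
        cases n with
        | zero => simp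
        | succ n =>
          rw [PowerSeries.coeff_succ_X_mul, PowerSeries.coeff_mk, PowerSeries.coeff_one,
            if_neg (Nat.succ_ne_zero n), pow_succ]
          ring
      rw [Multiset.map_cons, Multiset.prod_cons, coe_mul]
      calc _ = (((1 - C a * X : Polynomial L) : PowerSeries L) * PowerSeries.mk (fun n => a ^ n)) *
          ((((s.map fun a => 1 - C a * X).prod : Polynomial L) : PowerSeries L) * U) := by ring
        _ = 1 := by rw [h3, hU1, one_mul]

omit [IsUltrametricDist L] in
theorem prod_natDegree (s : Multiset L) :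
    ((s.map fun a => 1 - C a * X).prod : Polynomial L).natDegree ≤ s.card := by
  induction s using Multiset.induction_on with
  | empty => simp
  | cons a s ih =>
    rw [Multiset.map_cons, Multiset.prod_cons, Multiset.card_cons]
    refine natDegree_mul_le.trans ?_
    have : (1 - C a * X : Polynomial L).natDegree ≤ 1 := by
      compute_degree
    omega

omit [IsUltrametricDist L] in
theorem prod_coeff_zero (s : Multiset L) :
    ((s.map fun a => 1 - C a * X).prod : Polynomial L).coeff 0 = 1 := by
  induction s using Multiset.induction_on with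
  | empty => simp
  | cons a s ih =>
    rw [Multiset.map_cons, Multiset.prod_cons, mul_coeff_zero, ih]
    simp

omit [IsUltrametricDist L] in
theorem exists_roots [IsAlgClosed L] (B : Polynomial L) (h0 : B.coeff 0 = 1) :
    ∃ s : Multiset L, B = (s.map fun a => 1 - C a * X).prod := by
  have hB : B ≠ 0 := by
    rintro rfl
    simp at h0
  have h1 := (IsAlgClosed.splits B).eq_prod_roots
  have h2 : ∀ a ∈ B.roots, a ≠ 0 := by
    intro a ha h
    rw [mem_roots hB, h, IsRoot, ← coeff_zero_eq_eval_zero, h0] at ha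
    exact one_ne_zero ha
  have h3 : ∀ t : Multiset L, (∀ a ∈ t, a ≠ 0) → ∃ c : L,
      (t.map fun a => X - C a).prod = C c * ((t.map fun a => a⁻¹).map fun a => 1 - C a * X).prod := by
    intro t
    induction t using Multiset.induction_on with
    | empty => intro _; exact ⟨1, by simp⟩
    | cons a t ih =>
      intro ht
      obtain ⟨c, hc⟩ := ih fun b hb => ht b (Multiset.mem_cons_of_mem hb)
      have ha : a ≠ 0 := ht a (Multiset.mem_cons_self a t)
      refine ⟨-a * c, ?_⟩
      rw [Multiset.map_cons, Multiset.prod_cons, hc, Multiset.map_cons, Multiset.map_cons,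
        Multiset.prod_cons]
      have h4 : (X - C a : Polynomial L) = C (-a) * (1 - C a⁻¹ * X) := by
        rw [mul_sub, mul_one, ← mul_assoc, ← C_mul, C_neg]
        have : (-a * a⁻¹ : L) = -1 := by field_simp
        rw [this, C_neg, C_1]
        ring
      rw [h4, C_mul]
      ring
  obtain ⟨c, hc⟩ := h3 B.roots h2
  refine ⟨B.roots.map fun a => a⁻¹, ?_⟩
  have h5 : B = C (B.leadingCoeff * c) *
      ((B.roots.map fun a => a⁻¹).map fun a => 1 - C a * X).prod := by
    conv_lhs => rw [h1]
    rw [hc, C_mul]; ring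
  have h6 : B.leadingCoeff * c = 1 := by
    have h7 : B.coeff 0 = (C (B.leadingCoeff * c) *
      ((B.roots.map fun a => a⁻¹).map fun a => 1 - C a * X).prod).coeff 0 := by rw [← h5]
    rw [coeff_C_mul, prod_coeff_zero, h0, mul_one] at h7
    exact h7.symm
  rw [h6, C_1, one_mul] at h5
  exact h5

end Fct

theorem t_FACT : S_FACT := by
  classical
  intro p _ R C hR
  obtain ⟨e, he⟩ := pow_unbounded_of_one_lt C (one_lt_two (α := ℝ))
  refine ⟨e, fun B h0 h => ?_⟩
  obtain ⟨s, hs⟩ := Fct.exists_roots B h0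
  set s1 := s.filter fun a => 1 < ‖a‖ * R with hs1
  set s2 := s.filter fun a => ¬ 1 < ‖a‖ * R with hs2
  have h12 : s = s1 + s2 := (Multiset.filter_add_not _ s).symm
  obtain ⟨U, hU, hU1⟩ := Fct.exists_inv s2 R hR fun a ha => not_lt.1 (Multiset.mem_filter.1 ha).2
  have hcard : s1.card ≤ e := by
    have h3 := Fct.quot_prod_le s 1 (2 * R) C (by positivity) (by
      intro n
      rw [one_mul, ← hs]
      exact h n) 0
    rw [Polynomial.coeff_one_zero, norm_one, pow_zero, one_mul, one_mul] at h3
    have h4 : (2 : ℝ) ^ s1.card ≤ (s.map fun a => max 1 (‖a‖ * (2 * R))).prod := by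
      rw [h12, Multiset.map_add, Multiset.prod_add]
      have h5 : (1 : ℝ) ≤ (s2.map fun a => max 1 (‖a‖ * (2 * R))).prod := by
        have h9 : ∀ t : Multiset (PadicAlgCl p),
            1 ≤ (t.map fun a => max 1 (‖a‖ * (2 * R))).prod := by
          intro t
          induction t using Multiset.induction_on with
          | empty => simp
          | cons a t ih =>
            rw [Multiset.map_cons, Multiset.prod_cons]
            exact one_le_mul_of_one_le_of_one_le (le_max_left _ _) ih
        exact h9 s2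
      have h6 : (2 : ℝ) ^ s1.card ≤ (s1.map fun a => max 1 (‖a‖ * (2 * R))).prod := by
        have h8 : ∀ t : Multiset (PadicAlgCl p), (∀ a ∈ t, 1 < ‖a‖ * R) →
            (2 : ℝ) ^ t.card ≤ (t.map fun a => max 1 (‖a‖ * (2 * R))).prod := by
          intro t
          induction t using Multiset.induction_on with
          | empty => simp
          | cons a t ih =>
            intro ht
            rw [Multiset.card_cons, Multiset.map_cons, Multiset.prod_cons, pow_succ, mul_comm]
            refine mul_le_mul ?_ (ih fun b hb => ht b (Multiset.mem_cons_of_mem hb)) (by positivity)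
              (by positivity)
            refine le_trans ?_ (le_max_right _ _)
            have := ht a (Multiset.mem_cons_self a t)
            linarith
        exact h8 s1 fun a ha => (Multiset.mem_filter.1 ha).2
      calc (2 : ℝ) ^ s1.card = 2 ^ s1.card * 1 := (mul_one _).symm
        _ ≤ _ := mul_le_mul h6 h5 zero_le_one (le_trans (by positivity) h6)
    have h7 : (2 : ℝ) ^ s1.card < 2 ^ e := lt_of_le_of_lt (h4.trans h3) he
    exact ((pow_lt_pow_iff_right₀ (one_lt_two (α := ℝ))).1 h7).le
  refine ⟨(s1.map fun a => 1 - Polynomial.C a * Polynomial.X).prod, U, Fct.prod_coeff_zero s1,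
    (Fct.prod_natDegree s1).trans hcard, ?_, hU⟩
  rw [hs]
  conv_lhs => rw [h12]
  rw [Multiset.map_add, Multiset.prod_add, Polynomial.coe_mul, mul_assoc, hU1, mul_one]

end Pool.Agent.T2h48.DW
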