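import Pool.Agent.T2h48.DW.Stm

/-!
# Task GAUSS
-/

set_option autoImplicit false
set_option linter.unusedSectionVars false

namespace Pool.Agent.T2h48.DW

open Polynomial

namespace Gs

variable {R : Type} [CommRing R] [IsDomain R] [ValuationRing R]

/-- some coefficient is a unit -/
def Prim (p : R[X]) : Prop := ∃ i, IsUnit (p.coeff i)

theorem prim_iff (p : R[X]) : Prim p ↔ p.map (IsLocalRing.residue R) ≠ 0 := by
  rw [Ne, Polynomial.ext_iff, not_forall]
  refine exists_congr fun i => ?_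
  rw [coeff_map, coeff_zero, IsLocalRing.residue_eq_zero_iff, IsLocalRing.notMem_maximalIdeal]

theorem prim_mul {p q : R[X]} (hp : Prim p) (hq : Prim q) : Prim (p * q) := by
  rw [prim_iff] at hp hq ⊢
  rw [Polynomial.map_mul]
  exact mul_ne_zero hp hq

theorem exists_min (s : Finset ℕ) (hs : s.Nonempty) (c : ℕ → R) : ∃ i ∈ s, ∀ j ∈ s, c i ∣ c j := by
  induction hs using Finset.Nonempty.cons_induction with
  | singleton a => exact ⟨a, by simp, by simp⟩
  | cons a s ha hs ih =>
    obtain ⟨i, hi, h⟩ := ih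
    rcases ValuationRing.dvd_total (c i) (c a) with h1 | h1
    · refine ⟨i, Finset.mem_cons_of_mem hi, fun j hj => ?_⟩
      rw [Finset.mem_cons] at hj
      rcases hj with rfl | hj
      · exact h1
      · exact h j hj
    · refine ⟨a, Finset.mem_cons_self a s, fun j hj => ?_⟩
      rw [Finset.mem_cons] at hj
      rcases hj with rfl | hj
      · exact dvd_rfl
      · exact h1.trans (h j hj)

theorem content {p : R[X]} (hp : p ≠ 0) : ∃ (c : R) (p' : R[X]), c ≠ 0 ∧ Prim p' ∧ p = C c * p' := by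
  obtain ⟨i, hi, h⟩ := exists_min p.support (by rwa [Polynomial.nonempty_support_iff]) p.coeff
  have hc : p.coeff i ≠ 0 := by rwa [mem_support_iff] at hi
  have hd : C (p.coeff i) ∣ p := by
    rw [C_dvd_iff_dvd_coeff]
    intro j
    by_cases hj : j ∈ p.support
    · exact h j hj
    · rw [notMem_support_iff] at hj
      rw [hj]
      exact dvd_zero _
  obtain ⟨p', hp'⟩ := hd
  refine ⟨p.coeff i, p', hc, ⟨i, ?_⟩, hp'⟩
  have h1 : p.coeff i = p.coeff i * p'.coeff i := by
    conv_lhs => rw [hp', coeff_C_mul]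
  have h2 : p'.coeff i = 1 := mul_left_cancel₀ hc (by rw [← h1, mul_one])
  rw [h2]
  exact isUnit_one

theorem dvd_const {l c : R} {p : R[X]} (hp : Prim p) (h : C l ∣ C c * p) : l ∣ c := by
  obtain ⟨i, hi⟩ := hp
  rw [C_dvd_iff_dvd_coeff] at h
  have h1 := h i
  rw [coeff_C_mul] at h1
  exact (hi.dvd_mul_right).mp h1

theorem dvd_cancel {l : R} {p q : R[X]} (hp : Prim p) (h : C l ∣ p * q) : C l ∣ q := by
  by_cases hq : q = 0
  · rw [hq]; exact dvd_zero _
  · obtain ⟨c, q', _, hq', rfl⟩ := content hq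
    have h1 : C l ∣ C c * (p * q') := by
      have e : C c * (p * q') = p * (C c * q') := by ring
      rw [e]
      exact h
    have h2 := dvd_const (prim_mul hp hq') h1
    exact Dvd.dvd.mul_right (map_dvd C h2) q'

/-- divisibility by `V` over the fraction field -/
theorem dvd_frac {l : R} {n : ℕ} {V I : R[X]} (hV : V ≠ 0)
    (h : X ^ n * I * (I - V) = C l * (V - X ^ n) * V ^ 2) :
    ∃ y : (FractionRing R)[X], y * V.map (algebraMap R (FractionRing R)) =
      X ^ n * I.map (algebraMap R (FractionRing R)) := by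
  set F := FractionRing R
  set φ := algebraMap R F
  have hinj : Function.Injective φ := IsFractionRing.injective R F
  set K := FractionRing F[X]
  have hψ : Function.Injective (algebraMap F[X] K) := IsFractionRing.injective F[X] K
  set V1 := V.map φ with hV1
  set I1 := I.map φ with hI1
  have hV1' : V1 ≠ 0 := by
    rw [hV1, Ne, Polynomial.map_eq_zero_iff hinj]
    exact hV
  have h1 : X ^ n * I1 * (I1 - V1) = C (φ l) * (V1 - X ^ n) * V1 ^ 2 := by
    have := congrArg (Polynomial.map φ) h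
    simpa using this
  set ψ := algebraMap F[X] K
  have hv : ψ V1 ≠ 0 := by
    rw [Ne, map_eq_zero_iff _ hψ]
    exact hV1'
  set H : K := ψ (X ^ n * I1) / ψ V1 with hH
  have hHV : H * ψ V1 = ψ (X ^ n * I1) := div_mul_cancel₀ _ hv
  have h2 : H ^ 2 - ψ (X ^ n) * H - ψ (C (φ l) * X ^ n * (V1 - X ^ n)) = 0 := by
    apply mul_left_cancel₀ (pow_ne_zero 2 hv)
    have h3 : ψ ((X ^ n * I1) ^ 2 - X ^ n * (X ^ n * I1) * V1 -
        C (φ l) * X ^ n * (V1 - X ^ n) * V1 ^ 2) = 0 := by
      rw [map_eq_zero_iff _ hψ]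
      linear_combination (X ^ n) * h1
    have e1 : ψ ((X ^ n * I1) ^ 2 - X ^ n * (X ^ n * I1) * V1 -
        C (φ l) * X ^ n * (V1 - X ^ n) * V1 ^ 2) = ψ (X ^ n * I1) ^ 2 -
        ψ (X ^ n) * ψ (X ^ n * I1) * ψ V1 - ψ (C (φ l) * X ^ n * (V1 - X ^ n)) * ψ V1 ^ 2 := by
      simp only [map_sub, map_mul, map_pow]
    rw [e1, ← hHV] at h3
    rw [mul_zero]
    linear_combination h3
  have h3 : IsIntegral F[X] H := by
    refine ⟨X ^ 2 - C (X ^ n) * X - C (C (φ l) * X ^ n * (V1 - X ^ n)), ?_, ?_⟩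
    · monicity!
    · simpa using h2
  obtain ⟨y, hy⟩ := IsIntegrallyClosed.isIntegral_iff.mp h3
  refine ⟨y, hψ ?_⟩
  rw [map_mul]
  change ψ y * ψ V1 = ψ (X ^ n * I1)
  have hy' : ψ y = H := hy
  rw [hy', hHV]

/-- exact divisibility -/
theorem exact_dvd {l : R} {n : ℕ} {V I : R[X]} (hl : l ≠ 0) (hV : V ≠ 0) (hVn : V ≠ X ^ n)
    (h : X ^ n * I * (I - V) = C l * (V - X ^ n) * V ^ 2) :
    ∃ H : R[X], H * (H - X ^ n) = C l * (X ^ n * (V - X ^ n)) := by
  obtain ⟨y, hy⟩ := dvd_frac hV h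
  obtain ⟨c, V', hc, hV', hVc⟩ := content hV
  -- `X ^ n * I = V' * H0`
  have hI : I ≠ 0 := by
    rintro rfl
    rw [mul_zero, zero_mul] at h
    have h1 := mul_ne_zero (mul_ne_zero (C_ne_zero.mpr hl) (sub_ne_zero.mpr hVn))
      (pow_ne_zero 2 hV)
    exact h1 h.symm
  obtain ⟨b, hbm, hb⟩ := IsLocalization.integerNormalization_spec (nonZeroDivisors R) y
  set Y := IsLocalization.integerNormalization (nonZeroDivisors R) y with hY
  have hb0 : (b : R) ≠ 0 := nonZeroDivisors.ne_zero hbm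
  have hinj : Function.Injective (algebraMap R (FractionRing R)) :=
    IsFractionRing.injective R (FractionRing R)
  have h1 : Y * V = C (b : R) * (X ^ n * I) := by
    apply Polynomial.map_injective _ hinj
    rw [Polynomial.map_mul, Polynomial.map_mul, hb, Polynomial.map_mul, Polynomial.map_pow, map_X,
      map_C, ← hy, Algebra.smul_def]
    rw [show (algebraMap R (FractionRing R)[X]) (b : R) = C (algebraMap R (FractionRing R) b) from
      rfl]
    ring
  have hXI : (X ^ n * I : R[X]) ≠ 0 := mul_ne_zero (pow_ne_zero _ X_ne_zero) hI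
  have hY0 : Y ≠ 0 := by
    intro h0
    rw [h0, zero_mul] at h1
    exact mul_ne_zero (C_ne_zero.mpr hb0) hXI h1.symm
  obtain ⟨e, Y', he, hY', hYe⟩ := content hY0
  obtain ⟨g, J', hg, hJ', hJg⟩ := content hXI
  -- `e c Y' V' = b g J'`
  have h2 : C (e * c) * (Y' * V') = C ((b : R) * g) * J' := by
    rw [hYe, hJg] at h1
    rw [C_mul, C_mul]
    rw [hVc] at h1
    linear_combination h1
  have h3 : (b : R) * g ∣ e * c :=
    dvd_const (prim_mul hY' hV') (by rw [h2]; exact Dvd.intro _ rfl)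
  obtain ⟨t, ht⟩ := h3
  have h4 : C t * (Y' * V') = J' := by
    have h5 : C ((b : R) * g) * (C t * (Y' * V')) = C ((b : R) * g) * J' := by
      rw [← h2, ht]
      rw [C_mul, C_mul, C_mul]
      ring
    exact mul_left_cancel₀ (C_ne_zero.mpr (mul_ne_zero hb0 hg)) h5
  -- `H0`
  set H0 : R[X] := C (g * t) * Y' with hH0
  have h5 : X ^ n * I = V' * H0 := by
    rw [hJg, ← h4, hH0, C_mul]
    ring
  have hH00 : H0 ≠ 0 := by
    intro h0
    rw [h0, mul_zero] at h5
    exact hXI h5
  have hV'0 : V' ≠ 0 := by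
    rintro rfl
    rw [mul_zero] at hVc
    exact hV hVc
  have h6 : H0 * (H0 - C c * X ^ n) = C (l * c ^ 2) * (X ^ n * (V - X ^ n)) := by
    have h7 : V' ^ 2 * (H0 * (H0 - C c * X ^ n)) =
        V' ^ 2 * (C (l * c ^ 2) * (X ^ n * (V - X ^ n))) := by
      rw [C_mul, C_pow]
      have h8 : X ^ n * V = V' * (C c * X ^ n) := by
        conv_lhs => rw [hVc]
        ring
      have h9 : V ^ 2 = V' ^ 2 * C c ^ 2 := by
        conv_lhs => rw [hVc]
        ring
      linear_combination (-(X ^ n * I + V' * H0) + X ^ n * V) * h5 + (X ^ n) * h +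
        (V' * H0) * h8 + (C l * X ^ n * (V - X ^ n)) * h9
    exact mul_left_cancel₀ (pow_ne_zero 2 hV'0) h7
  obtain ⟨e1, H1, he1, hH1, hHe⟩ := content hH00
  rcases ValuationRing.dvd_total c e1 with hce | hec
  · obtain ⟨e2, rfl⟩ := hce
    refine ⟨C e2 * H1, ?_⟩
    have h7 : C (c ^ 2) * (C e2 * H1 * (C e2 * H1 - X ^ n)) =
        C (c ^ 2) * (C l * (X ^ n * (V - X ^ n))) := by
      rw [hHe, C_mul, C_mul] at h6
      rw [C_pow] at h6 ⊢
      linear_combination h6
    exact mul_left_cancel₀ (C_ne_zero.mpr (pow_ne_zero 2 hc)) h7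
  · obtain ⟨c', rfl⟩ := hec
    by_cases hu : IsUnit c'
    · -- then `e1 * c'` divides `e1` as well
      obtain ⟨u, rfl⟩ := hu
      refine ⟨C (↑u⁻¹ : R) * H1, ?_⟩
      have huu : C (u : R) * C (↑u⁻¹ : R) = 1 := by rw [← C_mul, Units.mul_inv, C_1]
      have h7 : C ((e1 * u) ^ 2) * (C (↑u⁻¹ : R) * H1 * (C (↑u⁻¹ : R) * H1 - X ^ n)) =
          C ((e1 * u) ^ 2) * (C l * (X ^ n * (V - X ^ n))) := by
        rw [hHe] at h6
        simp only [C_mul, C_pow] at h6 ⊢
        linear_combination h6 + (C e1 ^ 2 * H1 ^ 2 * (C (u : R) * C (↑u⁻¹ : R) + 1) -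
          C e1 ^ 2 * C (u : R) * H1 * X ^ n) * huu
      exact mul_left_cancel₀ (C_ne_zero.mpr (pow_ne_zero 2 hc)) h7
    · exfalso
      have hp : Prim (H1 - C c' * X ^ n) := by
        rw [prim_iff, Polynomial.map_sub, Polynomial.map_mul, map_C]
        have : IsLocalRing.residue R c' = 0 := by
          rw [IsLocalRing.residue_eq_zero_iff]
          exact (IsLocalRing.mem_maximalIdeal c').mpr hu
        rw [this, C_0, zero_mul, sub_zero]
        exact (prim_iff H1).mp hH1
      have h7 : H1 * (H1 - C c' * X ^ n) = C (l * c' ^ 2) * (X ^ n * (V - X ^ n)) := by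
        have h8 : C (e1 ^ 2) * (H1 * (H1 - C c' * X ^ n)) =
            C (e1 ^ 2) * (C (l * c' ^ 2) * (X ^ n * (V - X ^ n))) := by
          rw [hHe, C_mul, C_mul, C_pow, C_mul] at h6
          rw [C_mul, C_pow, C_pow]
          linear_combination h6
        exact mul_left_cancel₀ (C_ne_zero.mpr (pow_ne_zero 2 he1)) h8
      have h8 : l * c' ^ 2 ∣ 1 := by
        refine dvd_const (prim_mul hH1 hp) ?_
        rw [C_1, one_mul, h7]
        exact Dvd.intro _ rfl
      have h9 : IsUnit (l * c' ^ 2) := isUnit_of_dvd_one h8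
      have h10 := isUnit_of_mul_isUnit_right h9
      exact hu ((isUnit_pow_iff two_ne_zero).mp h10)

end Gs

open Gs

theorem t_GAUSS : S_GAUSS := by
  intro R _ _ _ l n V I hl h hn
  have hV : V ≠ 0 := by
    rintro rfl
    simp at hn
  have hVn : V ≠ X ^ n := by
    rintro rfl
    rw [natDegree_X_pow] at hn
    exact lt_irrefl _ hn
  obtain ⟨H, hH⟩ := exact_dvd hl hV hVn h
  have hVX : V - X ^ n ≠ 0 := sub_ne_zero.mpr hVn
  have hR : C l * (X ^ n * (V - X ^ n)) ≠ 0 :=
    mul_ne_zero (C_ne_zero.mpr hl) (mul_ne_zero (pow_ne_zero _ X_ne_zero) hVX)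
  have hH0 : H ≠ 0 := by
    rintro rfl
    rw [zero_mul] at hH
    exact hR hH.symm
  have hH1 : H - X ^ n ≠ 0 := by
    intro h0
    rw [h0, mul_zero] at hH
    exact hR hH.symm
  -- degrees
  have hdV : (V - X ^ n).natDegree = V.natDegree := by
    rw [natDegree_sub_eq_left_of_natDegree_lt]
    rw [natDegree_X_pow]
    exact hn
  have hlV : (V - X ^ n).leadingCoeff = V.leadingCoeff := by
    rw [leadingCoeff_sub_of_degree_lt]
    rw [degree_X_pow, degree_eq_natDegree hV]
    exact_mod_cast hn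
  have hdeg : H.natDegree + (H - X ^ n).natDegree = n + V.natDegree := by
    rw [← natDegree_mul hH0 hH1, hH, natDegree_C_mul hl,
      natDegree_mul (pow_ne_zero _ X_ne_zero) hVX, natDegree_X_pow, hdV]
  have hHn : n < H.natDegree := by
    by_contra hc
    push Not at hc
    have h1 : (H - X ^ n).natDegree ≤ n := by
      refine (natDegree_sub_le _ _).trans (max_le hc ?_)
      rw [natDegree_X_pow]
    omega
  have hlH : (H - X ^ n).leadingCoeff = H.leadingCoeff := by
    rw [leadingCoeff_sub_of_degree_lt]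
    rw [degree_X_pow, degree_eq_natDegree hH0]
    exact_mod_cast hHn
  have hlc : H.leadingCoeff * H.leadingCoeff = l * V.leadingCoeff := by
    have h1 := congrArg leadingCoeff hH
    rw [leadingCoeff_mul, leadingCoeff_mul, leadingCoeff_mul, leadingCoeff_C, leadingCoeff_X_pow,
      one_mul, hlH, hlV] at h1
    exact h1
  -- `l` divides the leading coefficient of `H`
  have hdiv : l ∣ H.leadingCoeff := by
    have hCl : C l ∣ H * (H - X ^ n) := by
      rw [hH]
      exact Dvd.intro _ rfl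
    have hcase : Prim H ∨ Prim (H - X ^ n) := by
      by_contra hc
      push Not at hc
      rw [prim_iff, prim_iff, not_not, not_not] at hc
      obtain ⟨h1, h2⟩ := hc
      rw [Polynomial.map_sub, h1, zero_sub, neg_eq_zero, Polynomial.map_pow, map_X] at h2
      exact pow_ne_zero n X_ne_zero h2
    rcases hcase with h1 | h1
    · have h2 := dvd_cancel h1 hCl
      rw [C_dvd_iff_dvd_coeff] at h2
      have h3 := h2 (H - X ^ n).natDegree
      rw [coeff_natDegree, hlH] at h3
      exact h3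
    · rw [mul_comm] at hCl
      have h2 := dvd_cancel h1 hCl
      rw [C_dvd_iff_dvd_coeff] at h2
      exact h2 H.natDegree
  obtain ⟨u, hu⟩ := hdiv
  rw [hu] at hlc
  refine ⟨u ^ 2, ?_⟩
  have h1 : l * V.leadingCoeff = l * (l * u ^ 2) := by
    rw [← hlc]; ring
  exact mul_left_cancel₀ hl h1

end Pool.Agent.T2h48.DW
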