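import Pool.Agent.T2h48.DW.Stm

set_option autoImplicit false

namespace Pool.Agent.T2h48.DW

open Pool.Agent.N867.AS Pool.Agent.N867.AS.Res Pool.Agent.N867.AS.Tr

/-- the `q`-power map commutes with a polynomial whose coefficients are fixed by it -/
theorem eval_frob {p : ℕ} [hp : Fact p.Prime] {σ : Type} (f : MvPolynomial σ (k p)) {s : ℕ}
    (hf : ∀ μ, f.coeff μ ^ p ^ s = f.coeff μ) (x : σ → k p) :
    MvPolynomial.eval (fun i => x i ^ p ^ s) f = (MvPolynomial.eval x f) ^ p ^ s := by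
  have h1 : (MvPolynomial.eval x f) ^ p ^ s = iterateFrobenius (k p) p s (MvPolynomial.eval x f) :=
    (iterateFrobenius_def _ _ _).symm
  rw [h1, MvPolynomial.eval_eq, MvPolynomial.eval_eq, map_sum]
  refine Finset.sum_congr rfl fun μ _ => ?_
  rw [map_mul, map_prod, iterateFrobenius_def, hf]
  congr 1
  refine Finset.prod_congr rfl fun i _ => ?_
  rw [map_pow, iterateFrobenius_def]

theorem t_HYP (hM : S_MEROM) (hR : S_RAT) (hI : S_INT) (hE : S_EXPS) : S_HYP := by
  classical
  intro p hp n f s hs hf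
  obtain ⟨X, hX⟩ : ∃ X : Type, X = {x : Fin n → k p // MvPolynomial.eval x f = 0} := ⟨_, rfl⟩
  obtain ⟨φ, hφ⟩ : ∃ φ : {x : Fin n → k p // MvPolynomial.eval x f = 0} →
      {x : Fin n → k p // MvPolynomial.eval x f = 0}, ∀ x i, (φ x).1 i = x.1 i ^ p ^ s :=
    ⟨fun x => ⟨fun i => x.1 i ^ p ^ s, by
      rw [eval_frob f hf, x.2, zero_pow (pow_ne_zero _ hp.1.ne_zero)]⟩, fun _ _ => rfl⟩
  have hφm : ∀ m x i, (φ^[m] x).1 i = x.1 i ^ p ^ (s * m) := by
    intro m
    induction m with
    | zero => intro x i; simp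
    | succ m ih =>
      intro x i
      rw [Function.iterate_succ_apply, ih, hφ, ← pow_mul, ← pow_add]
      congr 2
      ring
  have hiff : ∀ m x, φ^[m] x = x ↔ ∀ i, x.1 i ^ p ^ (s * m) = x.1 i := by
    intro m x
    constructor
    · intro h i
      rw [← hφm, h]
    · intro h
      apply Subtype.ext
      funext i
      rw [hφm, h]
  have hcard : ∀ m, Nat.card {x // φ^[m] x = x} = hpts f (p ^ (s * m)) := by
    intro m
    unfold hpts
    refine Nat.card_congr ?_
    refine (Equiv.subtypeEquivRight (hiff m)).trans ?_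
    refine (Equiv.subtypeSubtypeEquivSubtypeInter (fun x : Fin n → k p => MvPolynomial.eval x f = 0)
      (fun x => ∀ i, x i ^ p ^ (s * m) = x i)).trans ?_
    exact Equiv.subtypeEquivRight fun x => and_comm
  have hfinFQ : ∀ m, 1 ≤ m → Finite {x : Fin n → k p // ∀ i, x i ^ p ^ (s * m) = x i} ∧
      Nat.card {x : Fin n → k p // ∀ i, x i ^ p ^ (s * m) = x i} ≤ (p ^ (s * n)) ^ m := by
    intro m hm
    have hQ : 1 < p ^ (s * m) := Nat.one_lt_pow (Nat.mul_ne_zero hs (by omega)) hp.1.one_lt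
    have e1 : {x : Fin n → k p // ∀ i, x i ^ p ^ (s * m) = x i} ≃
        (Fin n → {z : k p // z ^ p ^ (s * m) = z}) :=
      { toFun := fun x i => ⟨x.1 i, x.2 i⟩
        invFun := fun y => ⟨fun i => (y i).1, fun i => (y i).2⟩
        left_inv := fun _ => rfl
        right_inv := fun _ => rfl }
    have e2 : {z : k p // z ^ p ^ (s * m) = z} ≃ (FQ p (p ^ (s * m))) :=
      Equiv.subtypeEquivRight fun z => (mem_FQ hQ).symm
    have hf2 : Finite {z : k p // z ^ p ^ (s * m) = z} := Finite.of_equiv _ e2.symm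
    refine ⟨Finite.of_equiv _ e1.symm, ?_⟩
    rw [Nat.card_congr e1, Nat.card_fun, Nat.card_congr e2, Nat.card_eq_fintype_card (α := Fin n),
      Fintype.card_fin, Nat.card_eq_fintype_card, Fintype.card_coe]
    have h3 : (FQ p (p ^ (s * m))).card ≤ p ^ (s * m) := by
      unfold FQ
      refine (Multiset.toFinset_card_le _).trans ((Polynomial.card_roots' _).trans ?_)
      rw [FiniteField.X_pow_card_sub_X_natDegree_eq _ hQ]
    calc _ ≤ (p ^ (s * m)) ^ n := Nat.pow_le_pow_left h3 n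
      _ = _ := by rw [← pow_mul, ← pow_mul]; congr 1; ring
  have hinj : ∀ m, ∃ g : {x // φ^[m] x = x} → {x : Fin n → k p // ∀ i, x i ^ p ^ (s * m) = x i},
      Function.Injective g := by
    intro m
    refine ⟨fun x => ⟨x.1.1, (hiff m x.1).1 x.2⟩, fun x y h => ?_⟩
    have h' : x.1.1 = y.1.1 := by
      simpa using h
    exact Subtype.ext (Subtype.ext h')
  obtain ⟨z, hz, hzb⟩ := hI _ φ (fun m => (hpts f (p ^ (s * m)) : ℤ)) (p ^ (s * n))
    (Nat.one_le_pow _ _ hp.1.pos) (fun m hm => by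
      obtain ⟨g, hg⟩ := hinj m
      have := (hfinFQ m hm).1
      exact Finite.of_injective g hg) (fun m _ => by rw [hcard m]) (fun m hm => by
      obtain ⟨g, hg⟩ := hinj m
      have := (hfinFQ m hm).1
      rw [← hcard m]
      exact_mod_cast (Nat.card_le_card_of_injective g hg).trans (hfinFQ m hm).2)
  have hmer := hM p (Fin n) f s z hs hf hz
  obtain ⟨P, Q, hQ, hPQ⟩ := hR p z (p ^ (s * n)) (fun i => by
    refine (hzb i).trans ?_
    exact pow_le_pow_right₀ (by exact_mod_cast Nat.one_le_pow _ _ hp.1.pos) (by omega)) hmer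
  exact hE _ z hz ⟨P, Q, hQ, hPQ⟩

end Pool.Agent.T2h48.DW
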