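import Pool.Agent.T2h48.DW.Stm

/-!
# Task INT
-/

set_option autoImplicit false

namespace Pool.Agent.T2h48.DW

namespace It

open PowerSeries

/-- logarithmic derivative -/
def LD (w Z : ℤ⟦X⟧) : Prop := constantCoeff Z = 1 ∧ derivative ℤ Z = Z * w

theorem LD.mul {w₁ w₂ Z₁ Z₂ : ℤ⟦X⟧} (h₁ : LD w₁ Z₁) (h₂ : LD w₂ Z₂) : LD (w₁ + w₂) (Z₁ * Z₂) := by
  refine ⟨by rw [map_mul, h₁.1, h₂.1, one_mul], ?_⟩
  rw [Derivation.leibniz, h₁.2, h₂.2, smul_eq_mul, smul_eq_mul]
  ring

theorem LD.one : LD 0 1 := ⟨map_one _, by rw [Derivation.map_one_eq_zero, mul_zero]⟩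

theorem LD.pow {w Z : ℤ⟦X⟧} (h : LD w Z) (n : ℕ) : LD (n • w) (Z ^ n) := by
  induction n with
  | zero => rw [zero_smul, pow_zero]; exact LD.one
  | succ n ih => rw [succ_nsmul, pow_succ]; exact ih.mul h

theorem LD.prod {ι : Type} (s : Finset ι) (w Z : ι → ℤ⟦X⟧) (h : ∀ i ∈ s, LD (w i) (Z i)) :
    LD (∑ i ∈ s, w i) (∏ i ∈ s, Z i) := by
  classical
  induction s using Finset.induction_on with
  | empty => rw [Finset.sum_empty, Finset.prod_empty]; exact LD.one
  | insert a s ha ih =>
    rw [Finset.sum_insert ha, Finset.prod_insert ha]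
    exact (h a (Finset.mem_insert_self _ _)).mul
      (ih fun i hi => h i (Finset.mem_insert_of_mem hi))

/-- the series `1 / (1 - X ^ d)` -/
noncomputable def geo (d : ℕ) : ℤ⟦X⟧ := PowerSeries.mk fun n => if d ∣ n then 1 else 0

theorem geo_mul {d : ℕ} (hd : 1 ≤ d) : (1 - (X : ℤ⟦X⟧) ^ d) * geo d = 1 := by
  ext n
  rw [sub_mul, one_mul, map_sub, PowerSeries.coeff_X_pow_mul', geo, coeff_mk, coeff_mk,
    PowerSeries.coeff_one]
  rcases Nat.lt_or_ge n d with h | h
  · rw [if_neg (not_le.mpr h), sub_zero]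
    refine if_congr ⟨fun h1 => Nat.eq_zero_of_dvd_of_lt h1 h, fun h1 => h1 ▸ dvd_zero _⟩ rfl rfl
  · rw [if_pos h, if_neg (by omega : ¬ n = 0)]
    have : d ∣ n ↔ d ∣ n - d := by
      conv_lhs => rw [← Nat.sub_add_cancel h]
      exact Nat.dvd_add_self_right
    rw [if_congr this rfl rfl, sub_self]

theorem geo_LD {d : ℕ} (hd : 1 ≤ d) :
    LD (PowerSeries.mk fun n => if d ∣ n + 1 then (d : ℤ) else 0) (geo d) := by
  refine ⟨?_, ?_⟩
  · rw [← coeff_zero_eq_constantCoeff_apply, geo, coeff_mk, if_pos (dvd_zero _)]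
  · have h1 := geo_mul hd
    have h2 : (PowerSeries.mk fun n => if d ∣ n + 1 then (d : ℤ) else 0) =
        (d : ℤ⟦X⟧) * X ^ (d - 1) * geo d := by
      ext n
      rw [mul_assoc, ← nsmul_eq_mul, map_nsmul, PowerSeries.coeff_X_pow_mul', coeff_mk, geo, coeff_mk]
      rcases Nat.lt_or_ge n (d - 1) with h | h
      · rw [if_neg (not_le.mpr h), smul_zero, if_neg]
        intro h3
        have := Nat.le_of_dvd (by omega) h3
        omega
      · rw [if_pos h]
        have h3 : d ∣ n + 1 ↔ d ∣ n - (d - 1) := by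
          have : n + 1 = (n - (d - 1)) + d := by omega
          rw [this]
          exact Nat.dvd_add_self_right
        rw [if_congr h3 rfl rfl]
        split_ifs
        · rw [nsmul_eq_mul, mul_one]
        · rw [smul_zero]
    have h3 : (1 - (X : ℤ⟦X⟧) ^ d) * derivative ℤ (geo d) = (d : ℤ⟦X⟧) * X ^ (d - 1) * geo d := by
      have h4 := congrArg (derivative ℤ) h1
      rw [Derivation.leibniz, map_sub, Derivation.map_one_eq_zero, Derivation.leibniz_pow,
        smul_eq_mul, smul_eq_mul, zero_sub, PowerSeries.derivative_X, nsmul_eq_mul, smul_eq_mul,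
        mul_one] at h4
      linear_combination h4
    have h4 : derivative ℤ (geo d) =
        geo d * ((1 - (X : ℤ⟦X⟧) ^ d) * derivative ℤ (geo d)) := by
      linear_combination (-derivative ℤ (geo d)) * h1
    rw [h4, h3, h2]

/-! ### the points of minimal period `d` -/

variable {X : Type} (φ : X → X)

/-- the points of minimal period `d` -/
def P (d : ℕ) : Set X := {x | Function.minimalPeriod φ x = d}

/-- the orbit -/
noncomputable def orb [DecidableEq X] (d : ℕ) (x : X) : Finset X :=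
  (Finset.range d).image fun k => φ^[k] x

theorem iter_mem {d : ℕ} (hd : 1 ≤ d) {x : X} (hx : x ∈ P φ d) (k : ℕ) : φ^[k] x ∈ P φ d := by
  have h1 : x ∈ Function.periodicPts φ := by
    rw [← Function.minimalPeriod_pos_iff_mem_periodicPts]
    have : Function.minimalPeriod φ x = d := hx
    omega
  have h2 := Function.minimalPeriod_apply_iterate h1 k
  exact h2.trans hx

theorem iter_d {d : ℕ} {x : X} (hx : x ∈ P φ d) : φ^[d] x = x := by
  have h := Function.isPeriodicPt_minimalPeriod φ x
  have hx' : Function.minimalPeriod φ x = d := hx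
  rw [hx'] at h
  exact h

theorem iter_mod {d : ℕ} {x : X} (hx : x ∈ P φ d) (k : ℕ) : φ^[k] x = φ^[k % d] x := by
  have hx' : Function.minimalPeriod φ x = d := hx
  have := Function.iterate_mod_minimalPeriod_eq (f := φ) (x := x) (n := k)
  rw [hx'] at this
  exact this.symm

theorem mem_orb [DecidableEq X] {d : ℕ} (hd : 1 ≤ d) {x y : X} (hx : x ∈ P φ d) :
    y ∈ orb φ d x ↔ ∃ k, φ^[k] x = y := by
  rw [orb, Finset.mem_image]
  constructor
  · rintro ⟨k, -, hk⟩
    exact ⟨k, hk⟩
  · rintro ⟨k, hk⟩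
    exact ⟨k % d, Finset.mem_range.mpr (Nat.mod_lt _ hd), by rw [← hk, iter_mod φ hx k]⟩

theorem orb_eq [DecidableEq X] {d : ℕ} (hd : 1 ≤ d) {x y : X} (hx : x ∈ P φ d) (hy : y ∈ P φ d) :
    orb φ d y = orb φ d x ↔ y ∈ orb φ d x := by
  constructor
  · intro h
    rw [← h, mem_orb φ hd hy]
    exact ⟨0, rfl⟩
  · intro h
    obtain ⟨k, rfl⟩ := (mem_orb φ hd hx).mp h
    ext z
    rw [mem_orb φ hd hx, mem_orb φ hd hy]
    constructor
    · rintro ⟨j, hj⟩
      exact ⟨j + k, by rw [Function.iterate_add_apply, hj]⟩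
    · rintro ⟨j, hj⟩
      refine ⟨j + (d * k - k), ?_⟩
      rw [← Function.iterate_add_apply]
      have h1 : j + (d * k - k) + k = j + d * k := by
        have : k ≤ d * k := Nat.le_mul_of_pos_left k hd
        omega
      rw [h1, iter_mod φ hx, Nat.add_mul_mod_self_left, ← iter_mod φ hx, hj]

theorem card_orb [DecidableEq X] {d : ℕ} {x : X} (hx : x ∈ P φ d) : (orb φ d x).card = d := by
  rw [orb, Finset.card_image_of_injOn, Finset.card_range]
  intro i hi j hj h
  have hx' : Function.minimalPeriod φ x = d := hx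
  have h1 := Function.iterate_injOn_Iio_minimalPeriod (f := φ) (x := x)
  rw [hx'] at h1
  exact h1 (by simpa using hi) (by simpa using hj) h

theorem dvd_card {d : ℕ} (hd : 1 ≤ d) (hfin : (P φ d).Finite) :
    ∃ a : ℕ, hfin.toFinset.card = d * a := by
  classical
  have h1 : ∀ b ∈ hfin.toFinset.image (orb φ d),
      (hfin.toFinset.filter fun y => orb φ d y = b).card = d := by
    intro b hb
    obtain ⟨x, hx, rfl⟩ := Finset.mem_image.mp hb
    have hx' : x ∈ P φ d := hfin.mem_toFinset.mp hx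
    refine (congrArg Finset.card ?_).trans (card_orb φ hx')
    ext y
    rw [Finset.mem_filter, hfin.mem_toFinset]
    constructor
    · rintro ⟨hy, h⟩
      exact (orb_eq φ hd hx' hy).mp h
    · intro hy
      have hy' : y ∈ P φ d := by
        obtain ⟨k, rfl⟩ := (mem_orb φ hd hx').mp hy
        exact iter_mem φ hd hx' k
      exact ⟨hy', (orb_eq φ hd hx' hy').mpr hy⟩
  refine ⟨(hfin.toFinset.image (orb φ d)).card, ?_⟩
  rw [Finset.card_eq_sum_card_image (orb φ d) hfin.toFinset, Finset.sum_congr rfl h1,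
    Finset.sum_const, smul_eq_mul, mul_comm]

theorem card_fix {m : ℕ} (hm : 1 ≤ m) (hfin : ∀ d, 1 ≤ d → (P φ d).Finite)
    (hF : Finite {x : X // φ^[m] x = x}) :
    Nat.card {x : X // φ^[m] x = x} =
      ∑ d ∈ m.divisors, if h : 1 ≤ d then (hfin d h).toFinset.card else 0 := by
  classical
  have hF' : {x : X | φ^[m] x = x}.Finite := hF
  have h1 : Nat.card {x : X // φ^[m] x = x} = hF'.toFinset.card := by
    have := Set.ncard_eq_toFinset_card {x : X | φ^[m] x = x} hF'
    rw [← this]
    rfl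
  rw [h1, Finset.card_eq_sum_card_fiberwise (f := fun x => Function.minimalPeriod φ x)
    (t := m.divisors)]
  · refine Finset.sum_congr rfl fun d hd => ?_
    have hd1 : 1 ≤ d := Nat.pos_of_mem_divisors hd
    rw [dif_pos hd1]
    congr 1
    ext x
    rw [Finset.mem_filter, hF'.mem_toFinset, (hfin d hd1).mem_toFinset]
    constructor
    · rintro ⟨-, h⟩
      exact h
    · intro h
      refine ⟨?_, h⟩
      have h2 : Function.minimalPeriod φ x ∣ m := by
        have : Function.minimalPeriod φ x = d := h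
        rw [this]
        exact Nat.dvd_of_mem_divisors hd
      exact Function.isPeriodicPt_iff_minimalPeriod_dvd.mpr h2
  · intro x hx
    have hx' : Function.IsPeriodicPt φ m x := by
      have := hF'.mem_toFinset.mp (Finset.mem_coe.mp hx)
      exact this
    exact Finset.mem_coe.mpr (Nat.mem_divisors.mpr ⟨hx'.minimalPeriod_dvd, by omega⟩)

/-- a truncated solution -/
theorem exists_trunc {W : ℕ → ℤ} (hfinm : ∀ m : ℕ, 1 ≤ m → Finite {x : X // φ^[m] x = x})
    (hW : ∀ m : ℕ, 1 ≤ m → W m = Nat.card {x : X // φ^[m] x = x}) (N : ℕ) :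
    ∃ z : ℕ → ℤ, z 0 = 1 ∧ ∀ n : ℕ, 1 ≤ n → n ≤ N →
      (n : ℤ) * z n = ∑ j ∈ Finset.range n, W (j + 1) * z (n - 1 - j) := by
  classical
  have hfin : ∀ d, 1 ≤ d → (P φ d).Finite := by
    intro d hd
    have h1 : {x : X | φ^[d] x = x}.Finite := hfinm d hd
    exact h1.subset fun x hx => iter_d φ hx
  choose! a ha using fun d (hd : 1 ≤ d) => dvd_card φ hd (hfin d hd)
  have hLD := LD.prod (Finset.Icc 1 N)
    (fun d => a d • (PowerSeries.mk fun n => if d ∣ n + 1 then (d : ℤ) else 0))
    (fun d => geo d ^ a d) fun d hd => (geo_LD (Finset.mem_Icc.mp hd).1).pow _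
  have hWs : ∀ j, j + 1 ≤ N → PowerSeries.coeff j (∑ d ∈ Finset.Icc 1 N,
      a d • (PowerSeries.mk fun n => if d ∣ n + 1 then (d : ℤ) else 0)) = W (j + 1) := by
    intro j hj
    rw [map_sum, hW (j + 1) (by omega), card_fix φ (by omega) hfin (hfinm _ (by omega)), Nat.cast_sum]
    rw [← Finset.sum_subset (s₁ := (j + 1).divisors)]
    · refine Finset.sum_congr rfl fun d hd => ?_
      have hd1 : 1 ≤ d := Nat.pos_of_mem_divisors hd
      rw [dif_pos hd1, ha d hd1, map_nsmul, coeff_mk, if_pos (Nat.dvd_of_mem_divisors hd), nsmul_eq_mul]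
      push_cast
      ring
    · intro d hd
      have h1 := Nat.divisor_le hd
      have h2 := Nat.pos_of_mem_divisors hd
      exact Finset.mem_Icc.mpr ⟨h2, by omega⟩
    · intro d _ hd
      rw [map_nsmul, coeff_mk, if_neg, smul_zero]
      intro h
      exact hd (Nat.mem_divisors.mpr ⟨h, by omega⟩)
  set w := ∑ d ∈ Finset.Icc 1 N,
      a d • (PowerSeries.mk fun n => if d ∣ n + 1 then (d : ℤ) else 0) with hw
  set Z := ∏ d ∈ Finset.Icc 1 N, geo d ^ a d with hZ
  refine ⟨fun n => PowerSeries.coeff n Z, ?_, fun n hn hnN => ?_⟩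
  · change PowerSeries.coeff 0 Z = 1
    rw [coeff_zero_eq_constantCoeff_apply]
    exact hLD.1
  · obtain ⟨n, rfl⟩ : ∃ n', n = n' + 1 := ⟨n - 1, by omega⟩
    have h1 := congrArg (PowerSeries.coeff n) hLD.2
    rw [coeff_derivative, mul_comm Z w, coeff_mul,
      Finset.Nat.sum_antidiagonal_eq_sum_range_succ_mk] at h1
    change ((n + 1 : ℕ) : ℤ) * PowerSeries.coeff (n + 1) Z = _
    rw [mul_comm]
    push_cast
    rw [h1]
    refine Finset.sum_congr rfl fun j hj => ?_
    have hj' := Finset.mem_range.mp hj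
    rw [hWs j (by omega)]

end It

open It in
theorem t_INT : S_INT := by
  intro X φ W g hg hfin hW hWg
  choose Z hZ0 hZ using exists_trunc φ hfin hW
  -- all the truncated solutions agree
  have huniq : ∀ n N M, n ≤ N → n ≤ M → Z N n = Z M n := by
    intro n
    induction n using Nat.strong_induction_on with
    | _ n ih =>
      intro N M hN hM
      rcases Nat.eq_zero_or_pos n with rfl | hn
      · rw [hZ0, hZ0]
      · have h1 := hZ N n hn hN
        have h2 := hZ M n hn hM
        have h3 : (n : ℤ) * Z N n = (n : ℤ) * Z M n := by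
          rw [h1, h2]
          refine Finset.sum_congr rfl fun j hj => ?_
          have hj' := Finset.mem_range.mp hj
          rw [ih (n - 1 - j) (by omega) N M (by omega) (by omega)]
        exact mul_left_cancel₀ (by exact_mod_cast hn.ne') h3
  have hrec : ∀ n : ℕ, 1 ≤ n → (n : ℤ) * Z n n =
      ∑ j ∈ Finset.range n, W (j + 1) * Z (n - 1 - j) (n - 1 - j) := by
    intro n hn
    rw [hZ n n hn le_rfl]
    refine Finset.sum_congr rfl fun j hj => ?_
    rw [huniq (n - 1 - j) n (n - 1 - j) (by omega) le_rfl]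
  refine ⟨fun n => Z n n, ⟨hZ0 0, hrec⟩, fun i => ?_⟩
  change |Z i i| ≤ _
  induction i using Nat.strong_induction_on with
  | _ n ih =>
    rcases Nat.eq_zero_or_pos n with rfl | hn
    · rw [hZ0, pow_zero, abs_one]
    · have h1 : (n : ℤ) * |Z n n| ≤ (n : ℤ) * (g : ℤ) ^ n := by
        rw [← Nat.abs_cast n, ← abs_mul, Nat.abs_cast, hrec n hn]
        refine (Finset.abs_sum_le_sum_abs _ _).trans ?_
        have h2 : ∀ j ∈ Finset.range n, |W (j + 1) * Z (n - 1 - j) (n - 1 - j)| ≤ (g : ℤ) ^ n := by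
          intro j hj
          have hj' := Finset.mem_range.mp hj
          have h3 : |W (j + 1)| ≤ (g : ℤ) ^ (j + 1) := by
            rw [abs_of_nonneg (by rw [hW _ (by omega)]; exact Int.natCast_nonneg _)]
            exact hWg _ (by omega)
          have h4 := ih (n - 1 - j) (by omega)
          rw [abs_mul]
          calc |W (j + 1)| * |Z (n - 1 - j) (n - 1 - j)|
              ≤ (g : ℤ) ^ (j + 1) * (g : ℤ) ^ (n - 1 - j) :=
                mul_le_mul h3 h4 (abs_nonneg _) (by positivity)
            _ = (g : ℤ) ^ n := by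
                rw [← pow_add]
                congr 1
                omega
        refine (Finset.sum_le_sum h2).trans ?_
        rw [Finset.sum_const, Finset.card_range, nsmul_eq_mul]
      exact le_of_mul_le_mul_left h1 (by exact_mod_cast hn)

end Pool.Agent.T2h48.DW
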