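import Pool.Agent.T2h48.DW.Stm

/-!
# Closeness of power sums gives closeness of coefficients
-/

set_option autoImplicit false
set_option linter.unusedSectionVars false

namespace Pool.Agent.T2h48.DW

open Pool.Agent.N867.AS Pool.Agent.N867.AS.Res
open Filter Topology

namespace LimitAux

variable {K : Type*} [NormedField K]

/-- the power sums are bounded by the coefficients -/
theorem bdd (B : ℕ → PowerSeries K) (b : ℕ → ℕ → K) (C : ℝ) (hB : ∀ N, HasPS (B N) (b N))
    (hC : ∀ N n, ‖PowerSeries.coeff n (B N)‖ ≤ C) (m : ℕ) : ∃ L : ℝ, ∀ N, ‖b N (m + 1)‖ ≤ L := by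
  induction m using Nat.strong_induction_on with
  | _ m ih =>
    have h1 : ∀ j : ℕ, ∃ L : ℝ, j < m → ∀ N, ‖b N (j + 1)‖ ≤ L := by
      intro j
      by_cases hj : j < m
      · obtain ⟨L, hL⟩ := ih j hj
        exact ⟨L, fun _ => hL⟩
      · exact ⟨0, fun h => absurd h hj⟩
    choose L hL using h1
    refine ⟨‖((m + 1 : ℕ) : K)‖ * C + ∑ j ∈ Finset.range m, L j * C, fun N => ?_⟩
    have h2 := (hB N).coeff_eq (m + 1)
    rw [Finset.sum_range_succ] at h2
    have h3 : m + 1 - 1 - m = 0 := by omega
    have h4 : PowerSeries.coeff 0 (B N) = 1 := by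
      rw [PowerSeries.coeff_zero_eq_constantCoeff_apply, (hB N).1]
    rw [h3, h4, mul_one] at h2
    have h5 : b N (m + 1) = -(((m + 1 : ℕ) : K) * PowerSeries.coeff (m + 1) (B N)) -
        ∑ j ∈ Finset.range m, b N (j + 1) * PowerSeries.coeff (m + 1 - 1 - j) (B N) := by
      linear_combination h2
    rw [h5]
    refine (norm_sub_le _ _).trans ?_
    rw [norm_neg, norm_mul]
    refine add_le_add (mul_le_mul_of_nonneg_left (hC N _) (norm_nonneg _)) ?_
    refine (norm_sum_le _ _).trans (Finset.sum_le_sum fun j hj => ?_)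
    rw [norm_mul]
    have hj' := Finset.mem_range.1 hj
    exact mul_le_mul (hL j hj' N) (hC N _) (norm_nonneg _) ((norm_nonneg _).trans (hL j hj' N))

/-- product of a null sequence and a bounded one -/
theorem tz {u v : ℕ → K} (hu : Tendsto u atTop (𝓝 0)) {L : ℝ} (hv : ∀ N, ‖v N‖ ≤ L) :
    Tendsto (fun N => u N * v N) atTop (𝓝 0) := by
  rw [tendsto_zero_iff_norm_tendsto_zero] at hu ⊢
  have h1 : Tendsto (fun N => ‖u N‖ * L) atTop (𝓝 0) := by
    have := hu.mul_const L
    rwa [zero_mul] at this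
  refine squeeze_zero (fun N => norm_nonneg _) (fun N => ?_) h1
  rw [norm_mul]
  exact mul_le_mul_of_nonneg_left (hv N) (norm_nonneg _)

end LimitAux

open LimitAux in
theorem t_LIMIT : S_LIMIT := by
  intro p _ z w A B a b C hz hA hB hAC hBC hw i
  rw [← tendsto_zero_iff_norm_tendsto_zero]
  have hw' : ∀ m, m ≠ 0 → Tendsto (fun N => w m - (b N m - a N m)) atTop (𝓝 0) := fun m hm =>
    tendsto_zero_iff_norm_tendsto_zero.2 (hw m hm)
  have hY : ∀ N, HasPS (z * B N) (fun m => - w m + b N m) := fun N => hz.mul (hB N)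
  induction i using Nat.strong_induction_on with
  | _ i ih =>
    rcases i with _ | i
    · have h1 : ∀ N, PowerSeries.coeff 0 (z * B N - A N) = 0 := by
        intro N
        rw [map_sub, PowerSeries.coeff_zero_eq_constantCoeff_apply,
          PowerSeries.coeff_zero_eq_constantCoeff_apply, (hY N).1, (hA N).1, sub_self]
      simp only [h1]
      exact tendsto_const_nhds
    · have hne : ((i + 1 : ℕ) : PadicAlgCl p) ≠ 0 := Nat.cast_ne_zero.2 (Nat.succ_ne_zero i)
      have h1 : ∀ N, PowerSeries.coeff (i + 1) (z * B N - A N) = ((i + 1 : ℕ) : PadicAlgCl p)⁻¹ *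
          ∑ j ∈ Finset.range (i + 1),
            ((w (j + 1) - (b N (j + 1) - a N (j + 1))) *
                PowerSeries.coeff (i + 1 - 1 - j) (A N) +
              PowerSeries.coeff (i + 1 - 1 - j) (z * B N - A N) * (w (j + 1) - b N (j + 1))) := by
        intro N
        have h2 := (hY N).coeff_eq (i + 1)
        have h3 := (hA N).coeff_eq (i + 1)
        rw [eq_inv_mul_iff_mul_eq₀ hne, map_sub, mul_sub, h2, h3, ← sub_eq_zero, ← neg_sub,
          neg_eq_zero, sub_eq_zero, sub_neg_eq_add, neg_add_eq_sub, ← Finset.sum_sub_distrib]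
        refine Finset.sum_congr rfl fun j _ => ?_
        rw [map_sub]
        ring
      simp only [h1]
      have h4 : Tendsto (fun N => ∑ j ∈ Finset.range (i + 1),
            ((w (j + 1) - (b N (j + 1) - a N (j + 1))) *
                PowerSeries.coeff (i + 1 - 1 - j) (A N) +
              PowerSeries.coeff (i + 1 - 1 - j) (z * B N - A N) * (w (j + 1) - b N (j + 1))))
          atTop (𝓝 (∑ j ∈ Finset.range (i + 1), (0 + 0))) := by
        refine tendsto_finsetSum _ fun j hj => ?_
        refine (tz (hw' (j + 1) (Nat.succ_ne_zero j)) fun N => hAC N _).add ?_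
        obtain ⟨L, hL⟩ := bdd B b C hB hBC j
        refine tz (ih (i + 1 - 1 - j) (by omega)) (L := ‖w (j + 1)‖ + L) fun N => ?_
        exact (norm_sub_le _ _).trans (add_le_add le_rfl (hL N))
      have h5 := h4.const_mul ((i + 1 : ℕ) : PadicAlgCl p)⁻¹
      simpa using h5

end Pool.Agent.T2h48.DW
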