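import Pool.Agent.T2h48.DW.Stm
import Pool.Agent.N867.AS.Bounds

/-!
# The zeta function of a hypersurface is `p`-adically meromorphic
-/

set_option autoImplicit false
set_option linter.unusedSectionVars false

namespace Pool.Agent.T2h48.DW

open Pool.Agent.N867.AS Pool.Agent.N867.AS.Res Pool.Agent.N867.AS.Tr
open Filter Topology

namespace MeromAux

variable {p : ℕ} [hp : Fact p.Prime]

theorem hx_coeff {σ : Type} {f : MvPolynomial σ (k p)} {Q : ℕ} (hQ : Q ≠ 0)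
    (hf : ∀ μ, f.coeff μ ^ Q = f.coeff μ) (μ : Option σ →₀ ℕ) :
    (hx f).coeff μ ^ Q = (hx f).coeff μ := by
  classical
  by_cases h0 : (hx f).coeff μ = 0
  · rw [h0, zero_pow hQ]
  · rw [hx, MvPolynomial.coeff_X_mul'] at h0 ⊢
    split_ifs at h0 ⊢ with h
    · obtain ⟨u, hu, -⟩ := MvPolynomial.coeff_rename_ne_zero _ _ _ h0
      rw [← hu, MvPolynomial.coeff_rename_mapDomain _ (Option.some_injective σ)]
      exact hf u
    · exact absurd rfl h0

theorem coeff_mul_le {P P' : Polynomial (PadicAlgCl p)} {R C C' : ℝ} (hR : 0 < R) (hC : 0 ≤ C)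
    (hC' : 0 ≤ C') (h : ∀ n, ‖P.coeff n‖ * R ^ n ≤ C) (h' : ∀ n, ‖P'.coeff n‖ * R ^ n ≤ C') (n : ℕ) :
    ‖(P * P').coeff n‖ * R ^ n ≤ C * C' := by
  rw [← le_div_iff₀ (by positivity), Polynomial.coeff_mul]
  refine IsUltrametricDist.norm_sum_le_of_forall_le_of_nonneg (by positivity) fun x hx => ?_
  rw [Finset.HasAntidiagonal.mem_antidiagonal] at hx
  rw [le_div_iff₀ (by positivity), norm_mul, ← hx, pow_add]
  calc _ = (‖P.coeff x.1‖ * R ^ x.1) * (‖P'.coeff x.2‖ * R ^ x.2) := by ring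
    _ ≤ _ := mul_le_mul (h _) (h' _) (by positivity) hC

theorem coeff_prod_le {ι : Type} (S : Finset ι) {P : ι → Polynomial (PadicAlgCl p)} {R : ℝ}
    {C : ι → ℝ} (hR : 0 < R) (hC : ∀ i, 0 ≤ C i) (h : ∀ i n, ‖(P i).coeff n‖ * R ^ n ≤ C i) (n : ℕ) :
    ‖(∏ i ∈ S, P i).coeff n‖ * R ^ n ≤ ∏ i ∈ S, C i := by
  classical
  induction S using Finset.induction_on generalizing n with
  | empty =>
    rw [Finset.prod_empty, Finset.prod_empty, Polynomial.coeff_one]
    split_ifs with h0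
    · rw [h0]; simp
    · rw [norm_zero, zero_mul]; exact zero_le_one
  | insert a S ha ih =>
    rw [Finset.prod_insert ha, Finset.prod_insert ha]
    exact coeff_mul_le hR (hC a) (Finset.prod_nonneg fun i _ => hC i) (h a) ih n

/-- rescaled polynomials -/
theorem coe_scale {K : Type} [Field K] (P : Polynomial K) (c : K) :
    ((P.comp (Polynomial.C c * Polynomial.X) : Polynomial K) : PowerSeries K) =
      PowerSeries.rescale c (P : PowerSeries K) := by
  ext n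
  rw [Polynomial.coeff_coe, Polynomial.comp_C_mul_X_coeff, PowerSeries.coeff_rescale,
    Polynomial.coeff_coe, mul_comm]

theorem coe_prod {K ι : Type} [Field K] (S : Finset ι) (P : ι → Polynomial K) :
    ((∏ i ∈ S, P i : Polynomial K) : PowerSeries K) = ∏ i ∈ S, (P i : PowerSeries K) := by
  rw [← Polynomial.coeToPowerSeries.ringHom_apply, map_prod]
  rfl

end MeromAux

open MeromAux in
theorem t_MEROM (hCo : S_COUNT) (hTr : S_TRACE) (hBo : S_BOUND) (hLi : S_LIMIT) : S_MEROM := by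
  intro p hp σ _ _ f s z hs hf hz
  classical
  have hp2 := hp.1.two_le
  have hQ2 : 2 ≤ p ^ s := one_lt_Q hs
  obtain ⟨D⟩ := exists_lifts (f := hx f) hs (hx_coeff (pow_ne_zero _ hp.1.ne_zero) hf)
  have : NeZero ((p : ℕ) : PadicAlgCl p) := ⟨Nat.cast_ne_zero.2 hp.1.ne_zero⟩
  have : NeZero p := ⟨hp.1.ne_zero⟩
  obtain ⟨ζ, hζ⟩ := HasEnoughRootsOfUnity.exists_primitiveRoot (PadicAlgCl p) p
  have hζ1 : ζ ≠ 1 := hζ.ne_one hp.1.one_lt
  obtain ⟨g, hgdef⟩ : ∃ g, g = ‖ζ - 1‖ := ⟨_, rfl⟩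
  have hg0 : 0 < g := by rw [hgdef]; exact norm_pos_iff.2 (sub_ne_zero.2 hζ1)
  have hg1 : g < 1 := by
    by_contra h
    push Not at h
    have h1 := one_le_pow₀ (n := p - 1) h
    rw [hgdef, Split.norm_zeta_sub_one hζ] at h1
    exact absurd (norm_p_lt p) (not_lt.2 h1)
  have hγex : ∀ N : ℕ, ∃ γ : PadicAlgCl p, ‖γ‖ = g ∧ (Split.Theta p (N + 2) γ).eval 1 = ζ := by
    intro N
    obtain ⟨γ, h1, h2⟩ := Split.exists_gamma hp.1.one_lt hE (N := N + 2) (by omega) hζ1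
      (by rw [← hgdef]; exact hg1)
    exact ⟨γ, h1.trans hgdef.symm, h2⟩
  choose γ hγg hγζ using hγex
  obtain ⟨r, hr, hr1, hG⟩ := hTr p (Option σ) (hx f) s D g hs hg0 hg1
  have hG' : ∀ N : ℕ, ∃ G : MvPolynomial (Option σ) (PadicAlgCl p),
      (∀ v : Option σ →₀ ℕ, ‖MvPolynomial.coeff v G‖ ≤ r ^ (∑ i, v i)) ∧
        ∀ B : ℕ, (∀ v ∈ G.support, ∀ i, v i ≤ B) → ∀ m : ℕ, m ≠ 0 →
          ∑ x ∈ Fintype.piFinset (fun _ : Option σ => MU p (p ^ (s * m))),
            ∏ μ ∈ (hx f).support, ∏ j ∈ Finset.range (s * m),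
              (Split.Theta p (N + 2) (γ N)).eval ((D.c μ * ∏ i, x i ^ μ i) ^ p ^ j) =
          ∑ T : Finset (Option σ), (-1) ^ T.card *
            ((p ^ (s * m) : ℕ) : PadicAlgCl p) ^ (Fintype.card (Option σ) - T.card) *
              (Cmat (p ^ s) (fun _ : Unit => G) id T B ^ m).trace := fun N => hG (N + 2) (γ N) (hγg N)
  choose G hGr hGt using hG'
  have hBx : ∀ N : ℕ, ∃ B : ℕ, ∀ v ∈ (G N).support, ∀ i, v i ≤ B := by
    intro N
    refine ⟨∑ v ∈ (G N).support, ∑ i, v i, fun v hv i => ?_⟩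
    exact (Finset.single_le_sum (f := fun i => v i) (fun _ _ => Nat.zero_le _)
      (Finset.mem_univ i)).trans (Finset.single_le_sum (f := fun v : Option σ →₀ ℕ => ∑ i, v i)
        (fun _ _ => Nat.zero_le _) hv)
  choose Bx hBx using hBx
  -- the scalars
  obtain ⟨q, hq⟩ : ∃ q : PadicAlgCl p, q = ((p ^ s : ℕ) : PadicAlgCl p) := ⟨_, rfl⟩
  have hq0 : q ≠ 0 := by rw [hq]; exact Nat.cast_ne_zero.2 (pow_ne_zero _ hp.1.ne_zero)
  obtain ⟨c, hc⟩ : ∃ c : Finset (Option σ) → PadicAlgCl p,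
      c = fun T => q ^ (Fintype.card (Option σ) - T.card) / q := ⟨_, rfl⟩
  have hc0 : ∀ T, c T ≠ 0 := by
    intro T
    rw [hc]
    exact div_ne_zero (pow_ne_zero _ hq0) hq0
  have hcn : ∀ T, 0 < ‖c T‖ := fun T => norm_pos_iff.2 (hc0 T)
  -- the polynomials
  obtain ⟨Mt, hMt⟩ : ∃ Mt : ∀ (N : ℕ) (T : Finset (Option σ)),
      Matrix (Unit × Idx T (Bx N)) (Unit × Idx T (Bx N)) (PadicAlgCl p),
      Mt = fun N T => Cmat (p ^ s) (fun _ : Unit => G N) id T (Bx N) := ⟨_, rfl⟩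
  obtain ⟨P, hP⟩ : ∃ P : ℕ → Finset (Option σ) → Polynomial (PadicAlgCl p),
      P = fun N T => (Mt N T).charpolyRev.comp (Polynomial.C (c T) * Polynomial.X) := ⟨_, rfl⟩
  have hPS : ∀ N T, HasPS (P N T : PowerSeries (PadicAlgCl p))
      (fun m => c T ^ m * (Mt N T ^ m).trace) := by
    intro N T
    rw [hP]
    simp only
    rw [coe_scale]
    exact (hasPS_charpolyRev (Mt N T)).rescale (c T)
  have hPb : ∀ R : ℝ, 0 < R → ∃ C : Finset (Option σ) → ℝ, (∀ T, 0 ≤ C T) ∧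
      ∀ N T n, ‖(P N T).coeff n‖ * R ^ n ≤ C T := by
    intro R hR
    have h1 : ∀ T, ∃ C : ℝ, ∀ N n, ‖(P N T).coeff n‖ * R ^ n ≤ C := by
      intro T
      obtain ⟨C, hC⟩ := hBo p (Option σ) (p ^ s) r (‖c T‖ * R) hQ2 hr hr1 (mul_pos (hcn T) hR)
      refine ⟨C, fun N n => ?_⟩
      have h2 := hC (G N) (hGr N) T (Bx N) n
      rw [hP, hMt]
      simp only
      rw [Polynomial.comp_C_mul_X_coeff, norm_mul, norm_pow, mul_assoc, ← mul_pow]
      exact h2
    choose C hC using h1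
    exact ⟨C, fun T => le_trans (by positivity) (hC T 0 0), fun N T n => hC T N n⟩
  -- numerator and denominator
  obtain ⟨Sa, hSa⟩ : ∃ Sa : Finset (Finset (Option σ)),
      Sa = Finset.univ.filter fun T => ¬ Even T.card := ⟨_, rfl⟩
  obtain ⟨Sb, hSb⟩ : ∃ Sb : Finset (Finset (Option σ)),
      Sb = Finset.univ.filter fun T => Even T.card := ⟨_, rfl⟩
  have hAps : ∀ N, HasPS ((∏ T ∈ Sa, P N T : Polynomial (PadicAlgCl p)) : PowerSeries (PadicAlgCl p))
      (fun m => ∑ T ∈ Sa, c T ^ m * (Mt N T ^ m).trace) := by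
    intro N
    rw [coe_prod]
    exact HasPS.prod Sa fun T _ => hPS N T
  have hBps : ∀ N, HasPS ((∏ T ∈ Sb, P N T : Polynomial (PadicAlgCl p)) : PowerSeries (PadicAlgCl p))
      (fun m => ∑ T ∈ Sb, c T ^ m * (Mt N T ^ m).trace) := by
    intro N
    rw [coe_prod]
    exact HasPS.prod Sb fun T _ => hPS N T
  -- the zeta function
  have hzps : HasPS (PowerSeries.mk fun n => (z n : PadicAlgCl p))
      (fun m => -(hpts f (p ^ (s * m)) : PadicAlgCl p)) := by
    refine hasPS_of_coeff ?_ ?_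
    · rw [← PowerSeries.coeff_zero_eq_constantCoeff_apply, PowerSeries.coeff_mk, hz.1, Int.cast_one]
    · intro n hn
      have h1 := hz.2 n (Nat.one_le_iff_ne_zero.2 hn)
      have h2 := congrArg (fun a : ℤ => (a : PadicAlgCl p)) h1
      simp only at h2
      push_cast at h2
      rw [PowerSeries.coeff_mk, h2, ← Finset.sum_neg_distrib]
      refine Finset.sum_congr rfl fun j _ => ?_
      rw [PowerSeries.coeff_mk]
      ring
  -- closeness of the power sums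
  have hclose : ∀ m, m ≠ 0 → ∀ N, ‖(hpts f (p ^ (s * m)) : PadicAlgCl p) -
      ((∑ T ∈ Sb, c T ^ m * (Mt N T ^ m).trace) - ∑ T ∈ Sa, c T ^ m * (Mt N T ^ m).trace)‖ ≤
      (‖q‖ ^ m)⁻¹ * g ^ (N + 2) := by
    intro m hm N
    have h1 := hCo p σ f s D m (N + 2) (γ N) ζ hs hm hζ (norm_pos_iff.1 (by rw [hγg]; exact hg0))
      (by rw [hγg]; exact hg1.le) (hγζ N)
    rw [hGt N (Bx N) (hBx N) m hm, hγg] at h1
    have hqm : ((p ^ (s * m) : ℕ) : PadicAlgCl p) = q ^ m := by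
      rw [hq, ← Nat.cast_pow, ← pow_mul]
    rw [hqm] at h1
    have h2 : q ^ m * (hpts f (p ^ (s * m)) : PadicAlgCl p) -
        ∑ T : Finset (Option σ), (-1) ^ T.card * (q ^ m) ^ (Fintype.card (Option σ) - T.card) *
          (Cmat (p ^ s) (fun _ : Unit => G N) id T (Bx N) ^ m).trace =
        q ^ m * ((hpts f (p ^ (s * m)) : PadicAlgCl p) -
          ((∑ T ∈ Sb, c T ^ m * (Mt N T ^ m).trace) - ∑ T ∈ Sa, c T ^ m * (Mt N T ^ m).trace)) := by
      rw [mul_sub]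
      congr 1
      rw [← Finset.sum_filter_add_sum_filter_not Finset.univ
        (fun T : Finset (Option σ) => Even T.card), ← hSb, ← hSa, sub_eq_add_neg, mul_add, mul_neg,
        Finset.mul_sum, Finset.mul_sum, ← Finset.sum_neg_distrib]
      have h3 : ∀ T, q ^ m * c T ^ m = (q ^ m) ^ (Fintype.card (Option σ) - T.card) := by
        intro T
        rw [← mul_pow, hc]
        simp only
        rw [mul_div_cancel₀ _ hq0, ← pow_mul, ← pow_mul, mul_comm]
      congr 1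
      · refine Finset.sum_congr rfl fun T hT => ?_
        rw [hSb, Finset.mem_filter] at hT
        rw [hT.2.neg_one_pow, one_mul, ← mul_assoc, h3, hMt]
      · refine Finset.sum_congr rfl fun T hT => ?_
        rw [hSa, Finset.mem_filter] at hT
        rw [(Nat.not_even_iff_odd.1 hT.2).neg_one_pow, ← mul_assoc, h3, hMt]
        ring
    rw [h2, norm_mul, norm_pow] at h1
    have hqn : 0 < ‖q‖ ^ m := pow_pos (norm_pos_iff.2 hq0) m
    rw [inv_mul_eq_div, le_div_iff₀ hqn, mul_comm]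
    exact h1
  have hlim : ∀ m, m ≠ 0 → Tendsto (fun N => ‖(hpts f (p ^ (s * m)) : PadicAlgCl p) -
      ((∑ T ∈ Sb, c T ^ m * (Mt N T ^ m).trace) - ∑ T ∈ Sa, c T ^ m * (Mt N T ^ m).trace)‖)
      atTop (𝓝 0) := by
    intro m hm
    have h1 : Tendsto (fun N : ℕ => (‖q‖ ^ m)⁻¹ * g ^ (N + 2)) atTop (𝓝 0) := by
      have h2 := ((tendsto_pow_atTop_nhds_zero_of_lt_one hg0.le hg1).comp
        (tendsto_add_atTop_nat 2)).const_mul (‖q‖ ^ m)⁻¹
      rw [mul_zero] at h2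
      exact h2
    exact squeeze_zero (fun N => norm_nonneg _) (hclose m hm) h1
  -- apply the limit lemma
  obtain ⟨C1, hC10, hC1⟩ := hPb 1 one_pos
  have hA1 : ∀ N n, ‖PowerSeries.coeff n ((∏ T ∈ Sa, P N T : Polynomial (PadicAlgCl p)) :
      PowerSeries (PadicAlgCl p))‖ ≤ max (∏ T ∈ Sa, C1 T) (∏ T ∈ Sb, C1 T) := by
    intro N n
    have h1 := coeff_prod_le Sa one_pos hC10 (hC1 N) n
    rw [one_pow, mul_one] at h1
    rw [Polynomial.coeff_coe]
    exact h1.trans (le_max_left _ _)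
  have hB1 : ∀ N n, ‖PowerSeries.coeff n ((∏ T ∈ Sb, P N T : Polynomial (PadicAlgCl p)) :
      PowerSeries (PadicAlgCl p))‖ ≤ max (∏ T ∈ Sa, C1 T) (∏ T ∈ Sb, C1 T) := by
    intro N n
    have h1 := coeff_prod_le Sb one_pos hC10 (hC1 N) n
    rw [one_pow, mul_one] at h1
    rw [Polynomial.coeff_coe]
    exact h1.trans (le_max_right _ _)
  have hfin := hLi p (PowerSeries.mk fun n => (z n : PadicAlgCl p))
    (fun m => (hpts f (p ^ (s * m)) : PadicAlgCl p)) _ _ _ _ _ hzps hAps hBps hA1 hB1 hlim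
  intro R hR
  obtain ⟨C2, hC20, hC2⟩ := hPb R hR
  refine ⟨max (∏ T ∈ Sa, C2 T) (∏ T ∈ Sb, C2 T), fun δ hδ n₀ => ?_⟩
  have hev : ∀ᶠ N in atTop, ∀ i ∈ Finset.range (n₀ + 1),
      ‖PowerSeries.coeff i ((PowerSeries.mk fun n => (z n : PadicAlgCl p)) *
        ((∏ T ∈ Sb, P N T : Polynomial (PadicAlgCl p)) : PowerSeries (PadicAlgCl p)) -
        ((∏ T ∈ Sa, P N T : Polynomial (PadicAlgCl p)) : PowerSeries (PadicAlgCl p)))‖ < δ := by
    rw [Filter.eventually_all_finset]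
    intro i _
    exact (hfin i).eventually (gt_mem_nhds hδ)
  obtain ⟨N, hN⟩ := hev.exists
  refine ⟨∏ T ∈ Sa, P N T, ∏ T ∈ Sb, P N T, ?_, fun n => ?_, fun n => ?_, fun i hi => ?_⟩
  · have h1 := (hBps N).1
    rw [← PowerSeries.coeff_zero_eq_constantCoeff_apply, Polynomial.coeff_coe] at h1
    exact h1
  · exact (coeff_prod_le Sa hR hC20 (hC2 N) n).trans (le_max_left _ _)
  · exact (coeff_prod_le Sb hR hC20 (hC2 N) n).trans (le_max_right _ _)
  · exact (hN i (Finset.mem_range.2 (by omega))).le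

end Pool.Agent.T2h48.DW
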