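import Pool.Agent.T2h48.DW.Stm

set_option autoImplicit false

namespace Pool.Agent.T2h48.DW

open Pool.Agent.N867.AS Pool.Agent.N867.AS.Res Pool.Agent.N867.AS.Tr

/-- the product formula for an integer -/
theorem one_le_norm_mul {p : ℕ} [hp : Fact p.Prime] {w : ℤ} (hw : w ≠ 0) :
    1 ≤ ‖(w : PadicAlgCl p)‖ * |(w : ℝ)| := by
  have h1 : ‖(w : PadicAlgCl p)‖ = ‖(w : ℚ_[p])‖ := by
    rw [← PadicAlgCl.norm_extends]
    congr 1
  rw [h1]
  have h2 : ‖(w : ℚ_[p])‖ = (p : ℝ) ^ (-(padicValInt p w : ℤ)) := by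
    have h3 : ((w : ℚ_[p])) = (((w : ℚ)) : ℚ_[p]) := by push_cast; rfl
    rw [h3, Padic.eq_padicNorm, padicNorm.eq_zpow_of_nonzero (by exact_mod_cast hw),
      padicValRat.of_int]
    push_cast
    rfl
  rw [h2, zpow_neg, zpow_natCast]
  have hpos : (0 : ℝ) < (p : ℝ) ^ padicValInt p w := pow_pos (by exact_mod_cast hp.1.pos) _
  rw [inv_mul_eq_div, le_div_iff₀ hpos, one_mul]
  have h4 : p ^ padicValInt p w ≤ w.natAbs := by
    refine Nat.le_of_dvd (Int.natAbs_pos.2 hw) ?_
    rw [padicValInt]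
    exact pow_padicValNat_dvd
  have h5 : |(w : ℝ)| = ((w.natAbs : ℕ) : ℝ) := by
    rw [Nat.cast_natAbs]
    push_cast
    rfl
  rw [h5]
  exact_mod_cast h4

theorem norm_coeff_mul_le {K : Type*} [NormedField K] [IsUltrametricDist K] {F H : PowerSeries K}
    {n : ℕ} {c : ℝ} (hc : 0 ≤ c)
    (h : ∀ i j, i + j = n → ‖PowerSeries.coeff i F‖ * ‖PowerSeries.coeff j H‖ ≤ c) :
    ‖PowerSeries.coeff n (F * H)‖ ≤ c := by
  rw [PowerSeries.coeff_mul]
  refine IsUltrametricDist.norm_sum_le_of_forall_le_of_nonneg hc fun x hx => ?_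
  rw [norm_mul]
  exact h _ _ (Finset.HasAntidiagonal.mem_antidiagonal.1 hx)

theorem t_RAT (hF : S_FACT) : S_RAT := by
  classical
  intro p hp z G hz hM
  -- WLOG `1 ≤ G`
  obtain ⟨g, hg1, hg⟩ : ∃ g : ℕ, 1 ≤ g ∧ ∀ i, |z i| ≤ (g : ℤ) ^ (i + 1) := by
    refine ⟨max G 1, le_max_right _ _, fun i => (hz i).trans ?_⟩
    exact pow_le_pow_left₀ (by positivity) (by exact_mod_cast le_max_left _ _) _
  obtain ⟨R, hR⟩ : ∃ R : ℝ, R = 2 * (g : ℝ) ^ 2 := ⟨_, rfl⟩
  have hgr : (1 : ℝ) ≤ g := by exact_mod_cast hg1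
  have hR1 : 1 ≤ R := by
    rw [hR]
    nlinarith [one_le_pow₀ hgr (n := 2)]
  have hR0 : 0 < R := by linarith
  obtain ⟨C, hC⟩ := hM (2 * R) (by linarith)
  obtain ⟨e, he⟩ := hF p R C hR0
  obtain ⟨E, hE⟩ : ∃ E, E = e + 1 := ⟨_, rfl⟩
  obtain ⟨K0, hK0⟩ : ∃ K0 : ℝ, K0 = max C 1 := ⟨_, rfl⟩
  have hK01 : 1 ≤ K0 := by rw [hK0]; exact le_max_right _ _
  have hK0C : C ≤ K0 := by rw [hK0]; exact le_max_left _ _
  -- the size of `s`
  obtain ⟨s, hs1, hs2⟩ : ∃ s : ℕ, 2 * E ≤ s ∧
      4 * (E : ℝ) ^ 2 * (g : ℝ) ^ (E + 2) * K0 * R ^ (2 * E) < 2 ^ s := by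
    obtain ⟨s, hs⟩ := pow_unbounded_of_one_lt
      (4 * (E : ℝ) ^ 2 * (g : ℝ) ^ (E + 2) * K0 * R ^ (2 * E)) (one_lt_two)
    refine ⟨s + 2 * E, by omega, hs.trans_le ?_⟩
    exact pow_le_pow_right₀ one_le_two (by omega)
  -- Siegel's lemma
  obtain ⟨A, hA⟩ : ∃ A : Matrix (Fin E) (Fin (2 * E)) ℤ, ∀ i l, A i l = z (s + i - l) :=
    ⟨fun i l => z (s + i - l), fun _ _ => rfl⟩
  obtain ⟨t, ht0, htA, htn⟩ : ∃ t : Fin (2 * E) → ℤ, t ≠ 0 ∧ A.mulVec t = 0 ∧
      ∀ l, |(t l : ℝ)| ≤ 2 * E * (g : ℝ) ^ (s + E + 1) := by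
    let _ : SeminormedAddCommGroup (Matrix (Fin E) (Fin (2 * E)) ℤ) := Matrix.seminormedAddCommGroup
    obtain ⟨t, ht0, htA, htn⟩ := Int.Matrix.exists_ne_zero_int_vec_norm_le A
      (by rw [Fintype.card_fin, Fintype.card_fin]; omega) (by rw [Fintype.card_fin]; omega)
    refine ⟨t, ht0, htA, fun l => ?_⟩
    rw [Fintype.card_fin, Fintype.card_fin] at htn
    have h1 : ((E : ℕ) : ℝ) / (((2 * E : ℕ) : ℝ) - (E : ℝ)) = 1 := by
      push_cast
      rw [show (2 : ℝ) * E - E = E by ring]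
      refine div_self ?_
      rw [hE]
      positivity
    rw [h1, Real.rpow_one] at htn
    have h2 : ‖A‖ ≤ (g : ℝ) ^ (s + E + 1) := by
      refine (Matrix.norm_le_iff (by positivity)).2 fun i l => ?_
      rw [hA, Int.norm_eq_abs]
      have h3 := hg (s + i - l)
      have h4 : |((z (s + i - l) : ℤ) : ℝ)| ≤ (g : ℝ) ^ (s + i - l + 1) := by exact_mod_cast h3
      refine h4.trans (pow_le_pow_right₀ hgr ?_)
      have := i.2
      omega
    have h5 : ‖t l‖ ≤ ‖t‖ := norm_le_pi_norm t l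
    rw [Int.norm_eq_abs] at h5
    refine h5.trans (htn.trans ?_)
    push_cast
    refine mul_le_mul_of_nonneg_left ?_ (by positivity)
    exact max_le (one_le_pow₀ hgr) h2
  -- the polynomial
  obtain ⟨T, hT⟩ : ∃ T : Polynomial ℤ, T = ∑ l : Fin (2 * E), Polynomial.monomial (l : ℕ) (t l) :=
    ⟨_, rfl⟩
  have hTc : ∀ l : Fin (2 * E), T.coeff l = t l := by
    intro l
    rw [hT, Polynomial.finsetSum_coeff, Finset.sum_eq_single l]
    · rw [Polynomial.coeff_monomial, if_pos rfl]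
    · intro j _ hj
      rw [Polynomial.coeff_monomial, if_neg (fun h => hj (Fin.ext h))]
    · intro h
      exact absurd (Finset.mem_univ l) h
  have hTc0 : ∀ l, 2 * E ≤ l → T.coeff l = 0 := by
    intro l hl
    rw [hT, Polynomial.finsetSum_coeff]
    refine Finset.sum_eq_zero fun j _ => ?_
    rw [Polynomial.coeff_monomial, if_neg (by have := j.2; omega)]
  have hT0 : T ≠ 0 := by
    intro h
    apply ht0
    funext l
    rw [← hTc l, h, Polynomial.coeff_zero, Pi.zero_apply]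
  obtain ⟨w, hw⟩ : ∃ w : PowerSeries ℤ, w = PowerSeries.mk z * (T : PowerSeries ℤ) := ⟨_, rfl⟩
  have hwc : ∀ n, 2 * E ≤ n → PowerSeries.coeff n w = ∑ l : Fin (2 * E), t l * z (n - l) := by
    intro n hn
    rw [hw, mul_comm, PowerSeries.coeff_mul,
      Finset.Nat.sum_antidiagonal_eq_sum_range_succ
        (fun i j => PowerSeries.coeff i (T : PowerSeries ℤ) * PowerSeries.coeff j (PowerSeries.mk z))]
    rw [← Finset.sum_subset (Finset.range_subset_range.2 (by omega : 2 * E ≤ n + 1))]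
    · rw [Finset.sum_range]
      refine Finset.sum_congr rfl fun l _ => ?_
      rw [Polynomial.coeff_coe, hTc, PowerSeries.coeff_mk]
    · intro l _ hl
      rw [Finset.mem_range, not_lt] at hl
      rw [Polynomial.coeff_coe, hTc0 l hl, zero_mul]
  -- the first window
  have hwin : ∀ i < E, PowerSeries.coeff (s + i) w = 0 := by
    intro i hi
    rw [hwc _ (by omega)]
    have h1 := congrFun htA ⟨i, hi⟩
    rw [Matrix.mulVec, dotProduct, Pi.zero_apply] at h1
    rw [← h1]
    refine Finset.sum_congr rfl fun l _ => ?_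
    rw [hA]
    ring
  -- archimedean bound
  have harch : ∀ n, s ≤ n → |((PowerSeries.coeff n w : ℤ) : ℝ)| ≤
      4 * (E : ℝ) ^ 2 * (g : ℝ) ^ (E + 2) * ((g : ℝ) ^ 2) ^ n := by
    intro n hn
    rw [hwc n (by omega)]
    push_cast
    refine (Finset.abs_sum_le_sum_abs _ _).trans ?_
    have h1 : ∀ l ∈ (Finset.univ : Finset (Fin (2 * E))), |(t l : ℝ) * (z (n - l) : ℝ)| ≤
        (2 * E * (g : ℝ) ^ (s + E + 1)) * (g : ℝ) ^ (n + 1) := by
      intro l _
      rw [abs_mul]
      refine mul_le_mul (htn l) ?_ (abs_nonneg _) (by positivity)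
      have h4 : |((z (n - l) : ℤ) : ℝ)| ≤ (g : ℝ) ^ (n - l + 1) := by exact_mod_cast hg (n - l)
      exact h4.trans (pow_le_pow_right₀ hgr (by omega))
    refine (Finset.sum_le_card_nsmul _ _ _ h1).trans ?_
    rw [Finset.card_univ, Fintype.card_fin, nsmul_eq_mul]
    push_cast
    calc 2 * (E : ℝ) * (2 * E * (g : ℝ) ^ (s + E + 1) * (g : ℝ) ^ (n + 1)) =
        4 * (E : ℝ) ^ 2 * (g : ℝ) ^ ((s + E + 1) + (n + 1)) := by rw [pow_add]; ring
      _ ≤ 4 * (E : ℝ) ^ 2 * (g : ℝ) ^ ((E + 2) + 2 * n) :=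
          mul_le_mul_of_nonneg_left (pow_le_pow_right₀ hgr (by omega)) (by positivity)
      _ = _ := by rw [pow_add, pow_mul]; ring
  -- the `p`-adic bound
  have hpad : ∀ n, s + E ≤ n → (∀ i, s ≤ i → i < n → PowerSeries.coeff i w = 0) →
      ‖((PowerSeries.coeff n w : ℤ) : PadicAlgCl p)‖ * R ^ n ≤ K0 * R ^ (2 * E) := by
    intro n hn hzero
    obtain ⟨A', B', hB0, hA', hB', hAB⟩ := hC ((R ^ n)⁻¹) (by positivity) n
    obtain ⟨P, U, hP0, hPd, hBU, hU⟩ := he B' hB0 hB'
    obtain ⟨zK, hzK⟩ : ∃ zK : PowerSeries (PadicAlgCl p), zK =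
      PowerSeries.mk (fun n => (z n : PadicAlgCl p)) := ⟨_, rfl⟩
    rw [← hzK] at hAB
    obtain ⟨D, hD⟩ : ∃ D : PowerSeries (PadicAlgCl p), D = zK * (B' : PowerSeries (PadicAlgCl p)) -
      (A' : PowerSeries (PadicAlgCl p)) := ⟨_, rfl⟩
    rw [← hD] at hAB
    have hzP : zK * (P : PowerSeries (PadicAlgCl p)) =
        (A' : PowerSeries (PadicAlgCl p)) * U + D * U := by
      rw [← hBU, hD]
      ring
    -- coefficients of `zK * P`
    have hzPc : ∀ i ≤ n, ‖PowerSeries.coeff i (zK * (P : PowerSeries (PadicAlgCl p)))‖ * R ^ i ≤ K0 := by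
      intro i hi
      have hRi : 0 < R ^ i := pow_pos hR0 i
      rw [← le_div_iff₀ hRi, hzP, map_add]
      refine (IsUltrametricDist.norm_add_le_max _ _).trans (max_le ?_ ?_)
      · refine norm_coeff_mul_le (by positivity) fun a b hab => ?_
        rw [le_div_iff₀ hRi, ← hab, pow_add]
        have h1 : ‖PowerSeries.coeff a (A' : PowerSeries (PadicAlgCl p))‖ * R ^ a ≤ K0 := by
          refine le_trans ?_ ((hA' a).trans hK0C)
          rw [Polynomial.coeff_coe]
          refine mul_le_mul_of_nonneg_left ?_ (norm_nonneg _)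
          exact pow_le_pow_left₀ hR0.le (by linarith) _
        calc _ = (‖PowerSeries.coeff a (A' : PowerSeries (PadicAlgCl p))‖ * R ^ a) *
              (‖PowerSeries.coeff b U‖ * R ^ b) := by ring
          _ ≤ K0 * 1 := mul_le_mul h1 (hU b) (by positivity) (by linarith)
          _ = K0 := mul_one _
      · refine norm_coeff_mul_le (by positivity) fun a b hab => ?_
        have h1 := hAB a (by omega)
        have h2 : ‖PowerSeries.coeff b U‖ ≤ 1 := by
          refine le_trans ?_ (hU b)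
          exact le_mul_of_one_le_right (norm_nonneg _) (one_le_pow₀ hR1)
        calc _ ≤ (R ^ n)⁻¹ * 1 := mul_le_mul h1 h2 (norm_nonneg _) (by positivity)
          _ ≤ (R ^ i)⁻¹ := by
              rw [mul_one]
              exact inv_anti₀ hRi (pow_le_pow_right₀ hR1 hi)
          _ ≤ K0 / R ^ i := by
              rw [div_eq_mul_inv]
              exact le_mul_of_one_le_left (by positivity) hK01
    -- the product `w * P`
    obtain ⟨TK, hTK⟩ : ∃ TK : PowerSeries (PadicAlgCl p), TK =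
      PowerSeries.map (Int.castRingHom (PadicAlgCl p)) (T : PowerSeries ℤ) := ⟨_, rfl⟩
    have hwK : PowerSeries.map (Int.castRingHom (PadicAlgCl p)) w = zK * TK := by
      rw [hw, map_mul, hTK]
      congr 1
      ext i
      rw [PowerSeries.coeff_map, PowerSeries.coeff_mk, hzK, PowerSeries.coeff_mk, eq_intCast]
    have hprod : PowerSeries.coeff n (PowerSeries.map (Int.castRingHom (PadicAlgCl p)) w *
        (P : PowerSeries (PadicAlgCl p))) = ((PowerSeries.coeff n w : ℤ) : PadicAlgCl p) := by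
      rw [PowerSeries.coeff_mul, Finset.sum_eq_single (n, 0)]
      · rw [PowerSeries.coeff_map, eq_intCast, Polynomial.coeff_coe, hP0, mul_one]
      · rintro ⟨a, b⟩ hab hne
        rw [Finset.HasAntidiagonal.mem_antidiagonal] at hab
        simp only at hab ⊢
        rcases Nat.lt_or_ge e b with hb | hb
        · rw [Polynomial.coeff_coe, Polynomial.coeff_eq_zero_of_natDegree_lt (by omega), mul_zero]
        · have hb0 : b ≠ 0 := by
            rintro rfl
            apply hne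
            rw [Prod.mk.injEq]
            exact ⟨by omega, rfl⟩
          rw [PowerSeries.coeff_map, hzero a (by omega) (by omega), map_zero, zero_mul]
      · intro h
        exact absurd (Finset.HasAntidiagonal.mem_antidiagonal.2 (by simp)) h
    rw [← hprod, hwK, mul_assoc, mul_comm TK, ← mul_assoc, ← le_div_iff₀ (pow_pos hR0 n)]
    refine norm_coeff_mul_le (by positivity) fun a b hab => ?_
    rw [le_div_iff₀ (pow_pos hR0 n)]
    by_cases hb : 2 * E ≤ b
    · have h1 : PowerSeries.coeff b TK = 0 := by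
        rw [hTK, PowerSeries.coeff_map, Polynomial.coeff_coe, hTc0 b hb, map_zero]
      rw [h1, norm_zero, mul_zero, zero_mul]
      positivity
    · have h1 : ‖PowerSeries.coeff b TK‖ ≤ 1 := by
        rw [hTK, PowerSeries.coeff_map, eq_intCast]
        exact IsUltrametricDist.norm_intCast_le_one _ _
      have h2 := hzPc a (by omega)
      calc _ = (‖PowerSeries.coeff a (zK * (P : PowerSeries (PadicAlgCl p)))‖ * R ^ a) *
            (‖PowerSeries.coeff b TK‖ * R ^ b) := by rw [← hab, pow_add]; ring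
        _ ≤ K0 * (1 * R ^ (2 * E)) := by
            refine mul_le_mul h2 ?_ (by positivity) (by linarith)
            refine mul_le_mul h1 ?_ (by positivity) zero_le_one
            exact pow_le_pow_right₀ hR1 (by omega)
        _ = _ := by ring
  -- all coefficients vanish
  have hvan : ∀ n, s ≤ n → PowerSeries.coeff n w = 0 := by
    intro n
    induction n using Nat.strong_induction_on with
    | _ n ih =>
      intro hn
      rcases Nat.lt_or_ge n (s + E) with h | h
      · obtain ⟨i, rfl⟩ : ∃ i, n = s + i := ⟨n - s, by omega⟩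
        exact hwin i (by omega)
      · by_contra hne
        have h1 := hpad n h (fun i hi hin => ih i hin hi)
        have h2 := harch n hn
        have h3 := one_le_norm_mul (p := p) hne
        have h4 : ((g : ℝ) ^ 2) ^ n * 2 ^ n = R ^ n := by
          rw [hR, mul_pow, mul_comm]
        have h5 : (2 : ℝ) ^ s ≤ 2 ^ n := pow_le_pow_right₀ one_le_two hn
        have h6 : (0 : ℝ) < ((g : ℝ) ^ 2) ^ n := by positivity
        -- `2 ^ n ≤ ...`
        have h7 : (2 : ℝ) ^ n ≤ 4 * (E : ℝ) ^ 2 * (g : ℝ) ^ (E + 2) * K0 * R ^ (2 * E) := by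
          have hN : 0 ≤ ‖((PowerSeries.coeff n w : ℤ) : PadicAlgCl p)‖ := norm_nonneg _
          have h8 : 1 ≤ ‖((PowerSeries.coeff n w : ℤ) : PadicAlgCl p)‖ *
              (4 * (E : ℝ) ^ 2 * (g : ℝ) ^ (E + 2) * ((g : ℝ) ^ 2) ^ n) :=
            h3.trans (mul_le_mul_of_nonneg_left h2 hN)
          have h9 : (2 : ℝ) ^ n ≤ (2 : ℝ) ^ n * (‖((PowerSeries.coeff n w : ℤ) : PadicAlgCl p)‖ *
              (4 * (E : ℝ) ^ 2 * (g : ℝ) ^ (E + 2) * ((g : ℝ) ^ 2) ^ n)) :=
            le_mul_of_one_le_right (by positivity) h8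
          refine h9.trans ?_
          calc (2 : ℝ) ^ n * (‖((PowerSeries.coeff n w : ℤ) : PadicAlgCl p)‖ *
              (4 * (E : ℝ) ^ 2 * (g : ℝ) ^ (E + 2) * ((g : ℝ) ^ 2) ^ n)) =
              (4 * (E : ℝ) ^ 2 * (g : ℝ) ^ (E + 2)) *
                (‖((PowerSeries.coeff n w : ℤ) : PadicAlgCl p)‖ * (((g : ℝ) ^ 2) ^ n * 2 ^ n)) := by
                ring
            _ ≤ (4 * (E : ℝ) ^ 2 * (g : ℝ) ^ (E + 2)) * (K0 * R ^ (2 * E)) := by
                rw [h4]
                exact mul_le_mul_of_nonneg_left h1 (by positivity)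
            _ = _ := by ring
        linarith
  -- conclusion
  refine ⟨(PowerSeries.trunc s w).map (Int.castRingHom ℚ), T.map (Int.castRingHom ℚ), ?_, ?_⟩
  · rw [Ne, Polynomial.map_eq_zero_iff (RingHom.injective_int _)]
    exact hT0
  · have h1 : w = ((PowerSeries.trunc s w : Polynomial ℤ) : PowerSeries ℤ) := by
      ext n
      rw [Polynomial.coeff_coe, PowerSeries.coeff_trunc]
      split_ifs with h
      · rfl
      · exact hvan n (not_lt.1 h)
    have h2 : PowerSeries.mk (fun n => (z n : ℚ)) =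
        PowerSeries.map (Int.castRingHom ℚ) (PowerSeries.mk z) := by
      ext n
      simp
    rw [h2, Polynomial.polynomial_map_coe, Polynomial.polynomial_map_coe, ← map_mul, ← hw, ← h1]

end Pool.Agent.T2h48.DW
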