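import Pool.Agent.T2h48.DW.Stm

/-!
# Tasks SPLIT and DIR
-/

set_option autoImplicit false

namespace Pool.Agent.T2h48.DW

namespace Sp

/-- a finitely generated abelian group: quotient by the torsion, free -/
theorem exists_split (M : Type) [AddCommGroup M] [Module.Finite ℤ M] :
    ∃ (n : ℕ) (π : M →ₗ[ℤ] (Fin n → ℤ)) (s : (Fin n → ℤ) →ₗ[ℤ] M) (N : ℕ), 1 ≤ N ∧
      (∀ v, π (s v) = v) ∧ (∀ x, π x = 0 → N • x = 0) := by
  classical
  have hfree : Module.Free ℤ (M ⧸ Submodule.torsion ℤ M) :=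
    Module.free_of_finite_type_torsion_free'
  have hfin : Module.Finite ℤ (M ⧸ Submodule.torsion ℤ M) := inferInstance
  let b := Module.finBasis ℤ (M ⧸ Submodule.torsion ℤ M)
  let π : M →ₗ[ℤ] (Fin (Module.finrank ℤ (M ⧸ Submodule.torsion ℤ M)) → ℤ) :=
    b.equivFun.toLinearMap ∘ₗ (Submodule.torsion ℤ M).mkQ
  have hπ : Function.Surjective π := by
    intro v
    obtain ⟨x, hx⟩ := (Submodule.torsion ℤ M).mkQ_surjective (b.equivFun.symm v)
    exact ⟨x, by simp only [π, LinearMap.comp_apply, hx, LinearEquiv.coe_coe,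
      LinearEquiv.apply_symm_apply]⟩
  obtain ⟨s, hs⟩ := Module.projective_lifting_property π LinearMap.id hπ
  have hT : _root_.Finite (Submodule.torsion ℤ M) := by
    have : Module.Finite ℤ (Submodule.torsion ℤ M) := inferInstance
    exact Module.finite_of_fg_torsion _ (Submodule.torsion_isTorsion)
  refine ⟨_, π, s, Nat.card (Submodule.torsion ℤ M), Nat.card_pos, fun v => ?_, fun x hx => ?_⟩
  · have := LinearMap.congr_fun hs v
    simpa using this
  · have h1 : (Submodule.torsion ℤ M).mkQ x = 0 := by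
      simp only [π, LinearMap.comp_apply, LinearEquiv.coe_coe] at hx
      exact (LinearEquiv.map_eq_zero_iff _).mp hx
    have h2 : x ∈ Submodule.torsion ℤ M := by
      rwa [Submodule.mkQ_apply, Submodule.Quotient.mk_eq_zero] at h1
    have h3 : Nat.card (Submodule.torsion ℤ M) • (⟨x, h2⟩ : Submodule.torsion ℤ M) = 0 :=
      card_nsmul_eq_zero'
    have h4 := congrArg (Submodule.subtype _) h3
    simpa using h4

theorem fin_closure (S : Finset ℂˣ) :
    Module.Finite ℤ (Additive (Subgroup.closure (S : Set ℂˣ))) := by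
  have h1 : Group.FG (Subgroup.closure (S : Set ℂˣ)) := by
    rw [Group.fg_iff_subgroup_fg]
    exact ⟨S, rfl⟩
  have h2 : AddGroup.FG (Additive (Subgroup.closure (S : Set ℂˣ))) := by
    infer_instance
  exact Module.Finite.iff_addGroup_fg.mpr h2

end Sp

open Sp

theorem t_SPLIT : S_SPLIT := by
  intro S
  have := fin_closure S
  obtain ⟨n, π, s, N, hN, hπs, hker⟩ := exists_split (Additive (Subgroup.closure (S : Set ℂˣ)))
  let τ₀ : Additive (Subgroup.closure (S : Set ℂˣ)) →+ Additive (Subgroup.closure (S : Set ℂˣ)) :=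
    (LinearMap.id - s ∘ₗ π).toAddMonoidHom
  let τ₁ : Subgroup.closure (S : Set ℂˣ) →* Subgroup.closure (S : Set ℂˣ) :=
    AddMonoidHom.toMultiplicative τ₀
  have hτ₁ : ∀ γ, τ₁ γ = (Additive.ofMul γ - s (π (Additive.ofMul γ))).toMul := fun γ => rfl
  refine ⟨N, (Subgroup.subtype _).comp τ₁, hN, fun γ => ?_, fun γ hγ => ?_⟩
  · have h1 : N • (Additive.ofMul γ - s (π (Additive.ofMul γ))) = 0 := by
      apply hker
      rw [map_sub, hπs, sub_self]
    have h2 : τ₁ γ ^ N = 1 := by
      rw [hτ₁]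
      exact h1
    have h3 := congrArg (Subgroup.subtype _) h2
    rw [map_pow, map_one] at h3
    exact h3
  · have h1 : π (Additive.ofMul γ) = 0 := by
      obtain ⟨k, hk, hk1⟩ := isOfFinOrder_iff_pow_eq_one.mp hγ
      have h2 : (k : ℤ) • π (Additive.ofMul γ) = 0 := by
        rw [← map_smul, natCast_zsmul, ← ofMul_pow, hk1, ofMul_one, map_zero]
      exact (smul_eq_zero.mp h2).resolve_left (by exact_mod_cast hk.ne')
    have h2 : γ ^ N = 1 := hker (Additive.ofMul γ) h1
    refine ⟨?_, ?_⟩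
    · have h3 := congrArg (Subgroup.subtype _) h2
      rw [map_pow, map_one] at h3
      exact h3
    · rw [MonoidHom.comp_apply, hτ₁, h1, map_zero, sub_zero]
      rfl

theorem t_DIR : S_DIR := by
  intro S E hE
  have := fin_closure S
  obtain ⟨n, π, s, N, hN, hπs, hker⟩ := exists_split (Additive (Subgroup.closure (S : Set ℂˣ)))
  -- the logarithm
  let L : Additive (Subgroup.closure (S : Set ℂˣ)) →+ ℝ :=
    { toFun := fun γ => Real.log ‖((γ.toMul : ℂˣ) : ℂ)‖
      map_zero' := by simp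
      map_add' := by
        intro a b
        have ha : ‖((a.toMul : ℂˣ) : ℂ)‖ ≠ 0 := by simp
        have hb : ‖((b.toMul : ℂˣ) : ℂ)‖ ≠ 0 := by simp
        rw [toMul_add, Subgroup.coe_mul, Units.val_mul, norm_mul, Real.log_mul ha hb] }
  have hL : ∀ x, L x = L (s (π x)) := by
    intro x
    have h1 : N • (x - s (π x)) = 0 := by
      apply hker
      rw [map_sub, hπs, sub_self]
    have h2 : (N : ℝ) * L (x - s (π x)) = 0 := by
      rw [← nsmul_eq_mul, ← map_nsmul, h1, map_zero]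
    have h3 : L (x - s (π x)) = 0 :=
      (mul_eq_zero.mp h2).resolve_left (by exact_mod_cast (by omega : N ≠ 0))
    rw [map_sub, sub_eq_zero] at h3
    exact h3
  let ℓ : Fin n → ℝ := fun i => L (s (Pi.single i 1))
  have hL2 : ∀ x, L x = ∑ i, (π x i : ℝ) * ℓ i := by
    intro x
    rw [hL x]
    conv_lhs => rw [← Finset.univ_sum_single (π x)]
    rw [map_sum, map_sum]
    refine Finset.sum_congr rfl fun i _ => ?_
    have h1 : (Pi.single i (π x i) : Fin n → ℤ) = (π x i) • Pi.single i 1 := by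
      rw [← Pi.single_smul, smul_eq_mul, mul_one]
    rw [h1, map_smul, map_zsmul, zsmul_eq_mul]
  -- bound the error
  have hev : ∀ γ ∈ E, ∀ᶠ M : ℕ in Filter.atTop,
      ∑ i, (π (Additive.ofMul γ) i : ℝ) * (round ((M : ℝ) * ℓ i) : ℝ) < 0 := by
    intro γ hγ
    have h1 : L (Additive.ofMul γ) < 0 := by
      change Real.log ‖((γ : ℂˣ) : ℂ)‖ < 0
      exact Real.log_neg (by simp) (hE γ hγ)
    have h2 : Filter.Tendsto (fun M : ℕ => (M : ℝ) * L (Additive.ofMul γ) +
        ∑ i, |(π (Additive.ofMul γ) i : ℝ)|) Filter.atTop Filter.atBot := by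
      apply Filter.tendsto_atBot_add_const_right
      exact Filter.Tendsto.atTop_mul_const_of_neg h1 tendsto_natCast_atTop_atTop
    filter_upwards [h2.eventually_lt_atBot 0] with M hM
    refine lt_of_le_of_lt ?_ hM
    rw [hL2, Finset.mul_sum, ← Finset.sum_add_distrib]
    refine Finset.sum_le_sum fun i _ => ?_
    have h3 : |(round ((M : ℝ) * ℓ i) : ℝ) - (M : ℝ) * ℓ i| ≤ 1 := by
      rw [abs_sub_comm]
      exact (abs_sub_round _).trans (by norm_num)
    have h4 : (π (Additive.ofMul γ) i : ℝ) * ((round ((M : ℝ) * ℓ i) : ℝ) - (M : ℝ) * ℓ i) ≤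
        |(π (Additive.ofMul γ) i : ℝ)| := by
      refine (le_abs_self _).trans ?_
      rw [abs_mul]
      exact mul_le_of_le_one_right (abs_nonneg _) h3
    nlinarith [h4]
  obtain ⟨M, hM⟩ := ((Filter.eventually_all_finset E).mpr hev).exists
  let e₀ : (Fin n → ℤ) →ₗ[ℤ] ℤ := ∑ i, (round ((M : ℝ) * ℓ i)) • LinearMap.proj i
  refine ⟨AddMonoidHom.toMultiplicativeRight ((e₀ ∘ₗ π).toAddMonoidHom), fun γ hγ => ?_⟩
  have h1 := hM γ hγ
  change e₀ (π (Additive.ofMul γ)) < 0
  have h2 : ((e₀ (π (Additive.ofMul γ)) : ℤ) : ℝ) =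
      ∑ i, (π (Additive.ofMul γ) i : ℝ) * (round ((M : ℝ) * ℓ i) : ℝ) := by
    simp only [e₀, LinearMap.sum_apply, LinearMap.smul_apply, LinearMap.proj_apply, smul_eq_mul,
      Int.cast_sum, Int.cast_mul]
    exact Finset.sum_congr rfl fun i _ => mul_comm _ _
  rw [← h2] at h1
  exact_mod_cast h1

end Pool.Agent.T2h48.DW
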