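import Pool.Agent.T2h48.DW.Stm
import Pool.Agent.N867.AS.Bounds

/-!
# The sum over the Teichmueller points as an alternating sum of traces
-/

set_option autoImplicit false
set_option linter.unusedSectionVars false

namespace Pool.Agent.T2h48.DW

open Pool.Agent.N867.AS Pool.Agent.N867.AS.Res Pool.Agent.N867.AS.Tr

namespace TraceAux

open MvPolynomial

variable {p : ℕ} [hp : Fact p.Prime] {σ : Type} [Fintype σ] [DecidableEq σ]

theorem eval_Pi' {R : Type} [CommRing R] (Q : ℕ) (G : MvPolynomial σ R) (L : ℕ) (x : σ → R) :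
    eval x (Pi Q (fun _ : Unit => G) id L ()) =
      ∏ j ∈ Finset.range L, eval (fun i => x i ^ Q ^ j) G := by
  induction L generalizing x with
  | zero => simp [Pi]
  | succ L ih =>
    rw [Pi, map_mul, eval_expand]
    have h := ih (x ^ Q)
    rw [show (id () : Unit) = () from rfl, h, Finset.prod_range_succ', mul_comm]
    congr 1
    · refine Finset.prod_congr rfl fun j _ => ?_
      congr 2
      funext i
      rw [Pi.pow_apply, ← pow_mul, pow_succ']
    · simp

/-- the factors -/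
noncomputable def Gj {f : MvPolynomial σ (k p)} {s : ℕ} (D : Lifts p f s) (N : ℕ)
    (γ : PadicAlgCl p) (j : ℕ) : MvPolynomial σ (PadicAlgCl p) :=
  ∏ μ ∈ f.support, Gpoly N γ μ (D.c μ ^ p ^ j)

/-- the polynomial of the Dwork operator over the field with `p ^ s` elements -/
noncomputable def Gs {f : MvPolynomial σ (k p)} {s : ℕ} (D : Lifts p f s) (N : ℕ)
    (γ : PadicAlgCl p) : MvPolynomial σ (PadicAlgCl p) :=
  ∏ j ∈ Finset.range s, expand (p ^ j) (Gj D N γ j)

theorem eval_Gs {f : MvPolynomial σ (k p)} {s : ℕ} (D : Lifts p f s) (N : ℕ)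
    (γ : PadicAlgCl p) (x : σ → PadicAlgCl p) :
    eval x (Gs D N γ) = ∏ j ∈ Finset.range s, ∏ μ ∈ f.support,
      (Split.Theta p N γ).eval ((D.c μ * ∏ i, x i ^ μ i) ^ p ^ j) := by
  rw [Gs, map_prod]
  refine Finset.prod_congr rfl fun j _ => ?_
  rw [eval_expand, Gj, map_prod]
  refine Finset.prod_congr rfl fun μ _ => ?_
  rw [eval_Gpoly]
  congr 1
  rw [mul_pow, ← Finset.prod_pow]
  congr 1
  refine Finset.prod_congr rfl fun i _ => ?_
  rw [Pi.pow_apply, ← pow_mul, ← pow_mul, mul_comm]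

theorem prod_range_mul {M : Type*} [CommMonoid M] (F : ℕ → M) (s m : ℕ) :
    ∏ l ∈ Finset.range (s * m), F l =
      ∏ i ∈ Finset.range m, ∏ j ∈ Finset.range s, F (s * i + j) := by
  induction m with
  | zero => simp
  | succ m ih => rw [Nat.mul_succ, Finset.prod_range_add, ih, Finset.prod_range_succ]

theorem eval_Pi_Gs {f : MvPolynomial σ (k p)} {s : ℕ} (D : Lifts p f s) (N : ℕ)
    (γ : PadicAlgCl p) (m : ℕ) (x : σ → PadicAlgCl p) :
    eval x (Pi (p ^ s) (fun _ : Unit => Gs D N γ) id m ()) =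
      ∏ μ ∈ f.support, ∏ j ∈ Finset.range (s * m),
        (Split.Theta p N γ).eval ((D.c μ * ∏ i, x i ^ μ i) ^ p ^ j) := by
  rw [eval_Pi', Finset.prod_comm, prod_range_mul]
  refine Finset.prod_congr rfl fun i _ => ?_
  rw [eval_Gs]
  refine Finset.prod_congr rfl fun j _ => Finset.prod_congr rfl fun μ _ => ?_
  congr 1
  have hc : ∀ i, D.c μ ^ p ^ (s * i) = D.c μ := by
    intro i
    induction i with
    | zero => simp
    | succ i ih => rw [Nat.mul_succ, pow_add, pow_mul, ih, D.hc]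
  have h1 : (D.c μ * ∏ l, (x l ^ (p ^ s) ^ i) ^ μ l) = (D.c μ * ∏ l, x l ^ μ l) ^ p ^ (s * i) := by
    rw [mul_pow, hc i, ← Finset.prod_pow]
    congr 1
    refine Finset.prod_congr rfl fun l _ => ?_
    rw [← pow_mul, ← pow_mul, ← pow_mul, mul_comm]
  rw [h1, ← pow_mul, ← pow_add]

theorem expand_P {ω : σ → ℕ} {r : ℝ} (hr : 0 < r) {q : ℕ} (hq : q ≠ 0)
    {A : MvPolynomial σ (PadicAlgCl p)} (h : Bd.P ω (r ^ q) 0 A) : Bd.P ω r 0 (expand q A) := by
  intro v
  by_cases hv : ∀ i, q ∣ v i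
  · obtain ⟨w, hw⟩ : ∃ w : σ →₀ ℕ, v = q • w := by
      refine ⟨Finsupp.equivFunOnFinite.symm fun i => v i / q, ?_⟩
      ext i
      simp only [Finsupp.smul_apply, smul_eq_mul, Finsupp.equivFunOnFinite_symm_apply_apply]
      exact (Nat.mul_div_cancel' (hv i)).symm
    rw [hw, coeff_expand_smul q hq, Bd.wt_smul]
    refine (h w).trans (le_of_eq ?_)
    rw [add_zero, add_zero, pow_mul]
  · push Not at hv
    obtain ⟨i, hi⟩ := hv
    rw [coeff_expand_of_not_dvd _ hi, norm_zero]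
    positivity

end TraceAux

open TraceAux in
theorem t_TRACE : S_TRACE := by
  intro p hp σ _ _ f s D g hs hg hg1
  classical
  obtain ⟨M, hM⟩ : ∃ M : ℕ, M = (∑ μ ∈ f.support, Bd.wt (fun _ => 1) μ) + 1 := ⟨_, rfl⟩
  have hMμ : ∀ μ ∈ f.support, Bd.wt (fun _ => 1) μ ≤ M := by
    intro μ hμ
    rw [hM]
    exact (Finset.single_le_sum (f := fun μ => Bd.wt (fun _ : σ => 1) μ)
      (fun _ _ => Nat.zero_le _) hμ).trans (Nat.le_succ _)
  have hMs : (p ^ s * M : ℕ) ≠ 0 := mul_ne_zero (pow_ne_zero _ hp.1.ne_zero) (by omega)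
  obtain ⟨r, hrdef⟩ : ∃ r : ℝ, r = g ^ (((p ^ s * M : ℕ) : ℝ)⁻¹) := ⟨_, rfl⟩
  have hr : 0 < r := by rw [hrdef]; exact Real.rpow_pos_of_pos hg _
  have hrg : r ^ (p ^ s * M) = g := by
    rw [hrdef]
    exact Real.rpow_inv_natCast_pow hg.le hMs
  have hr1 : r < 1 := by
    by_contra h
    push Not at h
    have := one_le_pow₀ (n := p ^ s * M) h
    rw [hrg] at this
    linarith
  refine ⟨r, hr, hr1, fun N γ hγ => ⟨Gs D N γ, ?_, ?_⟩⟩
  · have h1 : Bd.P (fun _ => 1) r 0 (Gs D N γ) := by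
      unfold Gs
      refine Bd.P.prod_zero hr _ fun j hj => ?_
      rw [Finset.mem_range] at hj
      refine expand_P hr (pow_ne_zero _ hp.1.ne_zero) ?_
      have hrj : 0 < r ^ p ^ j := by positivity
      unfold Gj
      refine Bd.P.prod_zero hrj _ fun μ hμ => ?_
      refine Bd.Gpoly_P (M := p ^ (s - j) * M) hrj (pow_le_one₀ hr.le hr1.le) ?_ ?_ ?_
      · rw [hγ, ← pow_mul, ← mul_assoc, ← pow_add, show j + (s - j) = s by omega, hrg]
      · exact (hMμ μ hμ).trans (Nat.le_mul_of_pos_left _ (pow_pos hp.1.pos _))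
      · rw [norm_pow]
        exact pow_le_one₀ (norm_nonneg _) (norm_le_one_of_pow (one_lt_Q hs) (D.hc μ))
    intro v
    have h2 := h1 v
    unfold Bd.wt at h2
    simpa only [one_mul, add_zero] using h2
  · intro B hB m hm
    have hQ2 : 2 ≤ p ^ s := one_lt_Q hs
    have hsup := Pi_support hQ2 (fun _ : Unit => Gs D N γ) id (fun _ => hB) m ()
    have hF : ∀ v ∈ (Pi (p ^ s) (fun _ : Unit => Gs D N γ) id m ()).support, ∀ i,
        v i ≤ B * (p ^ (s * m) - 1) := by
      intro v hv i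
      have := hsup v hv i
      rw [← pow_mul] at this
      rw [Nat.mul_sub, mul_one]
      omega
    have h1 := sum_eval (p := p) (mul_ne_zero hs hm) _ hF
    simp only [eval_Pi_Gs] at h1
    rw [h1]
    refine Finset.sum_congr rfl fun T _ => ?_
    congr 1
    rw [trace_pow_eq hQ2 (fun _ : Unit => Gs D N γ) id T (fun _ => hB) m]
    rw [Finset.filter_true_of_mem (fun _ _ => Subsingleton.elim _ _)]
    rw [Finset.univ_unique (α := Unit), Finset.sum_singleton, ← pow_mul]

end Pool.Agent.T2h48.DW
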