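import Pool.Agent.T2h48.DW.Stm

set_option autoImplicit false

namespace Pool.Agent.T2h48.DW

theorem t_VAL : S_VAL := by
  intro ℓ hℓ
  obtain ⟨A, hA⟩ : ∃ A : Subring ℂ, A = (Int.castRingHom ℂ).range := ⟨_, rfl⟩
  have hmem : ∀ n : ℤ, (n : ℂ) ∈ A := fun n => by
    rw [hA]
    exact ⟨n, rfl⟩
  have hℓA : (ℓ : ℂ) ∈ A := by exact_mod_cast hmem ℓ
  obtain ⟨I, hI⟩ : ∃ I : Ideal A, I = Ideal.span {(⟨(ℓ : ℂ), hℓA⟩ : A)} := ⟨_, rfl⟩
  have hI1 : I ≠ ⊤ := by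
    intro h
    rw [hI, Ideal.eq_top_iff_one, Ideal.mem_span_singleton] at h
    obtain ⟨c, hc⟩ := h
    have hmem' : ∀ x ∈ A, ∃ n : ℤ, (n : ℂ) = x := fun x hx => by
      rw [hA] at hx
      exact hx
    obtain ⟨n, hn⟩ := hmem' _ c.2
    have h2 := congrArg (fun x : A => (x : ℂ)) hc
    simp only [OneMemClass.coe_one, MulMemClass.coe_mul] at h2
    rw [← hn] at h2
    have h3 : (1 : ℤ) = (ℓ : ℤ) * n := by exact_mod_cast h2
    have h4 : (ℓ : ℤ) ∣ 1 := ⟨n, h3⟩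
    have h5 := Int.natCast_dvd_natCast.1 (by exact_mod_cast h4 : ((ℓ : ℕ) : ℤ) ∣ ((1 : ℕ) : ℤ))
    exact hℓ.one_lt.ne' (Nat.dvd_one.1 h5)
  obtain ⟨O, hAO, hIO⟩ := I.image_subset_nonunits_valuationSubring hI1
  refine ⟨O, ?_⟩
  have hℓ1 : O.valuation (ℓ : ℂ) < 1 := by
    rw [← ValuationSubring.mem_nonunits_iff]
    refine hIO ⟨⟨(ℓ : ℂ), hℓA⟩, ?_, rfl⟩
    rw [hI]
    exact Ideal.mem_span_singleton_self _
  have hint : ∀ n : ℤ, O.valuation (n : ℂ) ≤ 1 := fun n => by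
    rw [O.valuation_le_one_iff]
    exact hAO (hmem n)
  rintro a b ha hb ⟨c, hc, hab⟩
  by_contra hlt
  rw [not_le] at hlt
  have hp : Fact ℓ.Prime := ⟨hℓ⟩
  obtain ⟨a', ha'⟩ : ((ℓ : ℤ) ^ padicValInt ℓ a) ∣ a := by
    rw [padicValInt_dvd_iff]
    right
    exact le_rfl
  obtain ⟨b', hb'⟩ : ((ℓ : ℤ) ^ padicValInt ℓ b) ∣ b := by
    rw [padicValInt_dvd_iff]
    right
    exact le_rfl
  have hna : ¬ (ℓ : ℤ) ∣ a' := by
    rintro ⟨a'', rfl⟩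
    have h1 : ((ℓ : ℤ) ^ (padicValInt ℓ a + 1)) ∣ a := ⟨a'', by
      conv_lhs => rw [ha']
      ring⟩
    rw [padicValInt_dvd_iff] at h1
    rcases h1 with h1 | h1
    · exact ha h1
    · omega
  obtain ⟨j, hj⟩ : ∃ j, padicValInt ℓ b = padicValInt ℓ a + j + 1 :=
    ⟨padicValInt ℓ b - padicValInt ℓ a - 1, by omega⟩
  have hℓ0 : (ℓ : ℂ) ≠ 0 := by exact_mod_cast hℓ.ne_zero
  have h1 : (a' : ℂ) = ℓ * ((ℓ : ℂ) ^ j * b' * c) := by
    have h2 : (ℓ : ℂ) ^ padicValInt ℓ a * a' = (ℓ : ℂ) ^ padicValInt ℓ a * (ℓ * ((ℓ : ℂ) ^ j * b' * c)) := by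
      have h3 : (a : ℂ) = (ℓ : ℂ) ^ padicValInt ℓ a * a' := by
        conv_lhs => rw [ha']
        push_cast
        rfl
      have h4 : (b : ℂ) = (ℓ : ℂ) ^ padicValInt ℓ b * b' := by
        conv_lhs => rw [hb']
        push_cast
        rfl
      rw [← h3, hab, h4, hj]
      ring
    exact mul_left_cancel₀ (pow_ne_zero _ hℓ0) h2
  have h2 : O.valuation (a' : ℂ) < 1 := by
    rw [h1, map_mul]
    refine lt_of_le_of_lt (mul_le_of_le_one_right' ?_) hℓ1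
    rw [map_mul, map_mul, map_pow]
    refine mul_le_one' (mul_le_one' (pow_le_one' ?_ j) (hint b')) ?_
    · exact hℓ1.le
    · rw [O.valuation_le_one_iff]
      exact hc
  have h3 : IsCoprime (ℓ : ℤ) a' :=
    (Nat.prime_iff_prime_int.1 hℓ).coprime_iff_not_dvd.2 hna
  obtain ⟨x, y, hxy⟩ := h3
  have h4 : (x : ℂ) * (ℓ : ℂ) + y * a' = 1 := by exact_mod_cast hxy
  have h5 : O.valuation (1 : ℂ) < 1 := by
    rw [← h4]
    refine lt_of_le_of_lt (O.valuation.map_add _ _) (max_lt ?_ ?_)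
    · rw [map_mul]
      exact lt_of_le_of_lt (mul_le_of_le_one_left' (hint x)) hℓ1
    · rw [map_mul]
      exact lt_of_le_of_lt (mul_le_of_le_one_left' (hint y)) h2
  rw [map_one] at h5
  exact lt_irrefl _ h5

end Pool.Agent.T2h48.DW
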