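import Pool.Agent.T2h48.DW.Fin
import Pool.Agent.T2h48.DW.T_COUNT
import Pool.Agent.T2h48.DW.T_TRACE
import Pool.Agent.T2h48.DW.T_BOUND
import Pool.Agent.T2h48.DW.T_LIMIT
import Pool.Agent.T2h48.DW.T_MEROM
import Pool.Agent.T2h48.DW.T_FACT
import Pool.Agent.T2h48.DW.T_RAT
import Pool.Agent.T2h48.DW.T_INT
import Pool.Agent.T2h69.DW.T_EXPS
import Pool.Agent.T2h48.DW.T_HYP
import Pool.Agent.T2h69.DW.T_FIELD
import Pool.Agent.T2h48.DW.T_DWORK
import Pool.Agent.T2h48.DW.T_RING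
import Pool.Agent.T2h69.DW.T_SML
import Pool.Agent.T2h48.DW.T_ASYM
import Pool.Agent.T2h48.DW.T_SPLIT
import Pool.Agent.T2h48.DW.T_DIR
import Pool.Agent.T2h48.DW.T_GAUSS
import Pool.Agent.T2h48.DW.T_VAL
import Pool.Agent.T2h48.DW.Arith2

set_option autoImplicit false

/-! Dwork's theorem and the theorem on algebraic families of symmetric designs. -/

namespace Pool.Agent.T2h48.DW

open Filter Topology

/-- **Dwork's theorem** (rationality of zeta functions of constructible sets over finite fields), in the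
form of a formula for the numbers of points. -/
theorem dwork : S_DWORK :=
  t_DWORK (t_HYP (t_MEROM t_COUNT t_TRACE t_BOUND t_LIMIT) (t_RAT t_FACT) t_INT
    Pool.Agent.T2h69.DW.t_EXPS) Pool.Agent.T2h69.DW.t_FIELD t_RING

/-- The parameters of algebraic families of symmetric designs, for a fixed `l` and a fixed residue class. -/
theorem class_bound {F : Type} [Field F] [Finite F] {a c : ℕ}
    (X : QF F a) (Z : QF F c) (l h d r T₀ : ℕ) (hl : 1 ≤ l) (hd : 1 ≤ d) (hr : 1 ≤ r) (hT₀ : 1 ≤ T₀)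
    (hX : ∀ ε : ℝ, 0 < ε → ∃ M : ℕ, ∀ t : ℕ, M ≤ t → ∀ (K : Type) [Field K] [Algebra F K],
      Module.finrank F K = r + T₀ * t → |(Nat.card {x : Fin a → K // X.Holds x} : ℝ) /
        (Nat.card F : ℝ) ^ (d * (r + T₀ * t)) - h| ≤ ε)
    (hdvd : ¬ l ∣ h) :
    ∃ M : ℕ, ∀ t : ℕ, M ≤ t → ∀ (K : Type) [Field K] [Algebra F K],
      Module.finrank F K = r + T₀ * t →
      ¬ ∃ (P B : Type) (_ : Finite P) (_ : Finite B) (inc : P → B → Prop) (v k : ℕ),
        IsSymmetricDesign inc v k l ∧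
        Nat.card {x : Fin a → K // X.Holds x} = v ∧
        Nat.card {z : Fin c → K // Z.Holds z} = Nat.card {z : P × B // inc z.1 z.2} := by
  classical
  obtain ⟨V, hV1, hV2⟩ := dwork F a X
  obtain ⟨W, hW1, hW2⟩ := dwork F c Z
  obtain ⟨p, hp⟩ := CharP.exists F
  have hpp : Fact p.Prime := ⟨CharP.char_is_prime F p⟩
  by_contra hcon
  push Not at hcon
  apply hdvd
  have hq : 1 < Nat.card F := Finite.one_lt_card
  have hh0 : h ≠ 0 := by
    rintro rfl
    exact hdvd (dvd_zero l)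
  have hqd : (1 : ℝ) < (Nat.card F : ℝ) ^ d := one_lt_pow₀ (by exact_mod_cast hq) (by omega)
  have hlim : Tendsto (fun t : ℕ => (V (r + T₀ * t) : ℝ) / ((Nat.card F : ℝ) ^ d) ^ (r + T₀ * t)) atTop
      (𝓝 ((h : ℤ) : ℝ)) := by
    rw [Metric.tendsto_atTop]
    intro ε hε
    obtain ⟨M, hM⟩ := hX (ε / 2) (by linarith)
    refine ⟨M, fun t ht => ?_⟩
    have hm1 : 1 ≤ r + T₀ * t := by omega
    have : NeZero (r + T₀ * t) := ⟨by omega⟩
    have h1 := hM t ht (FiniteField.Extension F p (r + T₀ * t))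
      (FiniteField.finrank_extension F p _)
    have h2 := hV2 (FiniteField.Extension F p (r + T₀ * t)) _ hm1 (FiniteField.finrank_extension F p _)
    rw [Real.dist_eq, ← pow_mul, ← h2]
    push_cast
    exact lt_of_le_of_lt h1 (by linarith)
  have key := arith2 t_RING t_ASYM t_SPLIT t_DIR t_GAUSS t_VAL V W (l : ℤ) (h : ℤ)
    ((Nat.card F : ℝ) ^ d) r T₀ hV1 hW1 (by exact_mod_cast (by omega : l ≠ 0))
    (by exact_mod_cast hh0) hqd hr hT₀ hlim ?_
  · exact_mod_cast key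
  · intro N
    -- the number of points is positive for large `m`
    obtain ⟨M0, hM0⟩ : ∃ M0, ∀ t, M0 ≤ t → 0 < V (r + T₀ * t) := by
      have h1 : ∀ᶠ t : ℕ in atTop, (0 : ℝ) < (V (r + T₀ * t) : ℝ) /
          ((Nat.card F : ℝ) ^ d) ^ (r + T₀ * t) :=
        hlim.eventually (lt_mem_nhds (by exact_mod_cast Nat.pos_of_ne_zero hh0))
      obtain ⟨M0, hM0⟩ := eventually_atTop.1 h1
      refine ⟨M0, fun t ht => ?_⟩
      have h2 := hM0 t ht
      have h3 : (0 : ℝ) < ((Nat.card F : ℝ) ^ d) ^ (r + T₀ * t) := by positivity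
      have h4 : (0 : ℝ) < V (r + T₀ * t) := by
        rcases (div_pos_iff.1 h2) with h5 | h5
        · exact h5.1
        · linarith [h5.2]
      exact_mod_cast h4
    obtain ⟨t, ht, K, iK, iA, hK, P, B, fP, fB, inc, v, k, hdes, hv, hfl⟩ := hcon (max N M0)
    refine ⟨t, (le_max_left _ _).trans ht, (k : ℤ), ?_⟩
    have hm1 : 1 ≤ r + T₀ * t := by omega
    have h1 := hV2 K _ hm1 hK
    have h2 := hW2 K _ hm1 hK
    have hvpos : 0 < v := by
      have := hM0 t ((le_max_right _ _).trans ht)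
      rw [← h1, hv] at this
      exact_mod_cast this
    obtain ⟨h3, h4⟩ := hdes.count hvpos
    rw [← h1, ← h2, hv, hfl, h3]
    exact ⟨h4, by push_cast; ring⟩

/-- **Parameters of algebraic families of symmetric designs.** -/
theorem parameters2 {F : Type} [Field F] [Finite F] {a c : ℕ} (X : QF F a) (Z : QF F c) (d : ℕ)
    (h : ℕ → ℕ) (T₀ : ℕ) (hd : 1 ≤ d) (hT₀ : 1 ≤ T₀) (hper : ∀ m, h (m + T₀) = h m)
    (hX : ∀ ε : ℝ, 0 < ε → ∃ M : ℕ, ∀ m : ℕ, M ≤ m → ∀ (K : Type) [Field K] [Algebra F K],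
      Module.finrank F K = m → |(Nat.card {x : Fin a → K // X.Holds x} : ℝ) /
        (Nat.card F : ℝ) ^ (d * m) - h m| ≤ ε) (L : ℕ) :
    ∃ M : ℕ, ∀ m : ℕ, M ≤ m → ∀ (K : Type) [Field K] [Algebra F K], Module.finrank F K = m →
      ∀ l : ℕ, 1 ≤ l → l ≤ L → ¬ l ∣ h m →
      ¬ ∃ (P B : Type) (_ : Finite P) (_ : Finite B) (inc : P → B → Prop) (v k : ℕ),
        IsSymmetricDesign inc v k l ∧
        Nat.card {x : Fin a → K // X.Holds x} = v ∧
        Nat.card {z : Fin c → K // Z.Holds z} = Nat.card {z : P × B // inc z.1 z.2} := by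
  classical
  have hper' : ∀ r t, h (r + T₀ * t) = h r := by
    intro r t
    induction t with
    | zero => simp
    | succ t ih => rw [show r + T₀ * (t + 1) = (r + T₀ * t) + T₀ by ring, hper, ih]
  have key : ∀ l r : ℕ, ∃ M : ℕ, 1 ≤ l → 1 ≤ r → ¬ l ∣ h r → ∀ t : ℕ, M ≤ t →
      ∀ (K : Type) [Field K] [Algebra F K], Module.finrank F K = r + T₀ * t →
      ¬ ∃ (P B : Type) (_ : Finite P) (_ : Finite B) (inc : P → B → Prop) (v k : ℕ),
        IsSymmetricDesign inc v k l ∧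
        Nat.card {x : Fin a → K // X.Holds x} = v ∧
        Nat.card {z : Fin c → K // Z.Holds z} = Nat.card {z : P × B // inc z.1 z.2} := by
    intro l r
    by_cases hc : 1 ≤ l ∧ 1 ≤ r ∧ ¬ l ∣ h r
    · obtain ⟨hl, hr, hdvd⟩ := hc
      obtain ⟨M, hM⟩ := class_bound X Z l (h r) d r T₀ hl hd hr hT₀ (fun ε hε => by
        obtain ⟨M, hM⟩ := hX ε hε
        refine ⟨M, fun t ht K _ _ hK => ?_⟩
        have h1 : t ≤ T₀ * t := Nat.le_mul_of_pos_left t hT₀
        have h2 := hM (r + T₀ * t) (by omega) K hK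
        rwa [hper'] at h2) hdvd
      exact ⟨M, fun _ _ _ => hM⟩
    · exact ⟨0, fun h1 h2 h3 => absurd ⟨h1, h2, h3⟩ hc⟩
  choose M hM using key
  refine ⟨T₀ * ((∑ l ∈ Finset.range (L + 1), ∑ r ∈ Finset.range (T₀ + 1), M l r) + 1) + 1, ?_⟩
  intro m hm K _ _ hK l hl hlL hdvd
  obtain ⟨r, t, hr1, hr2, hrt⟩ : ∃ r t, 1 ≤ r ∧ r ≤ T₀ ∧ m = r + T₀ * t := by
    refine ⟨(m - 1) % T₀ + 1, (m - 1) / T₀, by omega, Nat.mod_lt _ hT₀, ?_⟩
    have := Nat.mod_add_div (m - 1) T₀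
    omega
  subst hrt
  refine hM l r hl hr1 (by rwa [hper'] at hdvd) t ?_ K hK
  have h1 : M l r ≤ ∑ l ∈ Finset.range (L + 1), ∑ r ∈ Finset.range (T₀ + 1), M l r := by
    refine le_trans ?_ (Finset.single_le_sum (f := fun l => ∑ r ∈ Finset.range (T₀ + 1), M l r)
      (fun _ _ => Nat.zero_le _) (Finset.mem_range.2 (by omega : l < L + 1)))
    exact Finset.single_le_sum (f := fun r => M l r) (fun _ _ => Nat.zero_le _)
      (Finset.mem_range.2 (by omega : r < T₀ + 1))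
  by_contra hlt
  rw [not_le] at hlt
  have h2 : T₀ * (t + 1) ≤ T₀ * ((∑ l ∈ Finset.range (L + 1), ∑ r ∈ Finset.range (T₀ + 1), M l r) + 1) :=
    Nat.mul_le_mul_left _ (by omega)
  rw [Nat.mul_add, mul_one] at h2
  omega

/-- **Algebraic families of symmetric designs.** -/
theorem families2 {F : Type} [Field F] [Finite F] {a b : ℕ} (X : QF F a) (B : QF F b)
    (I : QF F (a + b)) (d : ℕ)
    (h : ℕ → ℕ) (T₀ : ℕ) (hd : 1 ≤ d) (hT₀ : 1 ≤ T₀) (hper : ∀ m, h (m + T₀) = h m)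
    (hX : ∀ ε : ℝ, 0 < ε → ∃ M : ℕ, ∀ m : ℕ, M ≤ m → ∀ (K : Type) [Field K] [Algebra F K],
      Module.finrank F K = m → |(Nat.card {x : Fin a → K // X.Holds x} : ℝ) /
        (Nat.card F : ℝ) ^ (d * m) - h m| ≤ ε) (L : ℕ) :
    ∃ M : ℕ, ∀ m : ℕ, M ≤ m → ∀ (K : Type) [Field K] [Algebra F K], Module.finrank F K = m →
      ∀ v k l : ℕ, 1 ≤ l → l ≤ L → ¬ l ∣ h m →
        ¬ IsSymmetricDesign (fun (x : {x : Fin a → K // X.Holds x})
          (y : {y : Fin b → K // B.Holds y}) => I.Holds (Fin.append x.1 y.1)) v k l := by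
  obtain ⟨M, hM⟩ := parameters2 X (QF.flags X B I) d h T₀ hd hT₀ hper hX L
  refine ⟨max M 1, fun m hm K _ _ hK v k l hl hlL hdvd hdes => ?_⟩
  have hm1 : 1 ≤ m := (le_max_right _ _).trans hm
  have hfd : FiniteDimensional F K := Module.finite_of_finrank_pos (by omega)
  have hfin : Finite K := Module.finite_of_finite F
  exact hM m ((le_max_left _ _).trans hm) K hK l hl hlL hdvd ⟨_, _, inferInstance, inferInstance, _,
    v, k, hdes, hdes.cardP, QF.card_flags X B I⟩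

end Pool.Agent.T2h48.DW
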