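import Pool.Agent.T2h48.DW.Stm

set_option autoImplicit false

/-! Assembly of the theorem on algebraic families of symmetric designs. -/

namespace Pool.Agent.T2h48.DW

open Filter Topology

/-- renaming the variables of a formula -/
noncomputable def QF.rename {F : Type} [CommRing F] {n m : ℕ} (σ : Fin n → Fin m) : QF F n → QF F m
  | QF.eq f => QF.eq (MvPolynomial.rename σ f)
  | QF.neg φ => QF.neg (φ.rename σ)
  | QF.and φ ψ => QF.and (φ.rename σ) (ψ.rename σ)

theorem QF.holds_rename {F : Type} [CommRing F] {n m : ℕ} (σ : Fin n → Fin m) {K : Type}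
    [CommRing K] [Algebra F K] (φ : QF F n) (x : Fin m → K) :
    (φ.rename σ).Holds x ↔ φ.Holds (x ∘ σ) := by
  induction φ with
  | eq f =>
    show MvPolynomial.aeval x (MvPolynomial.rename σ f) = 0 ↔ _
    rw [MvPolynomial.aeval_rename]
    rfl
  | neg φ ih => exact not_congr ih
  | and φ ψ ih1 ih2 => exact and_congr ih1 ih2

/-- the number of flags and the basic equation of a symmetric design -/
theorem IsSymmetricDesign.count {P B : Type} [Finite P] [Finite B] {I : P → B → Prop} {v k l : ℕ}
    (h : IsSymmetricDesign I v k l) (hv : 0 < v) :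
    Nat.card {z : P × B // I z.1 z.2} = v * k ∧ (k : ℤ) * (k - 1) = l * (v - 1) := by
  classical
  let _ : Fintype P := Fintype.ofFinite P
  let _ : Fintype B := Fintype.ofFinite B
  have hP : Fintype.card P = v := by rw [← Nat.card_eq_fintype_card]; exact h.cardP
  have hB : Fintype.card B = v := by rw [← Nat.card_eq_fintype_card]; exact h.cardB
  have hblock : ∀ b, ∑ x : P, (if I x b then 1 else 0) = k := by
    intro b
    rw [← h.block b, Nat.card_eq_fintype_card, Fintype.card_subtype, Finset.card_filter]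
  have hpair : ∀ x y, x ≠ y → ∑ b : B, (if I x b ∧ I y b then 1 else 0) = l := by
    intro x y hxy
    rw [← h.pair x y hxy, Nat.card_eq_fintype_card, Fintype.card_subtype, Finset.card_filter]
  have h1 : ∑ b : B, ∑ x : P, (if I x b then 1 else 0) = v * k := by
    rw [Finset.sum_congr rfl fun b _ => hblock b, Finset.sum_const, Finset.card_univ, hB,
      smul_eq_mul]
  constructor
  · rw [Nat.card_eq_fintype_card, Fintype.card_subtype, Finset.card_filter, Fintype.sum_prod_type,
      Finset.sum_comm]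
    exact h1
  · -- count the triples
    have h2 : ∑ x : P, ∑ y : P, ∑ b : B, (if I x b ∧ I y b then 1 else 0) = v * k * k := by
      have e1 : ∀ b : B, ∑ x : P, ∑ y : P, (if I x b ∧ I y b then 1 else 0) = k * k := by
        intro b
        have e2 : ∀ x y : P, (if I x b ∧ I y b then 1 else 0) =
            (if I x b then 1 else 0) * (if I y b then 1 else 0) := by
          intro x y
          by_cases hx : I x b
          · by_cases hy : I y b
            · simp [hx, hy]
            · simp [hx, hy]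
          · simp [hx]
        simp only [e2, ← Finset.mul_sum, hblock b, ← Finset.sum_mul]
      have e3 : ∀ x : P, ∑ y : P, ∑ b : B, (if I x b ∧ I y b then 1 else 0) =
          ∑ b : B, ∑ y : P, (if I x b ∧ I y b then 1 else 0) := fun x => Finset.sum_comm
      rw [Finset.sum_congr rfl fun x _ => e3 x, Finset.sum_comm, Finset.sum_congr rfl fun b _ => e1 b,
        Finset.sum_const, Finset.card_univ, hB, smul_eq_mul, mul_assoc]
    have h3 : ∑ x : P, ∑ y : P, ∑ b : B, (if I x b ∧ I y b then 1 else 0) =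
        v * ((v - 1) * l) + v * k := by
      have e1 : ∀ x : P, ∑ y : P, ∑ b : B, (if I x b ∧ I y b then 1 else 0) =
          (v - 1) * l + ∑ b : B, (if I x b then 1 else 0) := by
        intro x
        rw [← Finset.sum_erase_add _ _ (Finset.mem_univ x)]
        congr 1
        · rw [Finset.sum_congr rfl fun y hy => hpair x y (Finset.ne_of_mem_erase hy).symm,
            Finset.sum_const, Finset.card_erase_of_mem (Finset.mem_univ x), Finset.card_univ, hP,
            smul_eq_mul]
        · simp only [and_self]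
      rw [Finset.sum_congr rfl fun x _ => e1 x, Finset.sum_add_distrib, Finset.sum_const,
        Finset.card_univ, hP, smul_eq_mul, Finset.sum_comm, h1]
    rw [h2] at h3
    have h4 : k * k = (v - 1) * l + k := by
      have : v * (k * k) = v * ((v - 1) * l + k) := by
        rw [← mul_assoc, h3]
        ring
      exact Nat.eq_of_mul_eq_mul_left hv this
    have h5 : ((v - 1 : ℕ) : ℤ) = (v : ℤ) - 1 := by
      rw [Nat.cast_sub hv, Nat.cast_one]
    have h6 : (k : ℤ) * k = ((v - 1 : ℕ) : ℤ) * l + k := by exact_mod_cast h4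
    rw [h5] at h6
    linarith

/-- **Parameters of algebraic families.** `X` and `Z` are formulas over the finite field `F` with `q`
elements, `V K = #X(K)`, and `#X(F_{q^m}) / q^{dm} → h`. If for infinitely many `m` there is a symmetric
design with parameter `l`, with `#X(F_{q^m})` points and `#Z(F_{q^m})` flags, then `l` divides `h`. -/
theorem parameters (hDW : S_DWORK) (hAR : S_ARITH) {F : Type} [Field F] [Finite F] {a c : ℕ}
    (X : QF F a) (Z : QF F c) (l h d : ℕ) (hl : 1 ≤ l) (hd : 1 ≤ d)
    (hX : ∀ ε : ℝ, 0 < ε → ∃ M : ℕ, ∀ m : ℕ, M ≤ m → ∀ (K : Type) [Field K] [Algebra F K],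
      Module.finrank F K = m → |(Nat.card {x : Fin a → K // X.Holds x} : ℝ) /
        (Nat.card F : ℝ) ^ (d * m) - h| ≤ ε)
    (hdvd : ¬ l ∣ h) :
    ∃ M : ℕ, ∀ m : ℕ, M ≤ m → ∀ (K : Type) [Field K] [Algebra F K], Module.finrank F K = m →
      ¬ ∃ (P B : Type) (_ : Finite P) (_ : Finite B) (inc : P → B → Prop) (v k : ℕ),
        IsSymmetricDesign inc v k l ∧
        Nat.card {x : Fin a → K // X.Holds x} = v ∧
        Nat.card {z : Fin c → K // Z.Holds z} = Nat.card {z : P × B // inc z.1 z.2} := by
  classical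
  obtain ⟨V, hV1, hV2⟩ := hDW F a X
  obtain ⟨W, hW1, hW2⟩ := hDW F c Z
  obtain ⟨p, hp⟩ := CharP.exists F
  have hpp : Fact p.Prime := ⟨CharP.char_is_prime F p⟩
  by_contra hcon
  push Not at hcon
  apply hdvd
  have hq : 1 < Nat.card F := Finite.one_lt_card
  have hh0 : h ≠ 0 := by
    rintro rfl
    exact hdvd (dvd_zero l)
  have hqd : (1 : ℝ) < (Nat.card F : ℝ) ^ d := one_lt_pow₀ (by exact_mod_cast hq) (by omega)
  have hlim : Tendsto (fun m : ℕ => (V m : ℝ) / ((Nat.card F : ℝ) ^ d) ^ m) atTop (𝓝 ((h : ℤ) : ℝ)) := by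
    rw [Metric.tendsto_atTop]
    intro ε hε
    obtain ⟨M, hM⟩ := hX (ε / 2) (by linarith)
    refine ⟨max M 1, fun m hm => ?_⟩
    have hm1 : 1 ≤ m := (le_max_right _ _).trans hm
    have : NeZero m := ⟨by omega⟩
    have h1 := hM m ((le_max_left _ _).trans hm) (FiniteField.Extension F p m)
      (FiniteField.finrank_extension F p m)
    have h2 := hV2 (FiniteField.Extension F p m) m hm1 (FiniteField.finrank_extension F p m)
    rw [Real.dist_eq, ← pow_mul, ← h2]
    push_cast
    exact lt_of_le_of_lt h1 (by linarith)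
  have key := hAR V W (l : ℤ) (h : ℤ) ((Nat.card F : ℝ) ^ d) hV1 hW1 (by exact_mod_cast (by omega : l ≠ 0))
    (by exact_mod_cast hh0) hqd hlim ?_
  · exact_mod_cast key
  · intro N
    -- the number of points is positive for large `m`
    obtain ⟨M0, hM0⟩ : ∃ M0, ∀ m, M0 ≤ m → 0 < V m := by
      have h1 : ∀ᶠ m in atTop, (0 : ℝ) < (V m : ℝ) / ((Nat.card F : ℝ) ^ d) ^ m :=
        hlim.eventually (lt_mem_nhds (by exact_mod_cast Nat.pos_of_ne_zero hh0))
      obtain ⟨M0, hM0⟩ := eventually_atTop.1 h1
      refine ⟨M0, fun m hm => ?_⟩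
      have h2 := hM0 m hm
      have h3 : (0 : ℝ) < ((Nat.card F : ℝ) ^ d) ^ m := by positivity
      have h4 : (0 : ℝ) < V m := by
        rcases (div_pos_iff.1 h2) with h5 | h5
        · exact h5.1
        · linarith [h5.2]
      exact_mod_cast h4
    obtain ⟨m, hm, K, iK, iA, hK, P, B, fP, fB, inc, v, k, hdes, hv, hfl⟩ := hcon (max N (max M0 1))
    refine ⟨m, (le_max_left _ _).trans hm, (k : ℤ), ?_⟩
    have hm1 : 1 ≤ m := (le_max_right _ _).trans ((le_max_right _ _).trans hm)
    have hmM : M0 ≤ m := (le_max_left _ _).trans ((le_max_right _ _).trans hm)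
    have h1 := hV2 K m hm1 hK
    have h2 := hW2 K m hm1 hK
    have hvpos : 0 < v := by
      have := hM0 m hmM
      rw [← h1, hv] at this
      exact_mod_cast this
    obtain ⟨h3, h4⟩ := hdes.count hvpos
    rw [← h1, ← h2, hv, hfl, h3]
    exact ⟨h4, by push_cast; ring⟩

/-- the flags of an algebraic family are the points of a constructible set -/
noncomputable def QF.flags {F : Type} [CommRing F] {a b : ℕ} (X : QF F a) (B : QF F b) (I : QF F (a + b)) :
    QF F (a + b) :=
  QF.and (X.rename (Fin.castAdd b)) (QF.and (B.rename (Fin.natAdd a)) I)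

theorem QF.card_flags {F : Type} [CommRing F] {a b : ℕ} (X : QF F a) (B : QF F b)
    (I : QF F (a + b)) {K : Type} [CommRing K] [Algebra F K] :
    Nat.card {z : Fin (a + b) → K // (QF.flags X B I).Holds z} =
      Nat.card {z : {x : Fin a → K // X.Holds x} × {y : Fin b → K // B.Holds y} //
        I.Holds (Fin.append z.1.1 z.2.1)} := by
  refine Nat.card_congr
    { toFun := fun z => ⟨(⟨z.1 ∘ Fin.castAdd b, (QF.holds_rename _ _ _).1 z.2.1⟩,
        ⟨z.1 ∘ Fin.natAdd a, (QF.holds_rename _ _ _).1 z.2.2.1⟩), ?_⟩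
      invFun := fun z => ⟨Fin.append z.1.1.1 z.1.2.1, (QF.holds_rename _ _ _).2 ?_,
        (QF.holds_rename _ _ _).2 ?_, z.2⟩
      left_inv := fun z => ?_
      right_inv := fun z => ?_ }
  · have h1 : Fin.append (z.1 ∘ Fin.castAdd b) (z.1 ∘ Fin.natAdd a) = z.1 :=
      Fin.append_castAdd_natAdd
    show I.Holds (Fin.append (z.1 ∘ Fin.castAdd b) (z.1 ∘ Fin.natAdd a))
    rw [h1]
    exact z.2.2.2
  · have h1 : Fin.append z.1.1.1 z.1.2.1 ∘ Fin.castAdd b = z.1.1.1 := by
      funext i
      simp
    rw [h1]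
    exact z.1.1.2
  · have h1 : Fin.append z.1.1.1 z.1.2.1 ∘ Fin.natAdd a = z.1.2.1 := by
      funext i
      simp
    rw [h1]
    exact z.1.2.2
  · apply Subtype.ext
    exact Fin.append_castAdd_natAdd
  · apply Subtype.ext
    apply Prod.ext
    · apply Subtype.ext
      funext i
      simp
    · apply Subtype.ext
      funext i
      simp

/-- **Algebraic families.** -/
theorem families (hDW : S_DWORK) (hAR : S_ARITH) {F : Type} [Field F] [Finite F] {a b : ℕ}
    (X : QF F a) (B : QF F b) (I : QF F (a + b)) (l h d : ℕ) (hl : 1 ≤ l) (hd : 1 ≤ d)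
    (hX : ∀ ε : ℝ, 0 < ε → ∃ M : ℕ, ∀ m : ℕ, M ≤ m → ∀ (K : Type) [Field K] [Algebra F K],
      Module.finrank F K = m → |(Nat.card {x : Fin a → K // X.Holds x} : ℝ) /
        (Nat.card F : ℝ) ^ (d * m) - h| ≤ ε)
    (hdvd : ¬ l ∣ h) :
    ∃ M : ℕ, ∀ m : ℕ, M ≤ m → ∀ (K : Type) [Field K] [Algebra F K], Module.finrank F K = m →
      ∀ v k : ℕ, ¬ IsSymmetricDesign (fun (x : {x : Fin a → K // X.Holds x})
        (y : {y : Fin b → K // B.Holds y}) => I.Holds (Fin.append x.1 y.1)) v k l := by
  obtain ⟨M, hM⟩ := parameters hDW hAR X (QF.flags X B I) l h d hl hd hX hdvd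
  refine ⟨max M 1, fun m hm K _ _ hK v k hdes => ?_⟩
  have hm1 : 1 ≤ m := (le_max_right _ _).trans hm
  have hfd : FiniteDimensional F K := Module.finite_of_finrank_pos (by omega)
  have hfin : Finite K := Module.finite_of_finite F
  exact hM m ((le_max_left _ _).trans hm) K hK ⟨_, _, inferInstance, inferInstance, _, v, k, hdes,
    hdes.cardP, QF.card_flags X B I⟩

end Pool.Agent.T2h48.DW
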