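import Pool.Agent.N867.AS.Newt
import Pool.Agent.N867.AS.Eig
import Pool.Agent.H612.LR.T_SML
import Pool.Agent.T2h48.DW.Defs

/-!
# Project DW: the rationality of the zeta function (Dwork) and algebraic towers of symmetric designs

Statements of the tasks.  Notation: `k p` is the residue field of `PadicAlgCl p` (an algebraic closure of
`F_p`), `MU p Q` the Teichmueller elements `z ^ Q = z`, `Lifts p f s` the lifts of the coefficients of `f`
(library `Pool.Agent.N867.AS`).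
-/

set_option autoImplicit false

namespace Pool.Agent.T2h48.DW

open Pool.Agent.N867.AS Pool.Agent.N867.AS.Res Pool.Agent.N867.AS.Tr
open Filter Topology

/-- The sequence `W 1, W 2, …` is an integer combination of powers: `W m = ∑ β ∈ S, n β * β ^ m` with
algebraic `β ≠ 0` and integers `n β`. -/
def IsExpSum (W : ℕ → ℤ) : Prop :=
  ∃ (S : Finset ℂ) (n : ℂ → ℤ), (0 : ℂ) ∉ S ∧ (∀ β ∈ S, IsAlgebraic ℚ β) ∧
    ∀ m : ℕ, 1 ≤ m → (W m : ℂ) = ∑ β ∈ S, (n β : ℂ) * β ^ m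

/-- Number of the points of `f = 0` with coordinates in `{x | x ^ Q = x}` -/
noncomputable def hpts {σ : Type} {p : ℕ} [Fact p.Prime] (f : MvPolynomial σ (k p)) (Q : ℕ) : ℕ :=
  Nat.card {x : σ → k p // (∀ i, x i ^ Q = x i) ∧ MvPolynomial.eval x f = 0}

/-- `x₀ f` -/
noncomputable def hx {σ : Type} {p : ℕ} [Fact p.Prime] (f : MvPolynomial σ (k p)) :
    MvPolynomial (Option σ) (k p) :=
  MvPolynomial.X none * MvPolynomial.rename some f

/-- `z` is `exp (∑ W m T ^ m / m)` -/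
def ZetaCoeff (W : ℕ → ℤ) (z : ℕ → ℤ) : Prop :=
  z 0 = 1 ∧ ∀ n : ℕ, 1 ≤ n → (n : ℤ) * z n = ∑ j ∈ Finset.range n, W (j + 1) * z (n - 1 - j)

/-! ## Part A: Dwork -/

/-- **COUNT**: the number of the points of a hypersurface as a sum over Teichmueller points.
(Use `count_close` for `hx f`, `npts (hx f) Q = Q ^ (n+1) + (p-1) * Q * hpts f Q`, and the substitution
`x₀ ↦ a x₀`, which shows that the `p - 1` summands of `count_close` are equal; `‖p - 1‖ = 1`.) -/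
def S_COUNT : Prop :=
  ∀ (p : ℕ) [Fact p.Prime] (σ : Type) [Fintype σ] [DecidableEq σ] (f : MvPolynomial σ (k p)) (s : ℕ)
    (D : Lifts p (hx f) s) (m N : ℕ) (γ ζ : PadicAlgCl p), s ≠ 0 → m ≠ 0 → IsPrimitiveRoot ζ p →
    γ ≠ 0 → ‖γ‖ ≤ 1 → (Split.Theta p N γ).eval 1 = ζ →
    ‖((p ^ (s * m) : ℕ) : PadicAlgCl p) * (hpts f (p ^ (s * m)) : PadicAlgCl p) -
      ∑ x ∈ Fintype.piFinset (fun _ : Option σ => MU p (p ^ (s * m))),
        ∏ μ ∈ (hx f).support, ∏ j ∈ Finset.range (s * m),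
          (Split.Theta p N γ).eval ((D.c μ * ∏ i, x i ^ μ i) ^ p ^ j)‖ ≤ ‖γ‖ ^ N

/-- **TRACE**: the sum over the Teichmueller points is an alternating sum of traces of powers of matrices
with small entries. (Take `G = ∏ j < s, expand (p ^ j) (∏ μ, Gpoly N γ μ (c μ ^ p ^ j))`, use `Tr.sum_eval`
and `Tr.trace_pow_eq` with `p ^ s` in place of `p` and `Γ = Unit`; bounds as in `Bounds.lean`.) -/
def S_TRACE : Prop :=
  ∀ (p : ℕ) [Fact p.Prime] (σ : Type) [Fintype σ] [DecidableEq σ] (f : MvPolynomial σ (k p)) (s : ℕ)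
    (D : Lifts p f s) (g : ℝ), s ≠ 0 → 0 < g → g < 1 →
    ∃ r : ℝ, 0 < r ∧ r < 1 ∧ ∀ (N : ℕ) (γ : PadicAlgCl p), ‖γ‖ = g →
      ∃ G : MvPolynomial σ (PadicAlgCl p), (∀ v : σ →₀ ℕ, ‖MvPolynomial.coeff v G‖ ≤ r ^ (∑ i, v i)) ∧
        ∀ B : ℕ, (∀ v ∈ G.support, ∀ i, v i ≤ B) → ∀ m : ℕ, m ≠ 0 →
          ∑ x ∈ Fintype.piFinset (fun _ : σ => MU p (p ^ (s * m))),
            ∏ μ ∈ f.support, ∏ j ∈ Finset.range (s * m),
              (Split.Theta p N γ).eval ((D.c μ * ∏ i, x i ^ μ i) ^ p ^ j) =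
          ∑ T : Finset σ, (-1) ^ T.card *
            ((p ^ (s * m) : ℕ) : PadicAlgCl p) ^ (Fintype.card σ - T.card) *
              (Cmat (p ^ s) (fun _ : Unit => G) id T B ^ m).trace

/-- **BOUND**: uniform bound for the coefficients of `det (1 - X C)` (the Fredholm determinant is entire,
uniformly). (Use `Minor.coeff_charpolyRev` and `Minor.minor_le` with `α x = r ^ |u|`, `β x = r ^ ((Q-1) |u|)`;
there are at most `(M+1) ^ |σ|` indices with `|u| ≤ M`.) -/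
def S_BOUND : Prop :=
  ∀ (p : ℕ) [Fact p.Prime] (σ : Type) [Fintype σ] [DecidableEq σ] (Q : ℕ) (r R : ℝ), 2 ≤ Q → 0 < r →
    r < 1 → 0 < R → ∃ C : ℝ, ∀ G : MvPolynomial σ (PadicAlgCl p),
      (∀ v : σ →₀ ℕ, ‖MvPolynomial.coeff v G‖ ≤ r ^ (∑ i, v i)) → ∀ (T : Finset σ) (B n : ℕ),
        ‖(Cmat Q (fun _ : Unit => G) id T B).charpolyRev.coeff n‖ * R ^ n ≤ C

/-- **LIMIT**: closeness of power sums gives closeness of the coefficients of the power series. -/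
def S_LIMIT : Prop :=
  ∀ (p : ℕ) [Fact p.Prime] (z : PowerSeries (PadicAlgCl p)) (w : ℕ → PadicAlgCl p)
    (A B : ℕ → PowerSeries (PadicAlgCl p)) (a b : ℕ → ℕ → PadicAlgCl p) (C : ℝ),
    HasPS z (fun m => - w m) → (∀ N, HasPS (A N) (a N)) → (∀ N, HasPS (B N) (b N)) →
    (∀ N n, ‖PowerSeries.coeff n (A N)‖ ≤ C) → (∀ N n, ‖PowerSeries.coeff n (B N)‖ ≤ C) →
    (∀ m, m ≠ 0 → Tendsto (fun N => ‖w m - (b N m - a N m)‖) atTop (𝓝 0)) →
    ∀ i, Tendsto (fun N => ‖PowerSeries.coeff i (z * B N - A N)‖) atTop (𝓝 0)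

/-- approximation of `z` by quotients of polynomials whose coefficients are uniformly small -/
def Merom (p : ℕ) [Fact p.Prime] (z : ℕ → ℤ) : Prop :=
  ∀ R : ℝ, 0 < R → ∃ C : ℝ, ∀ δ : ℝ, 0 < δ → ∀ n₀ : ℕ, ∃ A B : Polynomial (PadicAlgCl p),
    B.coeff 0 = 1 ∧ (∀ n, ‖A.coeff n‖ * R ^ n ≤ C) ∧ (∀ n, ‖B.coeff n‖ * R ^ n ≤ C) ∧
    ∀ i ≤ n₀, ‖PowerSeries.coeff i (PowerSeries.mk (fun n => (z n : PadicAlgCl p)) *
      (B : PowerSeries (PadicAlgCl p)) - (A : PowerSeries (PadicAlgCl p)))‖ ≤ δ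

/-- **MEROM**: the zeta function of a hypersurface is `p`-adically meromorphic. Assembly of COUNT, TRACE,
BOUND, LIMIT: `W m = ∑ T, (-1) ^ |T| q ^ (m (n - |T|)) Tr (C_T ^ m)` (`n = |σ|`, `T ⊆ Option σ`, one factor
`q ^ m` removed), so `z = ∏_T det (1 - q ^ (n - |T|) X C_T) ^ ((-1) ^ (|T|+1))` approximately; `γ` from
`Split.exists_gamma`, `‖γ‖ = ‖ζ - 1‖` by `Split.norm_zeta_sub_one`. -/
def S_MEROM : Prop :=
  ∀ (p : ℕ) [Fact p.Prime] (σ : Type) [Fintype σ] [DecidableEq σ] (f : MvPolynomial σ (k p)) (s : ℕ)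
    (z : ℕ → ℤ), s ≠ 0 → (∀ μ, f.coeff μ ^ p ^ s = f.coeff μ) →
    ZetaCoeff (fun m => (hpts f (p ^ (s * m)) : ℤ)) z → Merom p z

/-- **FACT**: a polynomial with small coefficients is the product of a polynomial of bounded degree and of a
unit of the disc of radius `R`. (`PadicAlgCl p` is algebraically closed: `B = ∏ (1 - λ X)`; the `λ` with
`1 < ‖λ‖ R` go to `P`, and if there are `e` of them then `‖B.coeff e‖ = ∏ ‖λ‖ > R ^ (-e)`.) -/
def S_FACT : Prop :=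
  ∀ (p : ℕ) [Fact p.Prime] (R C : ℝ), 0 < R → ∃ e : ℕ, ∀ B : Polynomial (PadicAlgCl p),
    B.coeff 0 = 1 → (∀ n, ‖B.coeff n‖ * (2 * R) ^ n ≤ C) →
    ∃ (P : Polynomial (PadicAlgCl p)) (U : PowerSeries (PadicAlgCl p)),
      P.coeff 0 = 1 ∧ P.natDegree ≤ e ∧ (B : PowerSeries (PadicAlgCl p)) * U = P ∧
      ∀ n, ‖PowerSeries.coeff n U‖ * R ^ n ≤ 1

/-- **RAT** (Borel–Dwork criterion): a power series with integral coefficients of at most exponential growth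
that is `p`-adically meromorphic is rational. Proof without determinants: let `R > G ^ 3 + 1`, take `e` from
FACT and `M = 2 e`; by Siegel's lemma (`Int.Matrix.exists_ne_zero_int_vec_norm_le`) there is an integer
polynomial `Q ≠ 0` of degree `≤ M` with coefficients `≤ (M+1) G ^ (s+2M+1)` such that the coefficients
`w_i` of `w = z Q` vanish for `s ≤ i < s + e`; by induction `w_n = 0` for all `n ≥ s`: if `w_i = 0` for
`s ≤ i < n` then `w_n = (w P)_n` (as `P.coeff 0 = 1`, `deg P ≤ e`), `w P = Q (A U + E U)` with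
`A` and `E = z B - A` of FACT/Merom, so `‖w_n‖_p ≤ C' R ^ (M - n)`, while `|w_n| ≤ (M+1)^2 G ^ (s+n+2M+2)`;
hence `w_n = 0` when `s` is large. -/
def S_RAT : Prop :=
  ∀ (p : ℕ) [Fact p.Prime] (z : ℕ → ℤ) (G : ℕ), (∀ i, |z i| ≤ (G : ℤ) ^ (i + 1)) → Merom p z →
    ∃ P Q : Polynomial ℚ, Q ≠ 0 ∧
      PowerSeries.mk (fun n => (z n : ℚ)) * (Q : PowerSeries ℚ) = (P : PowerSeries ℚ)

/-- **INT**: the zeta function of a self-map has integral coefficients, of the right size.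
(Count the points of minimal period `d`; their number is `d * a d`; compare with `∏ (1 - X ^ d) ^ (- a d)`.) -/
def S_INT : Prop :=
  ∀ (X : Type) (φ : X → X) (W : ℕ → ℤ) (g : ℕ), 1 ≤ g →
    (∀ m : ℕ, 1 ≤ m → Finite {x : X // φ^[m] x = x}) →
    (∀ m : ℕ, 1 ≤ m → W m = Nat.card {x : X // φ^[m] x = x}) →
    (∀ m : ℕ, 1 ≤ m → W m ≤ (g : ℤ) ^ m) →
    ∃ z : ℕ → ℤ, ZetaCoeff W z ∧ ∀ i, |z i| ≤ (g : ℤ) ^ i

/-- **EXPS**: the power sums of a rational function. (Make `P`, `Q` coprime, so `P(0), Q(0) ≠ 0`; the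
zeros and poles of `P/Q` in `ℂ`; `PS.lean`.) -/
def S_EXPS : Prop :=
  ∀ (W z : ℕ → ℤ), ZetaCoeff W z → (∃ P Q : Polynomial ℚ, Q ≠ 0 ∧
      PowerSeries.mk (fun n => (z n : ℚ)) * (Q : PowerSeries ℚ) = (P : PowerSeries ℚ)) → IsExpSum W

/-- **HYP**: the numbers of the points of a hypersurface over the extensions of `F_q` (assembly of MEROM,
RAT, INT, EXPS; the self-map is `x ↦ x ^ (p ^ s)` on `{x | f x = 0}`). -/
def S_HYP : Prop :=
  ∀ (p : ℕ) [Fact p.Prime] (n : ℕ) (f : MvPolynomial (Fin n) (k p)) (s : ℕ), s ≠ 0 →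
    (∀ μ, f.coeff μ ^ p ^ s = f.coeff μ) → IsExpSum (fun m => (hpts f (p ^ (s * m)) : ℤ))

/-- **FIELD**: the points over an extension `K` of degree `m` of the finite field `F` are the points over
`k p` with coordinates in `{x | x ^ (q ^ m) = x}`. -/
def S_FIELD : Prop :=
  ∀ (F : Type) [Field F] [Finite F] (n : ℕ) (f : MvPolynomial (Fin n) F),
    ∃ (p : ℕ) (_ : Fact p.Prime) (s : ℕ) (f' : MvPolynomial (Fin n) (k p)), s ≠ 0 ∧
      (∀ μ, f'.coeff μ ^ p ^ s = f'.coeff μ) ∧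
      ∀ (K : Type) [Field K] [Algebra F K] (m : ℕ), 1 ≤ m → Module.finrank F K = m →
        Nat.card {x : Fin n → K // MvPolynomial.aeval x f = 0} = hpts f' (p ^ (s * m))

/-- **DWORK**: the numbers of the points of a constructible set over the extensions of a finite field.
(From HYP and FIELD: the indicator functions of the sets `f = 0` span a ring, as
`1_{f=0} 1_{g=0} = 1_{f=0} + 1_{g=0} - 1_{fg=0}`.) -/
def S_DWORK : Prop :=
  ∀ (F : Type) [Field F] [Finite F] (n : ℕ) (φ : QF F n), ∃ W : ℕ → ℤ, IsExpSum W ∧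
    ∀ (K : Type) [Field K] [Algebra F K] (m : ℕ), 1 ≤ m → Module.finrank F K = m →
      (Nat.card {x : Fin n → K // φ.Holds x} : ℤ) = W m

/-! ## Part B: arithmetic of exponential sums -/

/-- **RING**: exponential sums form a ring containing the constants. -/
def S_RING : Prop :=
  (∀ c : ℤ, IsExpSum (fun _ => c)) ∧
  (∀ V W : ℕ → ℤ, IsExpSum V → IsExpSum W → IsExpSum (fun m => V m + W m)) ∧
  (∀ V W : ℕ → ℤ, IsExpSum V → IsExpSum W → IsExpSum (fun m => V m * W m))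

/-- **SML** (Skolem–Mahler–Lech for exponential sums; from `H612.LR.SML_zeros` / `SML_bd`: with `D` a common
denominator of the `β`, the sequence `D ^ m W m` satisfies a monic recurrence over `ℤ`, the product of the
minimal polynomials of the `D β`; mind the value at `m = 0`). -/
def S_SML : Prop :=
  ∀ W : ℕ → ℤ, IsExpSum W → (∀ N : ℕ, ∃ n, N ≤ n ∧ W n = 0) →
    ∃ n₀ T : ℕ, 1 ≤ n₀ ∧ 1 ≤ T ∧ ∀ t : ℕ, W (n₀ + T * t) = 0

/-- **ASYM**: an exponential sum asymptotic to `h Q ^ m`. (Means of `(∑ …) conj(θ) ^ m`; treat the largest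
`‖β‖` first.) -/
def S_ASYM : Prop :=
  ∀ (S : Finset ℂ) (c : ℂ → ℂ) (Q : ℝ) (h : ℂ), (0 : ℂ) ∉ S → 0 < Q →
    Tendsto (fun m : ℕ => (∑ β ∈ S, c β * β ^ m) / (Q : ℂ) ^ m) atTop (𝓝 h) →
    (∀ β ∈ S, Q ≤ ‖β‖ → β ≠ (Q : ℂ) → c β = 0) ∧ ((Q : ℂ) ∈ S → c Q = h) ∧ ((Q : ℂ) ∉ S → h = 0)

/-- **SPLIT**: a finitely generated group of nonzero complex numbers is the product of its finite torsion
group and a complement: `τ` is the projection to the torsion. -/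
def S_SPLIT : Prop :=
  ∀ S : Finset ℂˣ, ∃ (N : ℕ) (τ : Subgroup.closure (S : Set ℂˣ) →* ℂˣ), 1 ≤ N ∧
    (∀ γ, τ γ ^ N = 1) ∧
    ∀ γ : Subgroup.closure (S : Set ℂˣ), IsOfFinOrder γ → (γ : ℂˣ) ^ N = 1 ∧ τ γ = (γ : ℂˣ)

/-- **DIR**: finitely many elements of absolute value `< 1` of a finitely generated group of nonzero complex
numbers are negative for some homomorphism to `ℤ`. (Round `M log ‖·‖` on a basis of the free quotient.) -/
def S_DIR : Prop :=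
  ∀ (S : Finset ℂˣ) (E : Finset (Subgroup.closure (S : Set ℂˣ))),
    (∀ γ ∈ E, ‖((γ : ℂˣ) : ℂ)‖ < 1) →
    ∃ e : Subgroup.closure (S : Set ℂˣ) →* Multiplicative ℤ, ∀ γ ∈ E, Multiplicative.toAdd (e γ) < 0

/-- **GAUSS**: (`K = I / V`, where `K (K - 1) = l (V X ^ (-n) - 1)`: `X ^ n K` is integral over `R[X]`, so it
is a polynomial; in a valuation ring `l` divides `X ^ n K` or `X ^ n (K - 1)` by Gauss's lemma; compare the
leading coefficients.) -/
def S_GAUSS : Prop :=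
  ∀ (R : Type) [CommRing R] [IsDomain R] [ValuationRing R] (l : R) (n : ℕ) (V I : Polynomial R),
    l ≠ 0 → Polynomial.X ^ n * I * (I - V) = Polynomial.C l * (V - Polynomial.X ^ n) * V ^ 2 →
    n < V.natDegree → l ∣ V.leadingCoeff

/-- **VAL**: a valuation ring of `ℂ` above the prime `ℓ`. -/
def S_VAL : Prop :=
  ∀ ℓ : ℕ, ℓ.Prime → ∃ O : ValuationSubring ℂ,
    ∀ a b : ℤ, a ≠ 0 → b ≠ 0 → (∃ c ∈ O, (a : ℂ) = b * c) → padicValInt ℓ b ≤ padicValInt ℓ a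

/-- **ARITH**: (assembly of RING, SML, ASYM, SPLIT, DIR, GAUSS, VAL.) -/
def S_ARITH : Prop :=
  ∀ (V I : ℕ → ℤ) (l h : ℤ) (Q : ℝ), IsExpSum V → IsExpSum I → l ≠ 0 → h ≠ 0 → 1 < Q →
    Tendsto (fun m : ℕ => (V m : ℝ) / Q ^ m) atTop (𝓝 (h : ℝ)) →
    (∀ N : ℕ, ∃ m, N ≤ m ∧ ∃ κ : ℤ, κ * (κ - 1) = l * (V m - 1) ∧ V m * κ = I m) → l ∣ h

end Pool.Agent.T2h48.DW
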