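import Pool.Agent.T2h48.DW.Stm

set_option autoImplicit false

namespace Pool.Agent.T2h48.DW

open Filter Topology

/-- exponential functions of distinct bases are independent -/
theorem indep_pow {ι : Type} (s : Finset ι) (w c : ι → ℂ) (hw : Set.InjOn w s)
    (h : ∀ t : ℕ, ∑ i ∈ s, c i * w i ^ t = 0) : ∀ i ∈ s, c i = 0 := by
  classical
  have h1 := linearIndependent_monoidHom (Multiplicative ℕ) ℂ
  have h2 : LinearIndependent ℂ (fun i : s => ((powersHom ℂ (w i) : Multiplicative ℕ →* ℂ) :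
      Multiplicative ℕ → ℂ)) := by
    refine h1.comp (fun i : s => powersHom ℂ (w i)) ?_
    intro i j hij
    have h3 := congrArg (fun φ : Multiplicative ℕ →* ℂ => φ (Multiplicative.ofAdd 1)) hij
    simp only [powersHom_apply, toAdd_ofAdd, pow_one] at h3
    exact Subtype.ext (hw i.2 j.2 h3)
  rw [Fintype.linearIndependent_iff] at h2
  intro i hi
  refine h2 (fun j => c j) ?_ ⟨i, hi⟩
  funext t
  simp only [Finset.sum_apply, Pi.smul_apply, powersHom_apply, smul_eq_mul, Pi.zero_apply]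
  rw [Finset.sum_coe_sort s (fun j => c j * w j ^ (Multiplicative.toAdd t))]
  exact h _

/-- an identity on an arithmetic progression is formal -/
theorem transfer {Γ : Type} [CommGroup Γ] (ι : Γ →* ℂˣ) {a M : ℕ} {A : Type} [CommRing A]
    (ψ : Γ →* A)
    (hψ : ∀ (s : Finset Γ) (c : Γ → ℤ), (∀ ζ ∈ s, ι ζ ^ M = 1) →
      ∑ ζ ∈ s, (c ζ : ℂ) * ((ι ζ : ℂˣ) : ℂ) ^ a = 0 → ∑ ζ ∈ s, (c ζ : A) * ψ ζ = 0)
    (G : MonoidAlgebra ℤ Γ)
    (h : ∀ t : ℕ, ∑ γ ∈ G.coeff.support, (G.coeff γ : ℂ) * ((ι γ : ℂˣ) : ℂ) ^ (a + M * t) = 0) :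
    ∑ γ ∈ G.coeff.support, (G.coeff γ : A) * ψ γ = 0 := by
  classical
  set s := G.coeff.support with hs
  -- the coefficient of each class
  have h1 : ∀ w ∈ s.image (fun γ => ι γ ^ M),
      ∑ γ ∈ s.filter (fun γ => ι γ ^ M = w), (G.coeff γ : ℂ) * ((ι γ : ℂˣ) : ℂ) ^ a = 0 := by
    refine indep_pow (s.image (fun γ => ι γ ^ M)) (fun w => (w : ℂ))
      (fun w => ∑ γ ∈ s.filter (fun γ => ι γ ^ M = w), (G.coeff γ : ℂ) * ((ι γ : ℂˣ) : ℂ) ^ a)
      (fun x _ y _ hxy => Units.ext hxy) ?_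
    intro t
    rw [← h t, ← Finset.sum_fiberwise_of_maps_to (s := s) (t := s.image (fun γ => ι γ ^ M))
      (g := fun γ => ι γ ^ M) (fun γ hγ => Finset.mem_image_of_mem _ hγ)]
    refine Finset.sum_congr rfl fun w _ => ?_
    rw [Finset.sum_mul]
    refine Finset.sum_congr rfl fun γ hγ => ?_
    rw [Finset.mem_filter] at hγ
    rw [pow_add, pow_mul, ← hγ.2]
    push_cast
    ring
  rw [← Finset.sum_fiberwise_of_maps_to (s := s) (t := s.image (fun γ => ι γ ^ M))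
      (g := fun γ => ι γ ^ M) (fun γ hγ => Finset.mem_image_of_mem _ hγ)]
  refine Finset.sum_eq_zero fun w hw => ?_
  obtain ⟨δ, hδs, hδ⟩ := Finset.mem_image.1 hw
  have h2 := h1 w hw
  -- divide by `δ`
  set F := s.filter (fun γ => ι γ ^ M = w) with hF
  have h3 : ∑ ζ ∈ F.image (fun γ => γ * δ⁻¹), (G.coeff (ζ * δ) : ℂ) * ((ι ζ : ℂˣ) : ℂ) ^ a = 0 := by
    rw [Finset.sum_image (fun x _ y _ hxy => mul_right_cancel hxy)]
    have hne : (((ι δ : ℂˣ) : ℂ)) ^ a ≠ 0 := pow_ne_zero _ (Units.ne_zero _)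
    apply mul_right_cancel₀ hne
    rw [zero_mul, ← h2, Finset.sum_mul]
    refine Finset.sum_congr rfl fun γ _ => ?_
    rw [inv_mul_cancel_right, map_mul, map_inv, Units.val_mul, mul_assoc, ← mul_pow, mul_assoc,
      Units.inv_mul, mul_one]
  have h4 := hψ (F.image (fun γ => γ * δ⁻¹)) (fun ζ => G.coeff (ζ * δ)) (by
    intro ζ hζ
    obtain ⟨γ, hγ, rfl⟩ := Finset.mem_image.1 hζ
    rw [hF, Finset.mem_filter] at hγ
    rw [map_mul, map_inv, mul_pow, inv_pow, hγ.2, hδ, mul_inv_cancel]) h3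
  rw [Finset.sum_image (fun x _ y _ hxy => mul_right_cancel hxy)] at h4
  have h5 : ∑ γ ∈ F, (G.coeff γ : A) * ψ γ = (∑ γ ∈ F, (G.coeff (γ * δ⁻¹ * δ) : A) * ψ (γ * δ⁻¹)) * ψ δ := by
    rw [Finset.sum_mul]
    refine Finset.sum_congr rfl fun γ _ => ?_
    rw [inv_mul_cancel_right, mul_assoc, ← map_mul, inv_mul_cancel_right]
  rw [h5, h4, zero_mul]


theorem int_dvd_of_val {l h : ℤ} (hl : l ≠ 0) (hh : h ≠ 0)
    (H : ∀ ℓ : ℕ, ℓ.Prime → padicValInt ℓ l ≤ padicValInt ℓ h) : l ∣ h := by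
  rw [← Int.natAbs_dvd_natAbs, ← Nat.factorization_prime_le_iff_dvd (Int.natAbs_ne_zero.2 hl)
    (Int.natAbs_ne_zero.2 hh)]
  intro ℓ hℓ
  have := H ℓ hℓ
  rw [Nat.factorization_def _ hℓ, Nat.factorization_def _ hℓ]
  exact this

theorem mem_of_root {O : ValuationSubring ℂ} {x : ℂ} {N : ℕ} (hN : 1 ≤ N) (hx : x ^ N = 1) :
    x ∈ O := by
  rcases O.mem_or_inv_mem x with h | h
  · exact h
  · have hx0 : x ≠ 0 := by
      rintro rfl
      rw [zero_pow (by omega)] at hx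
      exact zero_ne_one hx
    have h1 : x = x⁻¹ ^ (N - 1) := by
      obtain ⟨k, rfl⟩ : ∃ k, N = k + 1 := ⟨N - 1, by omega⟩
      rw [Nat.add_sub_cancel, inv_pow]
      rw [pow_succ] at hx
      exact (inv_eq_of_mul_eq_one_right hx).symm
    rw [h1]
    exact pow_mem h _

theorem isExpSum_neg (hR : S_RING) {V : ℕ → ℤ} (h : IsExpSum V) : IsExpSum (fun m => - V m) := by
  have h1 := hR.2.2 _ _ (hR.1 (-1)) h
  simpa using h1

theorem t_ARITH (hR : S_RING) (hS : S_SML) (hA : S_ASYM) (hSp : S_SPLIT) (hD : S_DIR)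
    (hG : S_GAUSS) (hV : S_VAL) : S_ARITH := by
  classical
  intro V I l h Q hVe hIe hl hh hQ hlim hinf
  have hQ0 : (0 : ℝ) < Q := by linarith
  have hQc : (Q : ℂ) ≠ 0 := by exact_mod_cast hQ0.ne'
  -- the zeros
  have hg : IsExpSum (fun m => I m * (I m - V m) - l * (V m - 1) * (V m) ^ 2) := by
    have e1 : IsExpSum (fun m => I m - V m) := by
      simpa [sub_eq_add_neg] using hR.2.1 _ _ hIe (isExpSum_neg hR hVe)
    have e2 := hR.2.2 _ _ hIe e1
    have e3 : IsExpSum (fun m => V m - 1) := by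
      simpa [sub_eq_add_neg] using hR.2.1 _ _ hVe (hR.1 (-1))
    have e4 := hR.2.2 _ _ (hR.2.2 _ _ (hR.1 l) e3) (hR.2.2 _ _ hVe hVe)
    have e5 := hR.2.1 _ _ e2 (isExpSum_neg hR e4)
    have e6 : (fun m => I m * (I m - V m) - l * (V m - 1) * (V m) ^ 2) =
        fun m => I m * (I m - V m) + -(l * (V m - 1) * (V m * V m)) := by
      funext m
      ring
    rw [e6]
    exact e5
  obtain ⟨a, T, ha, hT, hz⟩ := hS _ hg (fun N => by
    obtain ⟨m, hm, κ, hκ, hκ'⟩ := hinf N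
    refine ⟨m, hm, ?_⟩
    rw [← hκ']
    have : V m * κ * (V m * κ - V m) - l * (V m - 1) * V m ^ 2 =
        V m ^ 2 * (κ * (κ - 1) - l * (V m - 1)) := by ring
    rw [this, hκ, sub_self, mul_zero])
  obtain ⟨S1, n1, h01, halg1, hV1⟩ := hVe
  obtain ⟨S2, n2, h02, halg2, hI1⟩ := hIe
  -- asymptotics
  have hlimC : Tendsto (fun m : ℕ => (∑ β ∈ S1, (n1 β : ℂ) * β ^ m) / (Q : ℂ) ^ m) atTop (𝓝 (h : ℂ)) := by
    have h1 : Tendsto (fun m : ℕ => (((V m : ℝ) / Q ^ m : ℝ) : ℂ)) atTop (𝓝 (((h : ℝ)) : ℂ)) :=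
      (Complex.continuous_ofReal.tendsto _).comp hlim
    have h2 : (((h : ℝ)) : ℂ) = (h : ℂ) := by push_cast; rfl
    rw [h2] at h1
    refine h1.congr' ?_
    filter_upwards [eventually_ge_atTop 1] with m hm
    rw [← hV1 m hm]
    push_cast
    rfl
  obtain ⟨hA1, hA2, hA3⟩ := hA S1 (fun β => (n1 β : ℂ)) Q h h01 hQ0 hlimC
  have hQS : (Q : ℂ) ∈ S1 := by
    by_contra hc
    have := hA3 hc
    exact hh (by exact_mod_cast this)
  have hn1Q : n1 Q = h := by exact_mod_cast hA2 hQS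
  -- the group
  obtain ⟨u, hu⟩ : ∃ u : ℂ → ℂˣ, ∀ z, z ≠ 0 → ((u z : ℂˣ) : ℂ) = z :=
    ⟨fun z => if hz : z ≠ 0 then Units.mk0 z hz else 1, fun z hz => by
      beta_reduce
      rw [dif_pos hz]
      rfl⟩
  obtain ⟨S, hSdef⟩ : ∃ S : Finset ℂˣ, S = (S1 ∪ S2).image u := ⟨_, rfl⟩
  have hSp' := hSp S
  have hD' := hD S
  have hmemS : ∀ z ∈ S1 ∪ S2, u z ∈ Subgroup.closure (S : Set ℂˣ) := fun z hz =>
    Subgroup.subset_closure (by
      rw [hSdef, Finset.mem_coe]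
      exact Finset.mem_image_of_mem _ hz)
  generalize Subgroup.closure (S : Set ℂˣ) = Γ at hSp' hD' hmemS
  obtain ⟨N, τ, hN, hτ1, hτ2⟩ := hSp'
  obtain ⟨g, hg⟩ : ∃ g : ℂ → Γ, ∀ z ∈ S1 ∪ S2, ((g z : Γ) : ℂˣ) = u z := by
    refine ⟨fun z => if hz : u z ∈ Γ then ⟨u z, hz⟩ else 1, fun z hz => ?_⟩
    beta_reduce
    rw [dif_pos (hmemS z hz)]
  have hgc : ∀ z ∈ S1 ∪ S2, (((g z : Γ) : ℂˣ) : ℂ) = z := by
    intro z hz
    rw [hg z hz]
    refine hu z ?_
    rintro rfl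
    rcases Finset.mem_union.1 hz with h1 | h1
    · exact h01 h1
    · exact h02 h1
  have hS1 : ∀ z ∈ S1, z ∈ S1 ∪ S2 := fun z hz => Finset.mem_union_left _ hz
  have hS2 : ∀ z ∈ S2, z ∈ S1 ∪ S2 := fun z hz => Finset.mem_union_right _ hz
  -- the direction
  obtain ⟨e, he⟩ := hD' (insert (g Q)⁻¹ ((S1.filter fun β => ‖β‖ < Q).image fun β => g β * (g Q)⁻¹)) (by
    intro γ hγ
    have hgQ : (((g Q : Γ) : ℂˣ) : ℂ) = Q := hgc _ (hS1 _ hQS)
    rw [Finset.mem_insert] at hγ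
    rcases hγ with rfl | hγ
    · rw [Subgroup.coe_inv, Units.val_inv_eq_inv_val, hgQ, norm_inv, Complex.norm_real,
        Real.norm_of_nonneg hQ0.le]
      exact inv_lt_one_of_one_lt₀ hQ
    · obtain ⟨β, hβ, rfl⟩ := Finset.mem_image.1 hγ
      rw [Finset.mem_filter] at hβ
      rw [Subgroup.coe_mul, Subgroup.coe_inv, Units.val_mul, Units.val_inv_eq_inv_val, hgQ,
        hgc _ (hS1 _ hβ.1), norm_mul, norm_inv, Complex.norm_real, Real.norm_of_nonneg hQ0.le,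
        ← div_eq_mul_inv, div_lt_one hQ0]
      exact hβ.2)
  set ee : Γ → ℤ := fun γ => Multiplicative.toAdd (e γ) with hee
  have hee_mul : ∀ x y, ee (x * y) = ee x + ee y := fun x y => by
    simp only [hee, map_mul, toAdd_mul]
  have hee_inv : ∀ x, ee x⁻¹ = - ee x := fun x => by
    simp only [hee, map_inv, toAdd_inv]
  have heQ : 0 < ee (g Q) := by
    have h1 := he _ (Finset.mem_insert_self _ _)
    have h2 : ee (g Q)⁻¹ < 0 := h1
    rw [hee_inv] at h2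
    omega
  have heβ : ∀ β ∈ S1, ‖β‖ < Q → ee (g β) < ee (g Q) := by
    intro β hβ hβQ
    have h1 := he (g β * (g Q)⁻¹) (Finset.mem_insert_of_mem (Finset.mem_image.2 ⟨β,
      Finset.mem_filter.2 ⟨hβ, hβQ⟩, rfl⟩))
    have h2 : ee (g β * (g Q)⁻¹) < 0 := h1
    rw [hee_mul, hee_inv] at h2
    omega
  -- torsion has degree zero
  have hetor : ∀ ζ : Γ, IsOfFinOrder ζ → ee ζ = 0 := by
    intro ζ hζ
    obtain ⟨k, hk, hk1⟩ := isOfFinOrder_iff_pow_eq_one.1 hζ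
    have h1 : e ζ ^ k = 1 := by rw [← map_pow, hk1, map_one]
    have h2 := congrArg Multiplicative.toAdd h1
    rw [toAdd_pow, toAdd_one, smul_eq_zero] at h2
    rcases h2 with h2 | h2
    · omega
    · exact h2
  -- the group ring
  obtain ⟨Vh, hVh⟩ : ∃ Vh : MonoidAlgebra ℤ Γ, Vh = ∑ β ∈ S1, MonoidAlgebra.single (g β) (n1 β) :=
    ⟨_, rfl⟩
  obtain ⟨Ih, hIh⟩ : ∃ Ih : MonoidAlgebra ℤ Γ, Ih = ∑ β ∈ S2, MonoidAlgebra.single (g β) (n2 β) :=
    ⟨_, rfl⟩
  obtain ⟨G, hGdef⟩ : ∃ G : MonoidAlgebra ℤ Γ, G = Ih * (Ih - Vh) - (l : MonoidAlgebra ℤ Γ) * (Vh - 1) * Vh ^ 2 :=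
    ⟨_, rfl⟩
  set ι : Γ →* ℂˣ := Γ.subtype with hι
  obtain ⟨evm, hevm⟩ : ∃ evm : ℕ → (Γ →* ℂ), ∀ m γ, evm m γ = (((ι γ : ℂˣ)) : ℂ) ^ m :=
    ⟨fun m => ((powMonoidHom m : ℂ →* ℂ).comp (Units.coeHom ℂ)).comp ι, fun m γ => rfl⟩
  have hevV : ∀ m, 1 ≤ m → MonoidAlgebra.lift ℤ ℂ Γ (evm m) Vh = (V m : ℂ) := by
    intro m hm
    rw [hVh, map_sum, hV1 m hm]
    refine Finset.sum_congr rfl fun β hβ => ?_
    rw [MonoidAlgebra.lift_single, hevm, zsmul_eq_mul]
    have h1 : (((ι (g β) : ℂˣ)) : ℂ) = β := hgc β (hS1 β hβ)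
    rw [h1]
  have hevI : ∀ m, 1 ≤ m → MonoidAlgebra.lift ℤ ℂ Γ (evm m) Ih = (I m : ℂ) := by
    intro m hm
    rw [hIh, map_sum, hI1 m hm]
    refine Finset.sum_congr rfl fun β hβ => ?_
    rw [MonoidAlgebra.lift_single, hevm, zsmul_eq_mul]
    have h1 : (((ι (g β) : ℂˣ)) : ℂ) = β := hgc β (hS2 β hβ)
    rw [h1]
  have hTN : 1 ≤ T * N := Nat.mul_pos hT hN
  have hG0 : ∀ t : ℕ, MonoidAlgebra.lift ℤ ℂ Γ (evm (a + T * N * t)) G = 0 := by
    intro t
    have hm : 1 ≤ a + T * N * t := by omega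
    have h1 := hz (N * t)
    rw [← mul_assoc] at h1
    rw [hGdef]
    simp only [map_sub, map_mul, map_pow, map_intCast, map_one, hevV _ hm, hevI _ hm]
    have h2 : ((I (a + T * N * t) * (I (a + T * N * t) - V (a + T * N * t)) -
      l * (V (a + T * N * t) - 1) * V (a + T * N * t) ^ 2 : ℤ) : ℂ) = 0 := by
      rw [h1, Int.cast_zero]
    push_cast at h2
    exact h2
  -- primes
  refine int_dvd_of_val hl hh fun ℓ hℓ => ?_
  obtain ⟨O, hO⟩ := hV ℓ hℓ
  have hτO : ∀ γ, ((τ γ : ℂˣ) : ℂ) ∈ O := by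
    intro γ
    refine mem_of_root hN ?_
    rw [← Units.val_pow_eq_pow_val, hτ1, Units.val_one]
  obtain ⟨τ', hτ'⟩ : ∃ τ' : Γ →* O, ∀ γ, ((τ' γ : O) : ℂ) = ((τ γ : ℂˣ) : ℂ) :=
    ⟨{ toFun := fun γ => ⟨((τ γ : ℂˣ) : ℂ), hτO γ⟩
       map_one' := by
        apply Subtype.ext
        simp
       map_mul' := fun x y => by
        apply Subtype.ext
        simp }, fun γ => rfl⟩
  obtain ⟨ψ, hψ⟩ : ∃ ψ : Γ →* LaurentPolynomial O, ∀ γ, ψ γ =
      LaurentPolynomial.C (τ' γ ^ a) * LaurentPolynomial.T (ee γ) :=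
    ⟨{ toFun := fun γ => LaurentPolynomial.C (τ' γ ^ a) * LaurentPolynomial.T (ee γ)
       map_one' := by
        have h1 : ee 1 = 0 := by
          have := hee_mul 1 1
          rw [mul_one] at this
          omega
        rw [map_one, one_pow, map_one, h1, LaurentPolynomial.T_zero, one_mul]
       map_mul' := fun x y => by
        rw [map_mul, mul_pow, map_mul, hee_mul, LaurentPolynomial.T_add]
        ring }, fun γ => rfl⟩
  have hΘG : MonoidAlgebra.lift ℤ (LaurentPolynomial O) Γ ψ G = 0 := by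
    rw [MonoidAlgebra.lift_apply', Finsupp.sum]
    have h1 := transfer ι (a := a) (M := T * N) (A := LaurentPolynomial O) ψ ?_ G ?_
    · rw [← h1]
      refine Finset.sum_congr rfl fun γ _ => ?_
      congr 1
    · intro s c hs hc
      have h2 : ∀ ζ ∈ s, ψ ζ = LaurentPolynomial.C (τ' ζ ^ a) ∧
          ((τ' ζ : O) : ℂ) = ((ι ζ : ℂˣ) : ℂ) := by
        intro ζ hζ
        have hfin : IsOfFinOrder ζ := by
          rw [isOfFinOrder_iff_pow_eq_one]
          refine ⟨T * N, hTN, ?_⟩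
          apply Subtype.ext
          exact hs ζ hζ
        have h3 := hτ2 ζ hfin
        refine ⟨?_, ?_⟩
        · rw [hψ, hetor ζ hfin, LaurentPolynomial.T_zero, mul_one]
        · rw [hτ', h3.2]
          rfl
      have h4 : ∑ ζ ∈ s, (c ζ : O) * τ' ζ ^ a = 0 := by
        apply Subtype.ext
        push_cast
        rw [← hc]
        refine Finset.sum_congr rfl fun ζ hζ => ?_
        rw [(h2 ζ hζ).2]
      have h5 := congrArg (LaurentPolynomial.C (R := O)) h4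
      rw [map_sum, map_zero] at h5
      rw [← h5]
      refine Finset.sum_congr rfl fun ζ hζ => ?_
      rw [(h2 ζ hζ).1, map_mul, map_intCast]
    · intro t
      have h2 := hG0 t
      rw [MonoidAlgebra.lift_apply', Finsupp.sum] at h2
      rw [← h2]
      refine Finset.sum_congr rfl fun γ _ => ?_
      rw [hevm]
      congr 1
  -- the shift
  obtain ⟨n, hn⟩ : ∃ n : ℕ, ∀ z ∈ S1 ∪ S2, 0 ≤ (n : ℤ) + ee (g z) := by
    refine ⟨∑ z ∈ S1 ∪ S2, (ee (g z)).natAbs, fun z hz => ?_⟩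
    have h1 : (ee (g z)).natAbs ≤ ∑ z ∈ S1 ∪ S2, (ee (g z)).natAbs :=
      Finset.single_le_sum (f := fun z => (ee (g z)).natAbs) (fun _ _ => Nat.zero_le _) hz
    omega
  have hlaur : ∀ (S' : Finset ℂ) (nn : ℂ → ℤ), (∀ z ∈ S', z ∈ S1 ∪ S2) →
      Polynomial.toLaurent (∑ β ∈ S', Polynomial.monomial ((n : ℤ) + ee (g β)).toNat
        ((nn β : O) * τ' (g β) ^ a)) = LaurentPolynomial.T n *
        MonoidAlgebra.lift ℤ (LaurentPolynomial O) Γ ψ (∑ β ∈ S', MonoidAlgebra.single (g β) (nn β)) := by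
    intro S' nn hS'
    rw [map_sum, map_sum, Finset.mul_sum]
    refine Finset.sum_congr rfl fun β hβ => ?_
    rw [MonoidAlgebra.lift_single, hψ, ← Polynomial.C_mul_X_pow_eq_monomial,
      Polynomial.toLaurent_C_mul_X_pow, Int.toNat_of_nonneg (hn β (hS' β hβ)),
      LaurentPolynomial.T_add, map_mul, map_intCast, zsmul_eq_mul]
    ring
  obtain ⟨V0, hV0⟩ : ∃ V0 : Polynomial O, V0 = ∑ β ∈ S1, Polynomial.monomial ((n : ℤ) + ee (g β)).toNat
        ((n1 β : O) * τ' (g β) ^ a) := ⟨_, rfl⟩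
  obtain ⟨I0, hI0⟩ : ∃ I0 : Polynomial O, I0 = ∑ β ∈ S2, Polynomial.monomial ((n : ℤ) + ee (g β)).toNat
        ((n2 β : O) * τ' (g β) ^ a) := ⟨_, rfl⟩
  have hVl := hlaur S1 n1 hS1
  have hIl := hlaur S2 n2 hS2
  rw [← hV0, ← hVh] at hVl
  rw [← hI0, ← hIh] at hIl
  have hid : Polynomial.X ^ n * I0 * (I0 - V0) =
      Polynomial.C ((l : O)) * (V0 - Polynomial.X ^ n) * V0 ^ 2 := by
    apply Polynomial.toLaurent_injective
    simp only [map_mul, map_sub, map_pow, Polynomial.toLaurent_X, hVl, hIl, map_intCast]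
    have h1 : (LaurentPolynomial.T 1 : LaurentPolynomial O) ^ n = LaurentPolynomial.T n := by
      rw [LaurentPolynomial.T_pow, mul_one]
    rw [h1]
    have h2 := hΘG
    rw [hGdef] at h2
    simp only [map_sub, map_mul, map_pow, map_intCast, map_one] at h2
    linear_combination (LaurentPolynomial.T n : LaurentPolynomial O) ^ 3 * h2
  -- the leading coefficient
  have hsplit : V0 = Polynomial.monomial ((n : ℤ) + ee (g Q)).toNat ((h : O) * τ' (g Q) ^ a) +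
      ∑ β ∈ S1.erase Q, Polynomial.monomial ((n : ℤ) + ee (g β)).toNat
        ((n1 β : O) * τ' (g β) ^ a) := by
    rw [hV0, ← Finset.add_sum_erase _ _ hQS, hn1Q]
  have hlow : (∑ β ∈ S1.erase Q, Polynomial.monomial ((n : ℤ) + ee (g β)).toNat
        ((n1 β : O) * τ' (g β) ^ a)).degree < (((n : ℤ) + ee (g Q)).toNat : WithBot ℕ) := by
    refine lt_of_le_of_lt (Polynomial.degree_sum_le _ _) ?_
    rw [Finset.sup_lt_iff (WithBot.bot_lt_coe _)]
    intro β hβ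
    rw [Finset.mem_erase] at hβ
    by_cases hn0 : n1 β = 0
    · rw [hn0, Int.cast_zero, zero_mul, Polynomial.monomial_zero_right, Polynomial.degree_zero]
      exact WithBot.bot_lt_coe _
    · have hlt : ‖β‖ < Q := by
        by_contra hc
        have := hA1 β hβ.2 (not_lt.1 hc) hβ.1
        exact hn0 (by exact_mod_cast this)
      have h1 := heβ β hβ.2 hlt
      have h2 := hn β (hS1 β hβ.2)
      refine lt_of_le_of_lt (Polynomial.degree_monomial_le _ _) ?_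
      exact_mod_cast (by omega : ((n : ℤ) + ee (g β)).toNat < ((n : ℤ) + ee (g Q)).toNat)
  have hτu : τ' (g Q) ^ a ≠ 0 := by
    intro h0
    have h1 := congrArg (fun x : O => (x : ℂ)) h0
    simp only [SubmonoidClass.coe_pow, hτ', ZeroMemClass.coe_zero] at h1
    exact (pow_ne_zero a (Units.ne_zero _)) h1
  have hlead0 : (h : O) * τ' (g Q) ^ a ≠ 0 := by
    refine mul_ne_zero ?_ hτu
    intro h0
    have h1 := congrArg (fun x : O => (x : ℂ)) h0
    simp only [ZeroMemClass.coe_zero] at h1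
    apply hh
    have h2 : ((h : O) : ℂ) = (h : ℂ) := by push_cast; rfl
    rw [h2] at h1
    exact_mod_cast h1
  have hdegmon : (Polynomial.monomial ((n : ℤ) + ee (g Q)).toNat ((h : O) * τ' (g Q) ^ a)).degree =
      (((n : ℤ) + ee (g Q)).toNat : WithBot ℕ) := Polynomial.degree_monomial _ hlead0
  have hdeg : V0.natDegree = ((n : ℤ) + ee (g Q)).toNat := by
    apply Polynomial.natDegree_eq_of_degree_eq_some
    rw [hsplit, Polynomial.degree_add_eq_left_of_degree_lt (by rw [hdegmon]; exact hlow), hdegmon]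
  have hlc : V0.leadingCoeff = (h : O) * τ' (g Q) ^ a := by
    rw [hsplit, Polynomial.leadingCoeff_add_of_degree_lt' (by rw [hdegmon]; exact hlow),
      Polynomial.leadingCoeff_monomial]
  have hl' : (l : O) ≠ 0 := by
    intro h0
    have h1 := congrArg (fun x : O => (x : ℂ)) h0
    simp only [ZeroMemClass.coe_zero] at h1
    apply hl
    have h2 : ((l : O) : ℂ) = (l : ℂ) := by push_cast; rfl
    rw [h2] at h1
    exact_mod_cast h1
  obtain ⟨c, hc⟩ := hG O (l : O) n V0 I0 hl' hid (by rw [hdeg]; omega)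
  rw [hlc] at hc
  have hcC := congrArg (fun x : O => (x : ℂ)) hc
  simp only [MulMemClass.coe_mul, SubmonoidClass.coe_pow] at hcC
  have e1 : ((h : O) : ℂ) = (h : ℂ) := by push_cast; rfl
  have e2 : ((l : O) : ℂ) = (l : ℂ) := by push_cast; rfl
  rw [e1, e2, hτ'] at hcC
  refine hO h l hh hl ⟨(c : ℂ) * ((((τ (g Q))⁻¹ : ℂˣ) : ℂ)) ^ a, ?_, ?_⟩
  · refine mul_mem c.2 (pow_mem ?_ a)
    refine mem_of_root hN ?_
    rw [← Units.val_pow_eq_pow_val, inv_pow, hτ1, inv_one, Units.val_one]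
  · rw [← mul_assoc, ← hcC, mul_assoc, ← mul_pow, Units.mul_inv, one_pow, mul_one]

end Pool.Agent.T2h48.DW
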