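import Pool.Agent.T2h48.DW.Stm

set_option autoImplicit false

namespace Pool.Agent.T2h48.DW

open scoped Pointwise in
theorem t_RING : S_RING := by
  classical
  refine ⟨fun c => ?_, fun V W hV hW => ?_, fun V W hV hW => ?_⟩
  · refine ⟨{1}, fun _ => c, by simp, ?_, fun m _ => by simp⟩
    intro β hβ
    rw [Finset.mem_singleton] at hβ
    rw [hβ]
    exact isAlgebraic_one
  · obtain ⟨S, n, h0, ha, h⟩ := hV
    obtain ⟨T, n', h0', ha', h'⟩ := hW
    refine ⟨S ∪ T, fun β => (if β ∈ S then n β else 0) + (if β ∈ T then n' β else 0), ?_, ?_, ?_⟩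
    · rw [Finset.mem_union]
      exact fun hh => hh.elim h0 h0'
    · intro β hβ
      rw [Finset.mem_union] at hβ
      exact hβ.elim (ha β) (ha' β)
    · intro m hm
      push_cast
      rw [h m hm, h' m hm]
      simp only [add_mul, Finset.sum_add_distrib]
      congr 1
      · rw [← Finset.sum_subset (Finset.subset_union_left (s₂ := T))]
        · exact Finset.sum_congr rfl fun β hβ => by rw [if_pos hβ]
        · intro β _ hβ
          rw [if_neg hβ]; simp
      · rw [← Finset.sum_subset (Finset.subset_union_right (s₁ := S))]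
        · exact Finset.sum_congr rfl fun β hβ => by rw [if_pos hβ]
        · intro β _ hβ
          rw [if_neg hβ]; simp
  · obtain ⟨S, n, h0, ha, h⟩ := hV
    obtain ⟨T, n', h0', ha', h'⟩ := hW
    refine ⟨S * T, fun γ => ∑ x ∈ (S ×ˢ T).filter (fun x => x.1 * x.2 = γ), n x.1 * n' x.2, ?_, ?_, ?_⟩
    · intro hh
      obtain ⟨a, haS, b, hbT, hab⟩ := Finset.mem_mul.1 hh
      rcases mul_eq_zero.1 hab with h1 | h1
      · exact h0 (h1 ▸ haS)
      · exact h0' (h1 ▸ hbT)
    · intro β hβ
      obtain ⟨a, haS, b, hbT, hab⟩ := Finset.mem_mul.1 hβ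
      rw [← hab]
      exact (ha a haS).mul (ha' b hbT)
    · intro m hm
      push_cast
      rw [h m hm, h' m hm, Finset.sum_mul_sum, ← Finset.sum_product']
      rw [← Finset.sum_fiberwise_of_maps_to (s := S ×ˢ T) (t := S * T) (g := fun x => x.1 * x.2)]
      · refine Finset.sum_congr rfl fun γ _ => ?_
        rw [Finset.sum_mul]
        refine Finset.sum_congr rfl fun x hx => ?_
        rw [← (Finset.mem_filter.1 hx).2, mul_pow]
        ring
      · intro x hx
        rw [Finset.mem_product] at hx
        exact Finset.mul_mem_mul hx.1 hx.2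

end Pool.Agent.T2h48.DW
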